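import Pool.Agent.Helper53.CL.C.C08

/-!
# CL-K00: composition operators, closures, the clamp, `mQ` (about 250 lines, independent small pieces)

`exists_op`: `u ↦ m(x) (u (ψ x))` on `P`, zero off `P`, is bounded from `L^2(A)` to `L^2(A')`:
`∫ over P, ‖m x (u (ψ x))‖^2 dA' ≤ B^2 ∫ ‖u‖^2 d((A'.restrict P).map ψ) ≤ B^2 K ∫ ‖u‖^2 dA`.  Well defined on classes because
`(A'.restrict P).map ψ ≪ A`.  (Compose `Lp` elements: `MemLp.comp...`, then `LinearMap.mkContinuous`.)
`map_HQ`, `map_HS`: `T ⁻¹' H'` is a closed submodule containing the generators.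
`clamp`: `κ s = s` for `|s| ≤ π`, `κ s = π + (s - π)/(1 + (s - π))` for `s > π`, odd.  `κ' = 1` at `π` from both sides,
`0 < κ' ≤ 1`; for `s > π`, `r = s - π`: `Wt (κ s) = (r/(1+r))^2/2 ≤ r^2/2 = Wt s`.
`clamp_mem`: `CompStable` and `‖κ'(U.fst) U.snd‖ ≤ ‖U.snd‖` pointwise, `Wt (κ) ≤ Wt`.
-/

namespace Pool.Agent.Helper53.CL.K

open MeasureTheory Filter Topology Set Pool.Agent.Helper53.CL.C
open scoped ContDiff Real ENNReal NNReal

private theorem volume_Qs : volume Qs = 1 := by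
  have h1 : Qs = Complex.measurableEquivRealProd ⁻¹' (Icc (0 : ℝ) 1 ×ˢ Icc (0 : ℝ) 1) := by
    ext z
    simp only [Qs, Complex.measurableEquivRealProd_apply, mem_preimage, mem_prod, mem_Icc,
      mem_setOf_eq]
    tauto
  rw [h1, Complex.volume_preserving_equiv_real_prod.measure_preimage
    (measurableSet_Icc.prod measurableSet_Icc).nullMeasurableSet, Measure.volume_eq_prod,
    Measure.prod_prod, Real.volume_Icc]
  simp

theorem mQ_univ : mQ univ = 1 := by
  rw [mQ, Measure.restrict_apply_univ, volume_Qs]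

instance : IsFiniteMeasure mQ := ⟨by rw [mQ_univ]; exact ENNReal.one_lt_top⟩

theorem exists_op {Ω Ω' E F : Type*} [MeasurableSpace Ω] [MeasurableSpace Ω'] [NormedAddCommGroup E] [NormedSpace ℝ E]
    [NormedAddCommGroup F] [NormedSpace ℝ F] {A : Measure Ω} {A' : Measure Ω'} {P : Set Ω'} (hP : MeasurableSet P)
    {ψ : Ω' → Ω} (hψ : AEMeasurable ψ (A'.restrict P)) {K : ℝ≥0} (hK : (A'.restrict P).map ψ ≤ K • A)
    {m : Ω' → E →L[ℝ] F} (hm : AEStronglyMeasurable m (A'.restrict P)) {B : ℝ} (hB : ∀ x ∈ P, ‖m x‖ ≤ B) :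
    ∃ T : Lp E 2 A →L[ℝ] Lp F 2 A', ∀ u, T u =ᵐ[A'] P.indicator fun x => m x (u (ψ x)) := by
  classical
  have hK' : (A'.restrict P).map ψ ≤ (K : ℝ≥0∞) • A := hK
  have hac : (A'.restrict P).map ψ ≪ A := Measure.absolutelyContinuous_of_le_smul hK'
  have hae : ∀ p : Ω → Prop, (∀ᵐ y ∂A, p y) → ∀ᵐ x ∂A', x ∈ P → p (ψ x) := by
    intro p hp
    have h1 : ∀ᵐ y ∂((A'.restrict P).map ψ), p y := hac.ae_le hp
    have h2 : ∀ᵐ x ∂(A'.restrict P), p (ψ x) := ae_of_ae_map hψ h1
    exact (ae_restrict_iff' hP).1 h2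
  have hle : ∀ u : Lp E 2 A, eLpNorm (u : Ω → E) 2 ((A'.restrict P).map ψ) ≤
      (K ^ (2 : ℝ≥0∞).toReal⁻¹ : ℝ≥0) • eLpNorm (u : Ω → E) 2 A := by
    intro u
    refine (eLpNorm_mono_measure _ hK).trans (le_of_eq ?_)
    rw [eLpNorm_smul_measure_of_ne_top' (by simp)]
  have hmem0 : ∀ u : Lp E 2 A, MemLp (u : Ω → E) 2 ((A'.restrict P).map ψ) := by
    intro u
    refine ⟨(Lp.aestronglyMeasurable u).mono_ac hac, (hle u).trans_lt ?_⟩
    rw [ENNReal.smul_def, smul_eq_mul]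
    exact ENNReal.mul_lt_top ENNReal.coe_lt_top (Lp.memLp u).2
  have hmem1 : ∀ u : Lp E 2 A, MemLp (fun x => u (ψ x)) 2 (A'.restrict P) := fun u =>
    (hmem0 u).comp_of_map hψ
  have hbd : ∀ u : Lp E 2 A, ∀ᵐ x ∂(A'.restrict P), ‖m x (u (ψ x))‖ ≤ |B| * ‖u (ψ x)‖ := by
    intro u
    refine (ae_restrict_iff' hP).2 (Eventually.of_forall fun x hx => ?_)
    exact ((m x).le_opNorm _).trans
      (mul_le_mul_of_nonneg_right ((hB x hx).trans (le_abs_self B)) (norm_nonneg _))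
  have hmem2 : ∀ u : Lp E 2 A, MemLp (fun x => m x (u (ψ x))) 2 (A'.restrict P) := by
    intro u
    refine (hmem1 u).of_le_mul ?_ (hbd u)
    exact (ContinuousLinearMap.id ℝ (E →L[ℝ] F)).aestronglyMeasurable_comp₂ hm (hmem1 u).1
  have hmem3 : ∀ u : Lp E 2 A, MemLp (P.indicator fun x => m x (u (ψ x))) 2 A' := fun u =>
    (memLp_indicator_iff_restrict hP).2 (hmem2 u)
  have hcoe : ∀ u : Lp E 2 A, ((hmem3 u).toLp _ : Ω' → F) =ᵐ[A'] P.indicator fun x => m x (u (ψ x)) :=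
    fun u => (hmem3 u).coeFn_toLp
  let T : Lp E 2 A →ₗ[ℝ] Lp F 2 A' :=
    { toFun := fun u => (hmem3 u).toLp _
      map_add' := by
        intro u v
        apply Lp.ext
        filter_upwards [hcoe (u + v), hcoe u, hcoe v,
          Lp.coeFn_add ((hmem3 u).toLp _) ((hmem3 v).toLp _), hae _ (Lp.coeFn_add u v)]
          with x h1 h2 h3 h4 h5
        rw [h1, h4, Pi.add_apply, h2, h3]
        by_cases hx : x ∈ P
        · simp only [indicator_of_mem hx]
          rw [h5 hx, Pi.add_apply, map_add]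
        · simp only [indicator_of_notMem hx, add_zero]
      map_smul' := by
        intro c u
        apply Lp.ext
        filter_upwards [hcoe (c • u), hcoe u, Lp.coeFn_smul c ((hmem3 u).toLp _),
          hae _ (Lp.coeFn_smul c u)] with x h1 h2 h4 h5
        rw [h1, RingHom.id_apply, h4, Pi.smul_apply, h2]
        by_cases hx : x ∈ P
        · simp only [indicator_of_mem hx]
          rw [h5 hx, Pi.smul_apply, map_smul]
        · simp only [indicator_of_notMem hx, smul_zero] }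
  refine ⟨T.mkContinuous (|B| * (K ^ (2 : ℝ≥0∞).toReal⁻¹ : ℝ≥0)) ?_, fun u => hcoe u⟩
  intro u
  have h1 : eLpNorm (P.indicator fun x => m x (u (ψ x))) 2 A' ≤
      ENNReal.ofReal |B| * ((K ^ (2 : ℝ≥0∞).toReal⁻¹ : ℝ≥0) • eLpNorm (u : Ω → E) 2 A) := by
    rw [eLpNorm_indicator_eq_eLpNorm_restrict hP]
    refine (eLpNorm_le_mul_eLpNorm_of_ae_le_mul (hbd u) 2).trans ?_
    gcongr
    refine le_trans (le_of_eq ?_) (hle u)
    exact (eLpNorm_map_measure (hmem0 u).1 hψ).symm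
  have h2 : ‖T u‖ = (eLpNorm (P.indicator fun x => m x (u (ψ x))) 2 A').toReal :=
    Lp.norm_toLp _ (hmem3 u)
  rw [h2, Lp.norm_def]
  have h3 : (ENNReal.ofReal |B| * ((K ^ (2 : ℝ≥0∞).toReal⁻¹ : ℝ≥0) • eLpNorm (u : Ω → E) 2 A)).toReal =
      |B| * (K ^ (2 : ℝ≥0∞).toReal⁻¹ : ℝ≥0) * (eLpNorm (u : Ω → E) 2 A).toReal := by
    rw [ENNReal.smul_def, smul_eq_mul, ENNReal.toReal_mul, ENNReal.toReal_mul,
      ENNReal.toReal_ofReal (abs_nonneg B), ENNReal.coe_toReal, mul_assoc]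
  rw [← h3]
  refine ENNReal.toReal_mono ?_ h1
  refine ENNReal.mul_ne_top ENNReal.ofReal_ne_top ?_
  rw [ENNReal.smul_def, smul_eq_mul]
  exact ENNReal.mul_ne_top ENNReal.coe_ne_top (Lp.memLp u).2.ne

theorem map_HQ {Ω : Type*} [MeasurableSpace Ω] {A : Measure Ω} {H : Submodule ℝ (JetSp A)}
    (hc : IsClosed (H : Set (JetSp A))) (T : JetSp mQ →L[ℝ] JetSp A)
    (h : ∀ v : ℂ → ℝ, ContDiff ℝ 1 v → ∀ U, IsJet U v (gr v) → T U ∈ H) : ∀ U ∈ HQ, T U ∈ H := by
  have h1 : HQ ≤ H.comap (T : JetSp mQ →ₗ[ℝ] JetSp A) := by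
    refine Submodule.topologicalClosure_minimal _ ?_ (hc.preimage T.continuous)
    rw [Submodule.span_le]
    rintro U ⟨v, hv, hU⟩
    exact h v hv U hU
  exact fun U hU => h1 hU

theorem map_HS {S : Type*} [TopologicalSpace S] [MeasurableSpace S] (C : CSurf S) {Ω : Type*} [MeasurableSpace Ω]
    {A : Measure Ω} {H : Submodule ℝ (JetSp A)} (hc : IsClosed (H : Set (JetSp A))) (T : JetSp C.area →L[ℝ] JetSp A)
    (h : ∀ v : S → ℝ, C.IsC1 v → ∀ U, IsJet U v (C.grad v) → T U ∈ H) : ∀ U ∈ C.HS, T U ∈ H := by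
  have h1 : C.HS ≤ H.comap (T : JetSp C.area →ₗ[ℝ] JetSp A) := by
    refine Submodule.topologicalClosure_minimal _ ?_ (hc.preimage T.continuous)
    rw [Submodule.span_le]
    rintro U ⟨v, hv, hU⟩
    exact h v hv U hU
  exact fun U hU => h1 hU

/-- the excess function -/
private noncomputable def exc (x : ℝ) : ℝ := if x ≤ 0 then 0 else x ^ 2 / (1 + x)

/-- its derivative -/
private noncomputable def exc' (x : ℝ) : ℝ := 1 - 1 / (1 + max x 0) ^ 2

private theorem hasDerivAt_exc (x : ℝ) : HasDerivAt exc (exc' x) x := by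
  have hq : ∀ y : ℝ, 0 ≤ y → HasDerivAt (fun x : ℝ => x ^ 2 / (1 + x)) (exc' y) y := by
    intro y hy
    have h0 : (1 + y) ≠ 0 := by positivity
    have h1 : HasDerivAt (fun x : ℝ => x ^ 2) (2 * y) y := by
      simpa using hasDerivAt_pow 2 y
    have h2 : HasDerivAt (fun x : ℝ => 1 + x) 1 y := (hasDerivAt_id y).const_add 1
    refine (h1.div h2 h0).congr_deriv ?_
    unfold exc'
    rw [max_eq_left hy]
    field_simp
    ring
  rcases lt_trichotomy x 0 with h | h | h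
  · have h1 : exc' x = 0 := by
      unfold exc'
      rw [max_eq_right h.le]
      norm_num
    rw [h1]
    refine (hasDerivAt_const x (0 : ℝ)).congr_of_eventuallyEq ?_
    filter_upwards [Iio_mem_nhds h] with y hy
    exact if_pos (le_of_lt hy)
  · subst h
    have h00 : exc 0 = 0 := if_pos le_rfl
    have hd : exc' 0 = 0 := by
      unfold exc'
      norm_num
    have h1 : HasDerivWithinAt exc (exc' 0) (Ici 0) 0 := by
      refine (hq 0 le_rfl).hasDerivWithinAt.congr (fun y hy => ?_) ?_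
      · rcases (show (0 : ℝ) ≤ y from hy).eq_or_lt with h2 | h2
        · rw [← h2, h00]
          norm_num
        · exact if_neg (not_le.2 h2)
      · rw [h00]
        norm_num
    have h2 : HasDerivWithinAt exc (exc' 0) (Iic 0) 0 := by
      rw [hd]
      refine (hasDerivWithinAt_const (0 : ℝ) (Iic 0) (0 : ℝ)).congr (fun y hy => if_pos hy) h00
    have h3 := h2.union h1
    rw [Iic_union_Ici] at h3
    exact h3.hasDerivAt Filter.univ_mem
  · refine (hq x h.le).congr_of_eventuallyEq ?_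
    filter_upwards [Ioi_mem_nhds h] with y hy
    exact if_neg (not_le.2 hy)

/-- the clamp -/
private noncomputable def clp (s : ℝ) : ℝ := s - exc (s - π) + exc (-s - π)

private theorem hasDerivAt_clp (s : ℝ) : HasDerivAt clp (1 - exc' (s - π) - exc' (-s - π)) s := by
  have h1 : HasDerivAt (fun s => exc (s - π)) (exc' (s - π)) s := by
    have h2 : HasDerivAt (fun s : ℝ => s - π) 1 s := (hasDerivAt_id s).sub_const π
    have := HasDerivAt.comp s (hasDerivAt_exc (s - π)) h2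
    rwa [mul_one] at this
  have h2 : HasDerivAt (fun s => exc (-s - π)) (-exc' (-s - π)) s := by
    have h3 : HasDerivAt (fun s : ℝ => -s - π) (-1) s := (hasDerivAt_neg s).sub_const π
    have := HasDerivAt.comp s (hasDerivAt_exc (-s - π)) h3
    rwa [mul_neg_one] at this
  refine (((hasDerivAt_id s).sub h1).add h2).congr_deriv ?_
  ring

private theorem continuous_exc' : Continuous exc' := by
  unfold exc'
  refine continuous_const.sub (continuous_const.div ((continuous_const.add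
    (continuous_id.max continuous_const)).pow 2) fun x => ?_)
  have : 0 ≤ max x 0 := le_max_right _ _
  positivity

private theorem exc'_mem (x : ℝ) : 0 ≤ exc' x ∧ exc' x ≤ 1 := by
  have h : 0 ≤ max x 0 := le_max_right _ _
  have h1 : (1 : ℝ) ≤ (1 + max x 0) ^ 2 := by nlinarith
  have h2 : 1 / (1 + max x 0) ^ 2 ≤ 1 := by
    rw [div_le_one (by positivity)]
    exact h1
  have h3 : 0 ≤ 1 / (1 + max x 0) ^ 2 := by positivity
  unfold exc'
  constructor <;> linarith

private theorem exc'_of_nonpos {x : ℝ} (h : x ≤ 0) : exc' x = 0 := by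
  unfold exc'
  rw [max_eq_right h]
  norm_num

private theorem clp_neg (s : ℝ) : clp (-s) = -clp s := by
  unfold clp
  rw [neg_neg]
  ring

private theorem clp_of_nonneg {s : ℝ} (hs : 0 ≤ s) : clp s = s - exc (s - π) := by
  unfold clp
  have : exc (-s - π) = 0 := if_pos (by linarith [Real.pi_pos])
  rw [this, add_zero]

private theorem clp_small {s : ℝ} (hs : |s| ≤ π) : clp s = s := by
  unfold clp
  have h1 := abs_le.1 hs
  have h2 : exc (s - π) = 0 := if_pos (by linarith)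
  have h3 : exc (-s - π) = 0 := if_pos (by linarith)
  rw [h2, h3]
  ring

private theorem clp_large {s : ℝ} (hs : π < s) : clp s = π + (s - π) / (1 + (s - π)) := by
  have h0 : 0 < s - π := by linarith
  rw [clp_of_nonneg (by linarith [Real.pi_pos])]
  have : exc (s - π) = (s - π) ^ 2 / (1 + (s - π)) := if_neg (not_le.2 h0)
  rw [this]
  have h1 : (1 + (s - π)) ≠ 0 := by positivity
  field_simp
  ring

private theorem frac_mem {r : ℝ} (h : 0 < r) : 0 < r / (1 + r) ∧ r / (1 + r) ≤ 1 ∧ r / (1 + r) ≤ r := by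
  refine ⟨by positivity, ?_, ?_⟩
  · rw [div_le_one (by positivity)]
    linarith
  · rw [div_le_iff₀ (by positivity)]
    nlinarith

private theorem clp_abs_aux {s : ℝ} (hs : 0 ≤ s) : |clp s| ≤ π + 1 ∧ Wt (clp s) ≤ Wt s := by
  rcases le_or_gt s π with h | h
  · have h1 : |s| ≤ π := by rwa [abs_of_nonneg hs]
    rw [clp_small h1]
    exact ⟨by linarith, le_rfl⟩
  · rw [clp_large h]
    have hp := Real.pi_pos
    obtain ⟨h1, h2, h3⟩ := frac_mem (show 0 < s - π by linarith)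
    set q := (s - π) / (1 + (s - π)) with hq
    have h4 : 0 < π + q := by linarith
    refine ⟨by rw [abs_of_pos h4]; linarith, ?_⟩
    unfold Wt
    rw [abs_of_pos h4, abs_of_pos (show 0 < s by linarith), if_neg (by linarith), if_neg (by linarith)]
    have h5 : π + q - π = q := by ring
    rw [h5]
    have h6 : q ^ 2 ≤ (s - π) ^ 2 := pow_le_pow_left₀ h1.le h3 2
    linarith

theorem exists_clamp : ∃ κ : ℝ → ℝ, ContDiff ℝ 1 κ ∧ (∀ s, κ (-s) = -κ s) ∧ (∀ s, |deriv κ s| ≤ 1) ∧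
    (∀ s, |κ s| ≤ π + 1) ∧ (∀ s, Wt (κ s) ≤ Wt s) ∧ ∀ s, |s| ≤ π → κ s = s := by
  have hd : deriv clp = fun s => 1 - exc' (s - π) - exc' (-s - π) :=
    funext fun s => (hasDerivAt_clp s).deriv
  refine ⟨clp, ?_, clp_neg, ?_, ?_, ?_, fun s hs => clp_small hs⟩
  · rw [contDiff_one_iff_deriv]
    refine ⟨fun s => (hasDerivAt_clp s).differentiableAt, ?_⟩
    rw [hd]
    have h1 := continuous_exc'.comp (continuous_id.sub (continuous_const (y := π)))
    have h2 := continuous_exc'.comp (continuous_id.neg.sub (continuous_const (y := π)))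
    exact (continuous_const.sub h1).sub h2
  · intro s
    rw [hd]
    simp only
    have h1 := exc'_mem (s - π)
    have h2 := exc'_mem (-s - π)
    rw [abs_le]
    rcases le_total 0 s with h | h
    · have h3 : exc' (-s - π) = 0 := exc'_of_nonpos (by linarith [Real.pi_pos])
      rw [h3]
      constructor <;> linarith
    · have h3 : exc' (s - π) = 0 := exc'_of_nonpos (by linarith [Real.pi_pos])
      rw [h3]
      constructor <;> linarith
  · intro s
    rcases le_total 0 s with h | h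
    · exact (clp_abs_aux h).1
    · have h1 := (clp_abs_aux (show 0 ≤ -s by linarith)).1
      rwa [clp_neg, abs_neg] at h1
  · intro s
    rcases le_total 0 s with h | h
    · exact (clp_abs_aux h).2
    · have h1 := (clp_abs_aux (show 0 ≤ -s by linarith)).2
      rwa [clp_neg, Wt_even, Wt_even] at h1

theorem clamp_mem {Ω : Type*} [MeasurableSpace Ω] {A : Measure Ω} [IsFiniteMeasure A] {H : Submodule ℝ (JetSp A)}
    (hH : CompStable H) {κ : ℝ → ℝ} (h1 : ContDiff ℝ 1 κ) (h2 : ∀ s, |deriv κ s| ≤ 1) (h3 : ∀ s, Wt (κ s) ≤ Wt s)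
    {U : JetSp A} (hU : U ∈ H) : ∃ V ∈ H, IsJet V (fun x => κ (U.fst x)) (fun x => ((deriv κ (U.fst x) : ℝ) : ℂ) * U.snd x) ∧
      ‖V.snd‖ ≤ ‖U.snd‖ ∧ ∀ w : Ω → ℝ, IsWeight w → ∀ ε > 0, en ε w V ≤ en ε w U := by
  obtain ⟨V, hV, hJ⟩ := hH κ h1 ⟨1, h2⟩ U hU
  have hn : ‖V.snd‖ ≤ ‖U.snd‖ := by
    apply Lp.norm_le_norm_of_ae_le
    filter_upwards [hJ.2] with x hx
    rw [hx, norm_mul, Complex.norm_real, Real.norm_eq_abs]
    calc |deriv κ (U.fst x)| * ‖U.snd x‖ ≤ 1 * ‖U.snd x‖ :=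
          mul_le_mul_of_nonneg_right (h2 _) (norm_nonneg _)
      _ = ‖U.snd x‖ := one_mul _
  refine ⟨V, hV, hJ, hn, fun w hw ε hε => ?_⟩
  unfold en
  obtain ⟨c, C, hc0, hc, hC⟩ := c02_bd hw
  have h4 : ∫ x, w x * Wt (V.fst x) ∂A ≤ ∫ x, w x * Wt (U.fst x) ∂A := by
    refine integral_mono_ae (integrable_Wt hw V.fst) (integrable_Wt hw U.fst) ?_
    filter_upwards [hJ.1] with x hx
    rw [hx]
    exact mul_le_mul_of_nonneg_left (h3 _) (hc0.le.trans (hc x))
  have h5 : ‖V.snd‖ ^ 2 ≤ ‖U.snd‖ ^ 2 := pow_le_pow_left₀ (norm_nonneg _) hn 2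
  gcongr

end Pool.Agent.Helper53.CL.K
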