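import Pool.Agent.Helper53.CL.C.C08

/-!
# CL-K01: superadditivity and monotonicity of the widths (about 200 lines)

`superadd`.  Let `c < κ N width(H', q)` (WLOG `N > 0`), `c' = c / (κ N) < width(H', q)`.  For `u = U.fst ∈ sub H ε w c`:
`∑ i, en ε' w' (V i) ≤ c / κ`, so some `i` has `en (V i) ≤ c'`, i.e. `R i u ∈ sub H' ε' w' c'`.  The sets
`A_i = R i ⁻¹' (sub H' ε' w' c')` are closed (`isCompact_sub`), symmetric, of genus `≤ q` (`genus_pull`, `genus_of_lt`), so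
`GenusLE (⋃ A_i) (N q)` (`genus_iUnion`), `GenusLE (sub H ε w c) (N q)` (`genus_mono`), hence `c ≤ width H ε w (N q)`
(`le_width`).  Let `c → κ N width`.
`pull_bound`: `T` maps `sub H' ε' w' c` into `sub H ε w (α c + β)`, continuous and odd (`genus_pull`).
`width_pull`: apply it to `c = width H' ε' w' p` (`not_genus_width`) and `width_le_of_not`.
`large_of`: energies for different `(ε, w)` are comparable: `en ε w U ≤ M en ε' w' U` with
`M = max (ε/ε') (C_w ε' / (c_{w'} ε))`, so `sub H ε' w' c ⊆ sub H ε w (M c)` and `genus_mono`.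
-/

namespace Pool.Agent.Helper53.CL.K

open MeasureTheory Filter Topology Set Pool.Agent.Helper53.CL.C

variable {Ω Ω' : Type*} [MeasurableSpace Ω] [MeasurableSpace Ω'] {A : Measure Ω} {A' : Measure Ω'} [IsFiniteMeasure A]
  [IsFiniteMeasure A'] {H : Submodule ℝ (JetSp A)} {H' : Submodule ℝ (JetSp A')} {ε ε' : ℝ} {w : Ω → ℝ} {w' : Ω' → ℝ}

omit [IsFiniteMeasure A] in
private theorem k01_pos {M : ℝ} (hM : 0 ≤ M) {w₁ : Ω → ℝ}
    (h : ∀ U : JetSp A, en ε' w₁ U ≤ M * en ε w U) {c : ℝ} : sub H ε w c ⊆ sub H ε' w₁ (M * c) := by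
  rintro u ⟨U, h1, h2, h3⟩
  exact ⟨U, h1, h2, (h U).trans (mul_le_mul_of_nonneg_left h3 hM)⟩

theorem superadd (hH' : IsESpace H') (hε : 0 < ε) (hε' : 0 < ε') (hw : IsWeight w) (hw' : IsWeight w') {N q : ℕ}
    (R : Fin N → Lp ℝ 2 A → Lp ℝ 2 A') (hR : ∀ i, Continuous (R i)) (ho : ∀ i u, R i (-u) = -R i u) {κ : ℝ} (hκ : 0 < κ)
    (hE : ∀ U ∈ H, ∃ V : Fin N → JetSp A', (∀ i, V i ∈ H' ∧ (V i).fst = R i U.fst) ∧
      κ * ∑ i, en ε' w' (V i) ≤ en ε w U)
    (hL : ∃ c, ¬ GenusLE (sub H ε w c) (N * q)) :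
    κ * N * width H' ε' w' q ≤ width H ε w (N * q) := by
  rcases Nat.eq_zero_or_pos N with h0 | hN
  · subst h0
    have := width_nonneg (H := H) (p := 0 * q) hε hw
    simpa using this
  have hNr : (0 : ℝ) < N := by exact_mod_cast hN
  refine le_of_forall_lt_imp_le_of_dense fun c hc => ?_
  have hc' : c / (κ * N) < width H' ε' w' q := by
    rw [div_lt_iff₀ (mul_pos hκ hNr)]
    linarith
  have hg := genus_of_lt hε' hw' hc'
  apply le_width hL
  have hcl : IsClosed (sub H' ε' w' (c / (κ * N))) := (isCompact_sub hH' hε' hw' _).isClosed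
  have hun := genus_iUnion (A := fun i => R i ⁻¹' (sub H' ε' w' (c / (κ * N)))) (k := q)
    (fun i => hcl.preimage (hR i)) (fun i x hx => by
      change R i (-x) ∈ sub H' ε' w' (c / (κ * N))
      rw [ho]
      exact sub_symm hx)
    (fun i => genus_pull (hR i).continuousOn (fun x _ => ho i x) (fun x hx => hx) hg)
  refine genus_mono ?_ hun
  rintro u ⟨U, hU, hUu, hUc⟩
  obtain ⟨V, hV, hs⟩ := hE U hU
  have hex : ∃ i ∈ (Finset.univ : Finset (Fin N)), en ε' w' (V i) ≤ c / (κ * N) := by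
    apply Finset.exists_le_of_sum_le (s := (Finset.univ : Finset (Fin N)))
      (f := fun i => en ε' w' (V i)) (g := fun _ => c / (κ * N))
    · exact ⟨⟨0, hN⟩, Finset.mem_univ _⟩
    · rw [Finset.sum_const, Finset.card_univ, Fintype.card_fin, nsmul_eq_mul]
      have h1 : (N : ℝ) * (c / (κ * N)) = c / κ := by
        field_simp
      rw [h1, le_div_iff₀ hκ]
      linarith
  obtain ⟨i, _, hi⟩ := hex
  refine mem_iUnion.2 ⟨i, ?_⟩
  exact ⟨V i, (hV i).1, by rw [(hV i).2, hUu], hi⟩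

theorem pull_bound {T : Lp ℝ 2 A' → Lp ℝ 2 A} (hT : Continuous T) (ho : ∀ u, T (-u) = -T u) {α β c : ℝ} (hα : 0 ≤ α)
    (hE : ∀ U ∈ H', ∃ V ∈ H, V.fst = T U.fst ∧ en ε w V ≤ α * en ε' w' U + β) {p : ℕ}
    (h : ¬ GenusLE (sub H' ε' w' c) p) : ¬ GenusLE (sub H ε w (α * c + β)) p := by
  intro hg
  apply h
  refine genus_pull hT.continuousOn (fun x _ => ho x) ?_ hg
  rintro u ⟨U, hU, hUu, hUc⟩
  obtain ⟨V, hV, h1, h2⟩ := hE U hU
  refine ⟨V, hV, by rw [h1, hUu], h2.trans ?_⟩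
  have := mul_le_mul_of_nonneg_left hUc hα
  linarith

theorem width_pull (hH' : IsESpace H') (hε : 0 < ε) (hε' : 0 < ε') (hw : IsWeight w) (hw' : IsWeight w')
    {T : Lp ℝ 2 A' → Lp ℝ 2 A} (hT : Continuous T) (ho : ∀ u, T (-u) = -T u) {α β : ℝ} (hα : 0 ≤ α)
    (hE : ∀ U ∈ H', ∃ V ∈ H, V.fst = T U.fst ∧ en ε w V ≤ α * en ε' w' U + β) {p : ℕ}
    (hL : ∃ c, ¬ GenusLE (sub H' ε' w' c) p) : width H ε w p ≤ α * width H' ε' w' p + β :=
  width_le_of_not hε hw (pull_bound hT ho hα hE (not_genus_width hH' hε' hw' hL))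

theorem large_of (hε : 0 < ε) (hε' : 0 < ε') (hw : IsWeight w) {w₁ : Ω → ℝ} (hw₁ : IsWeight w₁) {p : ℕ}
    (h : ∃ c, ¬ GenusLE (sub H ε w c) p) : ∃ c, ¬ GenusLE (sub H ε' w₁ c) p := by
  obtain ⟨c, hc⟩ := h
  obtain ⟨_, c0, C0, hc0, hb0⟩ := hw
  obtain ⟨_, c1, C1, hc1, hb1⟩ := id hw₁
  have hw : IsWeight w := ⟨by assumption, c0, C0, hc0, hb0⟩
  have hC1 : 0 ≤ max C1 0 := le_max_right _ _
  have hM : 0 ≤ ε' / ε + max C1 0 / c0 * (ε / ε') := by positivity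
  refine ⟨(ε' / ε + max C1 0 / c0 * (ε / ε')) * c, fun hg => hc (genus_mono (k01_pos hM fun U => ?_) hg)⟩
  unfold en
  have hI0 := c02_pot_nonneg hw U.fst
  have hI : ∫ x, w₁ x * Wt (U.fst x) ∂A ≤ max C1 0 / c0 * ∫ x, w x * Wt (U.fst x) ∂A := by
    rw [← integral_const_mul]
    apply integral_mono (integrable_Wt hw₁ _) ((integrable_Wt hw _).const_mul _)
    intro x
    have h1 : w₁ x ≤ max C1 0 / c0 * w x := by
      have h2 : max C1 0 / c0 * c0 ≤ max C1 0 / c0 * w x :=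
        mul_le_mul_of_nonneg_left (hb0 x).1 (by positivity)
      rw [div_mul_cancel₀ _ hc0.ne'] at h2
      exact ((hb1 x).2.trans (le_max_left _ _)).trans h2
    have h3 := mul_le_mul_of_nonneg_right h1 (Wt_nonneg (U.fst x))
    change w₁ x * Wt (U.fst x) ≤ max C1 0 / c0 * (w x * Wt (U.fst x))
    linarith
  have hS : 0 ≤ ‖U.snd‖ ^ 2 := by positivity
  set I1 := ∫ x, w₁ x * Wt (U.fst x) ∂A
  set I0 := ∫ x, w x * Wt (U.fst x) ∂A
  set S := ‖U.snd‖ ^ 2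
  set K := max C1 0 / c0
  have hK : 0 ≤ K := by positivity
  have e1 : ε' / 2 * S = ε' / ε * (ε / 2 * S) := by
    field_simp
  have e2 : 1 / ε' * I1 ≤ K * (ε / ε') * (1 / ε * I0) := by
    have h4 : K * (ε / ε') * (1 / ε * I0) = 1 / ε' * (K * I0) := by
      field_simp
    rw [h4]
    exact mul_le_mul_of_nonneg_left hI (by positivity)
  have p1 : 0 ≤ ε' / ε * (1 / ε * I0) := by positivity
  have p2 : 0 ≤ K * (ε / ε') * (ε / 2 * S) := by positivity
  nlinarith [e1, e2, p1, p2]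

end Pool.Agent.Helper53.CL.K
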