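import Pool.Agent.Helper53.CL.K.K06
import Pool.Agent.Helper53.CL.K.K01
import Pool.Agent.Helper53.CL.K.K00

/-!
# CL-K07: upper bound of the widths of the square by polynomials (about 250 lines)

`BUprop`: no odd continuous map from the unit sphere of `ℝ^(p+1)` to `ℝ^p` without zeros (Borsuk-Ulam, `helper57`,
`Pool/Agent/Helper57/BU`, statement `¬ GenusLE (sphere 0 1) p`).
For `p ≥ 1` let `d = ⌈√(p+1)⌉`, `d^2 ≥ p + 1`, `d ≤ 3 √p`; `ι : ℝ^(p+1) → (Fin d → Fin d → ℝ)` an injective linear map.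
For `ξ` in the sphere: `s = sign (pol (ι ξ))`, `v_ξ = π moll ε s`, `Θ ξ` its class in `L^2(mQ)`.  `Θ` is odd and continuous on the
sphere (`sgn_cont`, `sgn_ae`, dominated convergence, then (v) of `exists_moll`: uniform convergence on `Qs`).
Energy of the jet `U` of `v_ξ` (in `HQ`, `v_ξ` is smooth on `ℂ`): with `M = 12 d` (`sgn_shift`): `(ε/2) π^2 ∫_{Qs} ‖gr moll‖^2 ≤
(ε/2) π^2 (K/ε) K M`, and `Wt(π r) = 1 + cos(π r) ≤ π^2 (1 - |r|)` for `|r| ≤ 1` (`1 + cos(π r) = 1 - cos(π(1-|r|)) ≤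
π^2 (1-|r|)^2/2`), `1 - |moll| ≤ |s| - |moll| ≤ |s - moll|` almost everywhere (`|s| = 1`), so `(1/ε) ∫ Wt ≤ (1/ε) π^2 K M ε`.
Total `≤ K' d ≤ 3 K' √p`.  If `GenusLE (sub HQ ε 1 (K'' √p)) p` then `genus_pull` contradicts `BUprop`.
`large_HQ`: from this and `large_of` (for `p = 0`: the set is nonempty, `genus_zero`, or `genus_le_of_le`).
-/

namespace Pool.Agent.Helper53.CL.K

open MeasureTheory Filter Topology Set Metric Pool.Agent.Helper53.CL.C
open scoped ContDiff Real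

/-- The Borsuk-Ulam theorem. -/
def BUprop : Prop := ∀ p : ℕ, ¬ GenusLE (sphere (0 : EuclideanSpace ℝ (Fin (p + 1))) 1) p

/-- the properties of the mollification at a fixed scale -/
private def MP (K ε : ℝ) (m : (ℂ → ℝ) → ℂ → ℝ) : Prop := ∀ s : ℂ → ℝ, Measurable s → (∀ z, |s z| ≤ 1) →
      ContDiff ℝ ∞ (m s) ∧ (∀ z, |m s z| ≤ 1) ∧ (∀ z, ‖gr (m s) z‖ ≤ K / ε) ∧
      (∀ z, m (fun z => -s z) z = -m s z) ∧
      (∀ s' : ℂ → ℝ, Measurable s' → (∀ z, |s' z| ≤ 1) →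
        ∀ z ∈ Qs, |m s z - m s' z| ≤ K / ε ^ 2 * ∫ z in Qb, |s z - s' z|) ∧
      ∀ M : ℝ, (∀ t : ℝ, |t| ≤ 1 → ∫ z in Qb, |s (z + t) - s z| ≤ M * |t| ∧
          ∫ z in Qb, |s (z + Complex.I * t) - s z| ≤ M * |t|) →
        ∫ z in Qs, |m s z - s z| ≤ K * M * ε ∧ ∫ z in Qs, ‖gr (m s) z‖ ≤ K * M

private theorem meas_Qs : MeasurableSet Qs := by
  have h : Qs = Icc (0 : ℝ) 1 ×ℂ Icc (0 : ℝ) 1 := by
    ext z
    simp only [Qs, mem_ofPred_eq, Complex.mem_reProdIm, mem_Icc, and_assoc]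
  rw [h]
  exact (isCompact_Icc.reProdIm isCompact_Icc).measurableSet

private noncomputable def sg {d : ℕ} (c : Fin d → Fin d → ℝ) (z : ℂ) : ℝ := Real.sign (pol c z)

private theorem sg_le {d : ℕ} (c : Fin d → Fin d → ℝ) (z : ℂ) : |sg c z| ≤ 1 := by
  unfold sg
  rcases Real.sign_apply_eq (pol c z) with h | h | h <;> rw [h] <;> norm_num

private theorem sg_neg {d : ℕ} (c : Fin d → Fin d → ℝ) : sg (-c) = fun z => -sg c z := by
  funext z
  unfold sg
  have h : pol (-c) z = -pol c z := by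
    unfold pol
    simp only [Pi.neg_apply, neg_mul, Finset.sum_neg_distrib]
  rw [h, Real.sign_neg]

private theorem sg_one {d : ℕ} {c : Fin d → Fin d → ℝ} {z : ℂ} (h : pol c z ≠ 0) : |sg c z| = 1 := by
  unfold sg
  rcases lt_or_gt_of_ne h with h | h
  · rw [Real.sign_of_neg h]
    norm_num
  · rw [Real.sign_of_pos h]
    norm_num

private theorem memv {K ε : ℝ} {m : (ℂ → ℝ) → ℂ → ℝ} (h : MP K ε m) {d : ℕ} (c : Fin d → Fin d → ℝ) :
    MemLp (fun z => π * m (sg c) z) 2 mQ := by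
  obtain ⟨h1, h2, -⟩ := h (sg c) (measurable_sgn c) (sg_le c)
  refine MemLp.of_bound (h1.continuous.const_mul π).aestronglyMeasurable π (Eventually.of_forall fun z => ?_)
  rw [norm_mul, Real.norm_eq_abs, Real.norm_eq_abs, abs_of_pos Real.pi_pos]
  have := h2 z
  nlinarith [Real.pi_pos]

/-- the map from coefficients to functions -/
private noncomputable def Th {K ε : ℝ} {m : (ℂ → ℝ) → ℂ → ℝ} (h : MP K ε m) {d : ℕ} (c : Fin d → Fin d → ℝ) :
    Lp ℝ 2 mQ := (memv h c).toLp _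

private theorem Th_neg {K ε : ℝ} {m : (ℂ → ℝ) → ℂ → ℝ} (h : MP K ε m) {d : ℕ} (c : Fin d → Fin d → ℝ) :
    Th h (-c) = -Th h c := by
  unfold Th
  rw [← MemLp.toLp_neg]
  congr 1
  funext z
  obtain ⟨-, -, -, h4, -⟩ := h (sg c) (measurable_sgn c) (sg_le c)
  rw [Pi.neg_apply, sg_neg, h4, mul_neg]

private theorem Th_tendsto {K ε : ℝ} (hK : 0 < K) (hε : 0 < ε) {m : (ℂ → ℝ) → ℂ → ℝ} (h : MP K ε m) {d : ℕ}
    {c : ℕ → Fin d → Fin d → ℝ}
    {c₀ : Fin d → Fin d → ℝ} (hc : Tendsto c atTop (𝓝 c₀)) (h0 : c₀ ≠ 0) :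
    Tendsto (fun n => Th h (c n)) atTop (𝓝 (Th h c₀)) := by
  have hfin : IsFiniteMeasure (volume.restrict Qb) := ⟨by
    rw [Measure.restrict_apply_univ]
    exact k5_isCompact_Qb.measure_lt_top⟩
  have hint : Tendsto (fun n => ∫ z in Qb, |sg (c n) z - sg c₀ z|) atTop (𝓝 0) := by
    have h1 : Tendsto (fun n => ∫ z in Qb, |sg (c n) z - sg c₀ z|) atTop (𝓝 (∫ z in Qb, (0 : ℝ))) := by
      refine tendsto_integral_of_dominated_convergence (fun _ => 2) (fun n => ?_) (integrable_const 2)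
        (fun n => ?_) ?_
      · have := ((measurable_sgn (c n)).sub (measurable_sgn c₀)).abs.aestronglyMeasurable
          (μ := volume.restrict Qb)
        exact this
      · refine Eventually.of_forall fun z => ?_
        rw [Real.norm_eq_abs, abs_abs]
        exact k5_sign_sub_le _ _
      · refine ae_restrict_of_ae ?_
        filter_upwards [sgn_ae h0] with z hz
        have h2 : Tendsto (fun n => sg (c n) z) atTop (𝓝 (sg c₀ z)) := sgn_cont hc hz
        have h3 := (h2.sub_const (sg c₀ z)).abs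
        rw [sub_self, abs_zero] at h3
        exact h3
    rw [integral_zero] at h1
    exact h1
  rw [tendsto_iff_norm_sub_tendsto_zero]
  set A : ℝ := ((measureUnivNNReal mQ : ℝ) ^ (2 : ENNReal).toReal⁻¹) with hA
  have hA0 : 0 ≤ A := by positivity
  have hB : ∀ n, ‖Th h (c n) - Th h c₀‖ ≤ A * (π * (K / ε ^ 2 * ∫ z in Qb, |sg (c n) z - sg c₀ z|)) := by
    intro n
    have hI : 0 ≤ ∫ z in Qb, |sg (c n) z - sg c₀ z| := integral_nonneg fun z => abs_nonneg _
    refine Lp.norm_le_of_ae_bound (by positivity) ?_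
    obtain ⟨-, -, -, -, h5, -⟩ := h (sg (c n)) (measurable_sgn (c n)) (sg_le (c n))
    have h6 := h5 (sg c₀) (measurable_sgn c₀) (sg_le c₀)
    have e1 : (Th h (c n) - Th h c₀ : Lp ℝ 2 mQ) =ᵐ[mQ] fun z => π * m (sg (c n)) z - π * m (sg c₀) z := by
      filter_upwards [Lp.coeFn_sub (Th h (c n)) (Th h c₀), (memv h (c n)).coeFn_toLp, (memv h c₀).coeFn_toLp]
        with z q1 q2 q3
      rw [q1, Pi.sub_apply]
      unfold Th
      rw [q2, q3]
    have e2 : ∀ᵐ z ∂mQ, z ∈ Qs := ae_restrict_mem meas_Qs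
    filter_upwards [e1, e2] with z q1 q2
    rw [q1, ← mul_sub, norm_mul, Real.norm_eq_abs, Real.norm_eq_abs, abs_of_pos Real.pi_pos]
    exact mul_le_mul_of_nonneg_left (h6 z q2) Real.pi_pos.le
  refine squeeze_zero (fun n => norm_nonneg _) hB ?_
  have h7 := ((hint.const_mul (K / ε ^ 2)).const_mul π).const_mul A
  simpa using h7

private theorem gr_cont {v : ℂ → ℝ} (hv : ContDiff ℝ ∞ v) : Continuous (gr v) := by
  have h1 : Continuous (fderiv ℝ v) := hv.continuous_fderiv (by norm_num)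
  have h2 : Continuous fun z => fderiv ℝ v z 1 := h1.clm_apply continuous_const
  have h3 : Continuous fun z => fderiv ℝ v z Complex.I := h1.clm_apply continuous_const
  have h4 : gr v = fun z => ((fderiv ℝ v z 1 : ℝ) : ℂ) + ((fderiv ℝ v z Complex.I : ℝ) : ℂ) * Complex.I := by
    funext z
    unfold gr dx dy
    apply Complex.ext <;> simp
  rw [h4]
  fun_prop

private theorem gr_mul {f : ℂ → ℝ} (hf : ContDiff ℝ ∞ f) (z : ℂ) :
    ‖gr (fun z => π * f z) z‖ = π * ‖gr f z‖ := by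
  have hd : DifferentiableAt ℝ f z := (hf.differentiable (by norm_num)) z
  have h1 : fderiv ℝ (fun z => π * f z) z = π • fderiv ℝ f z := fderiv_const_mul hd π
  have h2 : gr (fun z => π * f z) z = (π : ℂ) * gr f z := by
    unfold gr dx dy
    rw [h1]
    apply Complex.ext <;> simp
  rw [h2, norm_mul, Complex.norm_real, Real.norm_eq_abs, abs_of_pos Real.pi_pos]

private theorem wt_le {r s : ℝ} (hr : |r| ≤ 1) (hs : |s| = 1) : Wt (π * r) ≤ π ^ 2 * |r - s| := by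
  have hpi := Real.pi_pos
  have h1 : |π * r| ≤ π := by
    rw [abs_mul, abs_of_pos hpi]
    nlinarith
  rw [Wt_eq h1]
  have h2 : Real.cos (π * r) = -Real.cos (π * (1 - |r|)) := by
    have h3 : Real.cos (π * r) = Real.cos (π * |r|) := by
      rcases abs_choice r with h | h
      · rw [h]
      · rw [h, mul_neg, Real.cos_neg]
    have h4 : π * (1 - |r|) = π - π * |r| := by ring
    rw [h4, Real.cos_pi_sub, neg_neg, h3]
  have h5 := Real.one_sub_sq_div_two_le_cos (x := π * (1 - |r|))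
  have h6 : 1 - |r| ≤ |r - s| := by
    have := abs_sub_abs_le_abs_sub s r
    rw [hs, abs_sub_comm] at this
    exact this
  have h7 : 0 ≤ 1 - |r| := by linarith
  have h8 : 1 - |r| ≤ 1 := by linarith [abs_nonneg r]
  have h9 : (π * (1 - |r|)) ^ 2 / 2 ≤ π ^ 2 * (1 - |r|) := by
    have h10 : (1 - |r|) ^ 2 ≤ 1 - |r| := by nlinarith
    have h11 : 0 < π ^ 2 := by positivity
    nlinarith
  have h12 : π ^ 2 * (1 - |r|) ≤ π ^ 2 * |r - s| := mul_le_mul_of_nonneg_left h6 (by positivity)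
  linarith

private theorem Th_mem {K ε : ℝ} (hK : 0 < K) (hε : 0 < ε) {m : (ℂ → ℝ) → ℂ → ℝ} (h : MP K ε m) {d : ℕ}
    {c : Fin d → Fin d → ℝ} (h0 : c ≠ 0) {B : ℝ} (hB : (π ^ 2 * K ^ 2 / 2 + π ^ 2 * K) * (12 * d) ≤ B) :
    Th h c ∈ sub HQ ε (fun _ => 1) B := by
  obtain ⟨h1, h2, h3, -, -, h6⟩ := h (sg c) (measurable_sgn c) (sg_le c)
  obtain ⟨h7, h8⟩ := h6 (12 * d) (fun t _ => sgn_shift h0 t)
  have hv : ContDiff ℝ ∞ (fun z => π * m (sg c) z) := contDiff_const.mul h1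
  have hg : MemLp (gr (fun z => π * m (sg c) z)) 2 mQ := by
    refine MemLp.of_bound (gr_cont hv).aestronglyMeasurable (π * (K / ε)) (Eventually.of_forall fun z => ?_)
    rw [gr_mul h1]
    exact mul_le_mul_of_nonneg_left (h3 z) Real.pi_pos.le
  refine ⟨WithLp.toLp 2 (Th h c, hg.toLp _), ?_, rfl, ?_⟩
  · refine Submodule.le_topologicalClosure _ (Submodule.subset_span ?_)
    exact ⟨fun z => π * m (sg c) z, hv.of_le (by exact_mod_cast le_top), (memv h c).coeFn_toLp, hg.coeFn_toLp⟩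
  · refine le_trans ?_ hB
    unfold en
    have n1 : ‖(hg.toLp _ : Lp ℂ 2 mQ)‖ ^ 2 ≤ π ^ 2 * (K / ε) * (K * (12 * d)) := by
      have e1 : ‖(hg.toLp _ : Lp ℂ 2 mQ)‖ ^ 2 = ∫ z, ‖gr (fun z => π * m (sg c) z) z‖ ^ 2 ∂mQ := by
        rw [← real_inner_self_eq_norm_sq, L2.inner_def]
        refine integral_congr_ae ?_
        filter_upwards [hg.coeFn_toLp] with z hz
        rw [hz, real_inner_self_eq_norm_sq]
      rw [e1]
      have ig : Integrable (fun z => ‖gr (m (sg c)) z‖) mQ := by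
        refine Integrable.of_bound (gr_cont h1).norm.aestronglyMeasurable (K / ε) (Eventually.of_forall fun z => ?_)
        rw [norm_norm]
        exact h3 z
      calc ∫ z, ‖gr (fun z => π * m (sg c) z) z‖ ^ 2 ∂mQ
          ≤ ∫ z, π ^ 2 * (K / ε) * ‖gr (m (sg c)) z‖ ∂mQ := by
            refine integral_mono_of_nonneg (Eventually.of_forall fun z => by positivity) (ig.const_mul _)
              (Eventually.of_forall fun z => ?_)
            show ‖gr (fun z => π * m (sg c) z) z‖ ^ 2 ≤ π ^ 2 * (K / ε) * ‖gr (m (sg c)) z‖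
            rw [gr_mul h1, mul_pow, sq ‖gr (m (sg c)) z‖, mul_assoc (π ^ 2)]
            have := h3 z
            gcongr
        _ = π ^ 2 * (K / ε) * ∫ z in Qs, ‖gr (m (sg c)) z‖ := by
            rw [integral_const_mul]
            rfl
        _ ≤ π ^ 2 * (K / ε) * (K * (12 * d)) := by gcongr
    have n2 : ∫ z, (1 : ℝ) * Wt ((Th h c : Lp ℝ 2 mQ) z) ∂mQ ≤ π ^ 2 * (K * (12 * d) * ε) := by
      have ig : Integrable (fun z => |m (sg c) z - sg c z|) mQ := by
        refine Integrable.of_bound ?_ 2 (Eventually.of_forall fun z => ?_)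
        · exact (h1.continuous.measurable.sub (measurable_sgn c)).abs.aestronglyMeasurable
        · rw [Real.norm_eq_abs, abs_abs]
          have q1 := h2 z
          have q2 := sg_le c z
          exact (abs_sub _ _).trans (by linarith)
      calc ∫ z, (1 : ℝ) * Wt ((Th h c : Lp ℝ 2 mQ) z) ∂mQ ≤ ∫ z, π ^ 2 * |m (sg c) z - sg c z| ∂mQ := by
            refine integral_mono_of_nonneg (Eventually.of_forall fun z => ?_) (ig.const_mul _) ?_
            · show 0 ≤ (1 : ℝ) * Wt ((Th h c : Lp ℝ 2 mQ) z)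
              rw [one_mul]
              exact Wt_nonneg _
            · have ha : ∀ᵐ z ∂mQ, pol c z ≠ 0 := ae_restrict_of_ae (sgn_ae h0)
              filter_upwards [(memv h c).coeFn_toLp, ha] with z q1 q2
              show (1 : ℝ) * Wt ((Th h c : Lp ℝ 2 mQ) z) ≤ π ^ 2 * |m (sg c) z - sg c z|
              unfold Th
              rw [one_mul, q1]
              exact wt_le (h2 z) (sg_one q2)
        _ = π ^ 2 * ∫ z in Qs, |m (sg c) z - sg c z| := by
            rw [integral_const_mul]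
            rfl
        _ ≤ π ^ 2 * (K * (12 * d) * ε) := by gcongr
    have n3 : ε / 2 * ‖(hg.toLp _ : Lp ℂ 2 mQ)‖ ^ 2 ≤ π ^ 2 * K ^ 2 / 2 * (12 * d) := by
      calc ε / 2 * ‖(hg.toLp _ : Lp ℂ 2 mQ)‖ ^ 2 ≤ ε / 2 * (π ^ 2 * (K / ε) * (K * (12 * d))) := by gcongr
        _ = π ^ 2 * K ^ 2 / 2 * (12 * d) := by
            field_simp
    have n4 : 1 / ε * ∫ z, (1 : ℝ) * Wt ((Th h c : Lp ℝ 2 mQ) z) ∂mQ ≤ π ^ 2 * K * (12 * d) := by
      calc 1 / ε * ∫ z, (1 : ℝ) * Wt ((Th h c : Lp ℝ 2 mQ) z) ∂mQ ≤ 1 / ε * (π ^ 2 * (K * (12 * d) * ε)) := by gcongr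
        _ = π ^ 2 * K * (12 * d) := by
            field_simp
    calc _ ≤ π ^ 2 * K ^ 2 / 2 * (12 * d) + π ^ 2 * K * (12 * d) := add_le_add n3 n4
      _ = _ := by ring

/-- coefficients from a vector -/
private noncomputable def io {p d : ℕ} (e : Fin (p + 1) ↪ Fin d × Fin d) (ξ : EuclideanSpace ℝ (Fin (p + 1)))
    (a b : Fin d) : ℝ := ∑ j, if e j = (a, b) then ξ j else 0

private theorem io_cont {p d : ℕ} (e : Fin (p + 1) ↪ Fin d × Fin d) : Continuous (io e) := by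
  refine continuous_pi fun a => continuous_pi fun b => ?_
  unfold io
  refine continuous_finsetSum _ fun j _ => ?_
  split_ifs
  · exact (EuclideanSpace.proj (𝕜 := ℝ) j).continuous
  · exact continuous_const

private theorem io_neg {p d : ℕ} (e : Fin (p + 1) ↪ Fin d × Fin d) (ξ : EuclideanSpace ℝ (Fin (p + 1))) :
    io e (-ξ) = -io e ξ := by
  funext a b
  unfold io
  rw [Pi.neg_apply, Pi.neg_apply, ← Finset.sum_neg_distrib]
  refine Finset.sum_congr rfl fun j _ => ?_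
  split_ifs
  · rfl
  · rw [neg_zero]

private theorem io_ne {p d : ℕ} (e : Fin (p + 1) ↪ Fin d × Fin d) {ξ : EuclideanSpace ℝ (Fin (p + 1))}
    (hξ : ξ ≠ 0) : io e ξ ≠ 0 := by
  intro h
  apply hξ
  ext j
  have h1 : io e ξ (e j).1 (e j).2 = 0 := by
    rw [h]
    rfl
  unfold io at h1
  rw [Finset.sum_eq_single j] at h1
  · simpa using h1
  · intro i _ hij
    rw [if_neg]
    exact fun h2 => hij (e.injective h2)
  · intro h2
    exact absurd (Finset.mem_univ j) h2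

theorem not_genus_sub (hB : BUprop) : ∃ K > 0, ∀ p : ℕ, 1 ≤ p → ∀ ε ∈ Ioc (0 : ℝ) 1,
    ¬ GenusLE (sub HQ ε (fun _ => 1) (K * √p)) p := by
  obtain ⟨K, moll, hK, hmoll⟩ := exists_moll
  have hpi := Real.pi_pos
  refine ⟨(π ^ 2 * K ^ 2 / 2 + π ^ 2 * K) * 36, by positivity, ?_⟩
  intro p hp ε hε hG
  have h : MP K ε (moll ε) := hmoll ε hε
  set d := ⌈√((p : ℝ) + 1)⌉₊ with hd
  have hd1 : √((p : ℝ) + 1) ≤ d := Nat.le_ceil _
  have hd2 : (d : ℝ) < √((p : ℝ) + 1) + 1 := Nat.ceil_lt_add_one (Real.sqrt_nonneg _)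
  have hp1 : (1 : ℝ) ≤ p := by exact_mod_cast hp
  have hsp : 1 ≤ √(p : ℝ) := by
    rw [Real.one_le_sqrt]
    exact hp1
  have hd3 : (d : ℝ) ≤ 3 * √p := by
    have h1 : √((p : ℝ) + 1) ≤ 2 * √p := by
      rw [Real.sqrt_le_left (by positivity), mul_pow, Real.sq_sqrt (by positivity)]
      linarith
    linarith
  have hcard : Fintype.card (Fin (p + 1)) ≤ Fintype.card (Fin d × Fin d) := by
    rw [Fintype.card_fin, Fintype.card_prod, Fintype.card_fin]
    have h1 : ((p : ℝ) + 1) ≤ d * d := by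
      have h2 := Real.mul_self_sqrt (by positivity : (0 : ℝ) ≤ (p : ℝ) + 1)
      have h3 := Real.sqrt_nonneg ((p : ℝ) + 1)
      nlinarith
    exact_mod_cast h1
  obtain ⟨e⟩ := Function.Embedding.nonempty_of_card_le hcard
  apply hB p
  have hne : ∀ ξ ∈ sphere (0 : EuclideanSpace ℝ (Fin (p + 1))) 1, io e ξ ≠ 0 := fun ξ hξ => io_ne e
    (ne_zero_of_mem_sphere one_ne_zero ⟨ξ, hξ⟩)
  refine genus_pull (g := fun ξ => Th h (io e ξ)) ?_ ?_ ?_ hG
  · intro ξ hξ
    show Tendsto (fun ξ => Th h (io e ξ)) (𝓝[sphere (0 : EuclideanSpace ℝ (Fin (p + 1))) 1] ξ) (𝓝 (Th h (io e ξ)))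
    refine tendsto_of_seq_tendsto fun x hx => ?_
    have hx' : Tendsto x atTop (𝓝 ξ) := hx.mono_right nhdsWithin_le_nhds
    exact Th_tendsto hK hε.1 h (((io_cont e).tendsto ξ).comp hx') (hne ξ hξ)
  · intro ξ _
    show Th h (io e (-ξ)) = -Th h (io e ξ)
    rw [io_neg, Th_neg]
  · intro ξ hξ
    refine Th_mem hK hε.1 h (hne ξ hξ) ?_
    have hC : 0 < π ^ 2 * K ^ 2 / 2 + π ^ 2 * K := by positivity
    calc (π ^ 2 * K ^ 2 / 2 + π ^ 2 * K) * (12 * d) ≤ (π ^ 2 * K ^ 2 / 2 + π ^ 2 * K) * (12 * (3 * √p)) := by gcongr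
      _ = (π ^ 2 * K ^ 2 / 2 + π ^ 2 * K) * 36 * √p := by ring

theorem large_HQ (hB : BUprop) : ∀ ε > 0, ∀ w : ℂ → ℝ, IsWeight w → ∀ p, ∃ c, ¬ GenusLE (sub HQ ε w c) p := by
  intro ε hε w hw p
  obtain ⟨K, -, h⟩ := not_genus_sub hB
  have hw1 : IsWeight (fun _ : ℂ => (1 : ℝ)) := ⟨measurable_const, 1, 1, one_pos, fun _ => ⟨le_rfl, le_rfl⟩⟩
  rcases Nat.eq_zero_or_pos p with h0 | h0
  · obtain ⟨c, hc⟩ := large_of (ε' := ε) (w₁ := w) one_pos hε hw1 hw ⟨_, h 1 le_rfl 1 ⟨one_pos, le_rfl⟩⟩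
    exact ⟨c, fun h1 => hc (genus_le_of_le (by omega) h1)⟩
  · exact large_of one_pos hε hw1 hw ⟨_, h p h0 1 ⟨one_pos, le_rfl⟩⟩

end Pool.Agent.Helper53.CL.K
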