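import Pool.Agent.Helper53.CL.H.H02

/-!
# CL-K09: the pieces of the surface (about 150 lines)

`D i` is the open set of the points of the preimage of the open unit disc of the chart `i` which are not in the preimage of the
closed unit disc of a chart `j < i`.
`isOpen_D`: `source ∩ φ i ⁻¹' ball 0 1` is open; `source ∩ φ j ⁻¹' closedBall 0 1 = (φ j).symm '' closedBall 0 1` is compact,
so closed (`T2Space`).
`idx_D`: `idx` is the first index with `φ i x ∈ ball 0 1`.  `D_disjoint`.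
`D_null`: if `x ∉ ⋃ D i` and `i = idx x` then for some `j < i` `x ∈ source j`, `φ j x ∈ closedBall 0 1`, not in `ball 0 1` since
`idx x = i`; so `‖φ j x‖ = 1`.  The set of these points has area `∫⁻ z in sphere 0 1, ρ j z = 0`.
`G i = φ i '' D i` is open in `ball 0 1` and its boundary is a null set: a boundary point `z ∈ closedBall 0 1` of `G i` has
`‖z‖ = 1` or `‖φ j ((φ i).symm z)‖ = 1` for some `j < i` (the images of null sets under the smooth transition maps are null, or use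
`area_map` and the positivity of `ρ i`).
`area_D`: `∫ over D i of w dA = ∫ z in G i, C.a w i z` and the sum over `i` is `∫ w dA`.
-/

namespace Pool.Agent.Helper53.CL.K

open MeasureTheory Filter Topology Set Metric Pool.Agent.Helper53.CL.H
open scoped ContDiff Real ENNReal

variable {S : Type*} [TopologicalSpace S] [MeasurableSpace S]

/-- The open pieces of the surface. -/
def Dp (C : CSurf S) (i : Fin C.n) : Set S :=
  {x | (x ∈ (C.φ i).source ∧ C.φ i x ∈ ball (0 : ℂ) 1) ∧
    ∀ j < i, ¬ (x ∈ (C.φ j).source ∧ C.φ j x ∈ closedBall (0 : ℂ) 1)}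

/-- The pieces in the charts. -/
def Gp (C : CSurf S) (i : Fin C.n) : Set ℂ := C.φ i '' Dp C i

private theorem k09_spec (C : CSurf S) (x : S) :
    x ∈ (C.φ (C.idx x)).source ∧ C.φ (C.idx x) x ∈ ball (0 : ℂ) 1 := by
  classical
  have h := Finset.min'_mem (Finset.univ.filter fun i =>
    x ∈ (C.φ i).source ∧ C.φ i x ∈ ball (0 : ℂ) 1)
    (let ⟨i, hi⟩ := C.cover x; ⟨i, Finset.mem_filter.2 ⟨Finset.mem_univ i, hi⟩⟩)
  have h2 := (Finset.mem_filter.1 h).2
  convert h2 using 2 <;> unfold CSurf.idx <;> congr!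

private theorem k09_le (C : CSurf S) {x : S} {j : Fin C.n}
    (hj : x ∈ (C.φ j).source ∧ C.φ j x ∈ ball (0 : ℂ) 1) : C.idx x ≤ j := by
  classical
  unfold CSurf.idx
  refine Finset.min'_le _ _ ?_
  rw [Finset.mem_filter]
  exact ⟨Finset.mem_univ j, hj⟩

/-- The preimage of the circle of radius `1`. -/
private def Np (C : CSurf S) (j : Fin C.n) : Set S := (C.φ j).symm '' sphere (0 : ℂ) 1

/-- The preimage of the closed disc of radius `1`. -/
private def Bp (C : CSurf S) (j : Fin C.n) : Set S := (C.φ j).symm '' closedBall (0 : ℂ) 1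

private theorem k09_tgt (C : CSurf S) (j : Fin C.n) {z : ℂ} (hz : z ∈ closedBall (0 : ℂ) 1) :
    z ∈ (C.φ j).target := by
  rw [C.target j]
  exact closedBall_subset_ball (by norm_num) hz

private theorem mem_Bp (C : CSurf S) (j : Fin C.n) (x : S) :
    x ∈ Bp C j ↔ x ∈ (C.φ j).source ∧ C.φ j x ∈ closedBall (0 : ℂ) 1 := by
  constructor
  · rintro ⟨z, hz, rfl⟩
    have h1 := k09_tgt C j hz
    exact ⟨(C.φ j).map_target h1, by rw [(C.φ j).right_inv h1]; exact hz⟩
  · rintro ⟨h1, h2⟩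
    exact ⟨C.φ j x, h2, (C.φ j).left_inv h1⟩

private theorem mem_Np (C : CSurf S) (j : Fin C.n) (x : S) :
    x ∈ Np C j ↔ x ∈ (C.φ j).source ∧ C.φ j x ∈ sphere (0 : ℂ) 1 := by
  constructor
  · rintro ⟨z, hz, rfl⟩
    have h1 := k09_tgt C j (sphere_subset_closedBall hz)
    exact ⟨(C.φ j).map_target h1, by rw [(C.φ j).right_inv h1]; exact hz⟩
  · rintro ⟨h1, h2⟩
    exact ⟨C.φ j x, h2, (C.φ j).left_inv h1⟩

variable [T2Space S]

private theorem isClosed_Bp (C : CSurf S) (j : Fin C.n) : IsClosed (Bp C j) := by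
  refine ((isCompact_closedBall (0 : ℂ) 1).image_of_continuousOn ?_).isClosed
  exact (C.φ j).continuousOn_symm.mono fun z hz => k09_tgt C j hz

private theorem isClosed_Np (C : CSurf S) (j : Fin C.n) : IsClosed (Np C j) := by
  refine ((isCompact_sphere (0 : ℂ) 1).image_of_continuousOn ?_).isClosed
  exact (C.φ j).continuousOn_symm.mono fun z hz => k09_tgt C j (sphere_subset_closedBall hz)

theorem isOpen_Dp (C : CSurf S) (i : Fin C.n) : IsOpen (Dp C i) := by
  have h : Dp C i = ((C.φ i).source ∩ C.φ i ⁻¹' ball (0 : ℂ) 1) ∩ ⋂ j, ⋂ (_ : j < i), (Bp C j)ᶜ := by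
    ext x
    simp only [Dp, mem_ofPred_eq, mem_inter_iff, mem_preimage, mem_iInter, mem_compl_iff, mem_Bp]
  rw [h]
  refine ((C.φ i).isOpen_inter_preimage isOpen_ball).inter ?_
  exact isOpen_iInter_of_finite fun j => isOpen_iInter_of_finite fun _ => (isClosed_Bp C j).isOpen_compl

theorem idx_Dp (C : CSurf S) {i : Fin C.n} {x : S} (hx : x ∈ Dp C i) : C.idx x = i := by
  refine le_antisymm (k09_le C hx.1) ?_
  by_contra h
  have h1 := k09_spec C x
  exact hx.2 _ (not_le.1 h) ⟨h1.1, ball_subset_closedBall h1.2⟩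

theorem isOpen_Gp (C : CSurf S) (i : Fin C.n) : IsOpen (Gp C i) :=
  (C.φ i).isOpen_image_of_subset_source (isOpen_Dp C i) fun _ hx => hx.1.1

theorem Gp_subset (C : CSurf S) (i : Fin C.n) : Gp C i ⊆ ball 0 1 := by
  rintro _ ⟨x, hx, rfl⟩
  exact hx.1.2

theorem mem_Gp (C : CSurf S) (i : Fin C.n) {z : ℂ} (hz : z ∈ ball (0 : ℂ) 3) :
    z ∈ Gp C i ↔ (C.φ i).symm z ∈ Dp C i := by
  rw [← C.target i] at hz
  constructor
  · rintro ⟨x, hx, rfl⟩
    rw [(C.φ i).left_inv hx.1.1]
    exact hx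
  · intro h
    exact ⟨_, h, (C.φ i).right_inv hz⟩

variable [BorelSpace S]

private theorem area_Np (C : CSurf S) (j : Fin C.n) : C.area (Np C j) = 0 := by
  rw [C.area_eq j _ (isClosed_Np C j).measurableSet fun x hx => ((mem_Np C j x).1 hx).1]
  have h1 : C.φ j '' (Np C j) ⊆ sphere (0 : ℂ) 1 := by
    rintro _ ⟨x, hx, rfl⟩
    exact ((mem_Np C j x).1 hx).2
  refine setLIntegral_measure_zero _ _ (measure_mono_null h1 ?_)
  exact Measure.addHaar_sphere _ _ _

theorem Dp_null (C : CSurf S) : C.area (⋃ i, Dp C i)ᶜ = 0 := by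
  refine measure_mono_null (t := ⋃ j, Np C j) ?_ (measure_iUnion_null fun j => area_Np C j)
  intro x hx
  have hs := k09_spec C x
  have h1 : x ∉ Dp C (C.idx x) := fun h => hx (mem_iUnion.2 ⟨_, h⟩)
  have h2 : ∃ j < C.idx x, x ∈ (C.φ j).source ∧ C.φ j x ∈ closedBall (0 : ℂ) 1 := by
    by_contra h
    push Not at h
    exact h1 ⟨hs, fun j hj hj' => h j hj hj'.1 hj'.2⟩
  obtain ⟨j, hj, hj1, hj2⟩ := h2
  refine mem_iUnion.2 ⟨j, (mem_Np C j x).2 ⟨hj1, ?_⟩⟩
  have h3 : C.φ j x ∉ ball (0 : ℂ) 1 := fun h => absurd (k09_le C ⟨hj1, h⟩) (not_le.2 hj)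
  rw [mem_sphere]
  exact le_antisymm (mem_closedBall.1 hj2) (not_lt.1 fun h => h3 (mem_ball.2 h))

/-- The part of the disc of the chart `i` where the chart `j` has norm `1` is a null set. -/
private theorem k09_null (C : CSurf S) (i j : Fin C.n) :
    volume ((C.φ i).target ∩ (C.φ i).symm ⁻¹' Np C j) = 0 := by
  have hm : MeasurableSet ((C.φ i).target ∩ (C.φ i).symm ⁻¹' Np C j) := by
    have h1 : (C.φ i).target ∩ (C.φ i).symm ⁻¹' Np C j =
        (C.φ i).target \ ((C.φ i).symm.source ∩ (C.φ i).symm ⁻¹' (Np C j)ᶜ) := by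
      ext z
      simp only [mem_inter_iff, mem_preimage, Set.mem_sdiff, mem_compl_iff, OpenPartialHomeomorph.symm_source]
      tauto
    rw [h1]
    exact (C.φ i).open_target.measurableSet.diff
      ((C.φ i).symm.isOpen_inter_preimage (isClosed_Np C j).isOpen_compl).measurableSet
  have hsrc : MeasurableSet (C.φ i).source := (C.φ i).open_source.measurableSet
  have h1 : ((C.area.restrict (C.φ i).source).map (C.φ i)) ((C.φ i).target ∩ (C.φ i).symm ⁻¹' Np C j) =
      ((volume.restrict (ball 0 3)).withDensity (fun z => ENNReal.ofReal (C.ρ i z)))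
        ((C.φ i).target ∩ (C.φ i).symm ⁻¹' Np C j) := by
    rw [area_map C i]
  rw [Measure.map_apply_of_aemeasurable ((C.φ i).continuousOn.aemeasurable hsrc) hm] at h1
  have h2 : (C.area.restrict (C.φ i).source) (C.φ i ⁻¹' ((C.φ i).target ∩ (C.φ i).symm ⁻¹' Np C j)) = 0 := by
    rw [Measure.restrict_apply' hsrc]
    refine measure_mono_null ?_ (area_Np C j)
    rintro x ⟨⟨_, hx2⟩, hx3⟩
    rw [mem_preimage, (C.φ i).left_inv hx3] at hx2
    exact hx2
  rw [h2] at h1
  have hρ : AEMeasurable (fun z => ENNReal.ofReal (C.ρ i z)) (volume.restrict (ball (0 : ℂ) 3)) :=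
    ((C.ρ_smooth i).continuousOn.aemeasurable measurableSet_ball).ennreal_ofReal
  have h3 := (withDensity_apply_eq_zero' hρ).1 h1.symm
  rw [Measure.restrict_apply' measurableSet_ball] at h3
  refine measure_mono_null ?_ h3
  intro z hz
  have hz3 : z ∈ ball (0 : ℂ) 3 := by
    rw [← C.target i]
    exact hz.1
  refine ⟨⟨?_, hz⟩, hz3⟩
  have := C.ρ_pos i z hz3
  simpa using this

theorem frontier_Gp (C : CSurf S) (i : Fin C.n) : volume (frontier (Gp C i)) = 0 := by
  refine measure_mono_null (t := sphere (0 : ℂ) 1 ∪ ⋃ j, ((C.φ i).target ∩ (C.φ i).symm ⁻¹' Np C j)) ?_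
    (measure_union_null (Measure.addHaar_sphere _ _ _) (measure_iUnion_null fun j => k09_null C i j))
  intro z hz
  rw [(isOpen_Gp C i).frontier_eq] at hz
  have hz1 : z ∈ closedBall (0 : ℂ) 1 :=
    closure_minimal ((Gp_subset C i).trans ball_subset_closedBall) isClosed_closedBall hz.1
  have hzt := k09_tgt C i hz1
  have hz3 : z ∈ ball (0 : ℂ) 3 := closedBall_subset_ball (by norm_num) hz1
  by_cases hzb : z ∈ ball (0 : ℂ) 1
  · right
    have h1 : (C.φ i).symm z ∉ Dp C i := fun h => hz.2 ((mem_Gp C i hz3).2 h)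
    have h2 : ∃ j < i, (C.φ i).symm z ∈ (C.φ j).source ∧ C.φ j ((C.φ i).symm z) ∈ closedBall (0 : ℂ) 1 := by
      by_contra h
      push Not at h
      exact h1 ⟨⟨(C.φ i).map_target hzt, by rw [(C.φ i).right_inv hzt]; exact hzb⟩,
        fun j hj hj' => h j hj hj'.1 hj'.2⟩
    obtain ⟨j, hj, hj1, hj2⟩ := h2
    refine mem_iUnion.2 ⟨j, hzt, (mem_Np C j _).2 ⟨hj1, ?_⟩⟩
    rw [mem_sphere]
    refine le_antisymm (mem_closedBall.1 hj2) (not_lt.1 fun hlt => ?_)
    -- a neighbourhood of `z` does not meet the piece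
    have hV : IsOpen ((C.φ j).source ∩ C.φ j ⁻¹' ball (0 : ℂ) 1) :=
      (C.φ j).isOpen_inter_preimage isOpen_ball
    have hU : IsOpen ((C.φ i).symm.source ∩ (C.φ i).symm ⁻¹' ((C.φ j).source ∩ C.φ j ⁻¹' ball (0 : ℂ) 1)) :=
      (C.φ i).symm.isOpen_inter_preimage hV
    have hzU : z ∈ (C.φ i).symm.source ∩ (C.φ i).symm ⁻¹' ((C.φ j).source ∩ C.φ j ⁻¹' ball (0 : ℂ) 1) :=
      ⟨hzt, hj1, mem_ball.2 hlt⟩
    obtain ⟨y, hyU, hyG⟩ := mem_closure_iff.1 hz.1 _ hU hzU
    have hy3 : y ∈ ball (0 : ℂ) 3 := by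
      rw [← C.target i]
      exact hyU.1
    have hyD := (mem_Gp C i hy3).1 hyG
    exact hyD.2 j hj ⟨hyU.2.1, ball_subset_closedBall hyU.2.2⟩
  · left
    rw [mem_sphere]
    exact le_antisymm (mem_closedBall.1 hz1) (not_lt.1 fun h => hzb (mem_ball.2 h))

theorem integral_Dp (C : CSurf S) {w : S → ℝ} (hw : Integrable w C.area) :
    ∫ x, w x ∂C.area = ∑ i, ∫ z in Gp C i, C.a w i z := by
  have hD : ∀ i, MeasurableSet (Dp C i) := fun i => (isOpen_Dp C i).measurableSet
  have h0 : (⋃ i, Dp C i) =ᵐ[C.area] univ := by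
    rw [ae_eq_univ]
    exact Dp_null C
  have hdisj : Pairwise (Function.onFun Disjoint (Dp C)) := by
    intro i j hij
    rw [Function.onFun, Set.disjoint_left]
    intro x hx hx'
    exact hij ((idx_Dp C hx).symm.trans (idx_Dp C hx'))
  have h1 : ∫ x, w x ∂C.area = ∫ x in ⋃ i, Dp C i, w x ∂C.area := by
    rw [setIntegral_congr_set h0, setIntegral_univ]
  rw [h1, integral_iUnion_fintype hD hdisj fun i => hw.integrableOn]
  refine Finset.sum_congr rfl fun i _ => ?_
  have h2 : ∫ x in Dp C i, w x ∂C.area = ∫ x in (C.φ i).source, (Dp C i).indicator w x ∂C.area := by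
    rw [setIntegral_indicator (hD i)]
    congr 2
    exact (inter_eq_right.2 fun x hx => hx.1.1).symm
  rw [h2, integral_chart]
  have hG3 : Gp C i ⊆ ball (0 : ℂ) 3 := (Gp_subset C i).trans (ball_subset_ball (by norm_num))
  have h3 : ∫ z in Gp C i, C.a w i z = ∫ z in ball (0 : ℂ) 3, (Gp C i).indicator (C.a w i) z := by
    rw [setIntegral_indicator (isOpen_Gp C i).measurableSet, inter_eq_right.2 hG3]
  rw [h3]
  refine setIntegral_congr_fun measurableSet_ball fun z hz => ?_
  by_cases hzG : z ∈ Gp C i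
  · have h4 := (mem_Gp C i hz).1 hzG
    simp only [indicator_of_mem hzG, indicator_of_mem h4]
    rfl
  · have h4 : (C.φ i).symm z ∉ Dp C i := fun h => hzG ((mem_Gp C i hz).2 h)
    simp only [indicator_of_notMem hzG, indicator_of_notMem h4, smul_zero]

end Pool.Agent.Helper53.CL.K
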