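import Mathlib

/-!
# CL-K03: existence of the Weyl constant (real analysis, independent, about 200 lines)

Put `g p = limsup_{ε → 0+} f p ε / √p` for `p ≥ 1`: finite, `0 ≤ g p ≤ K`.  By `hs` (with `k ε` in place of the variable)
`f (k^2 q) ε / √(k^2 q) ≥ f q (k ε) / √q`, so `g (k^2 q) ≥ g q`.  Let `abar = sup_{p ≥ 1} g p ∈ [c, K]`, `abar ≥ g 1 ≥ c > 0`.
Upper part: `g q ≤ abar < abar + d`, so `f q ε < (abar + d) √q` for small `ε`, for every `q ≥ 1`.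
Lower part: choose `q₁` with `g q₁ > abar - d/2`.  For `q ≥ q₁` let `k = ⌊√(q/q₁)⌋ ≥ 1`; `f q ε ≥ f (k^2 q₁) ε`, so
`g q ≥ √(k^2 q₁ / q) g (k^2 q₁) ≥ √(k^2 q₁ / q) g q₁ → g q₁` (`k ≥ √(q/q₁) - 1`), so `g q > abar - d` for `q ≥ q₀`, and then
`f q ε > (abar - d) √q` for arbitrarily small `ε` (`frequently_lt_of_lt_limsup`).
-/

namespace Pool.Agent.Helper53.CL.K

open Filter Topology Set

theorem exists_abar {f : ℕ → ℝ → ℝ} {K c : ℝ} (hc : 0 < c)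
    (h0 : ∀ p, ∀ ε > 0, 0 ≤ f p ε) (hm : ∀ p q, p ≤ q → ∀ ε > 0, f p ε ≤ f q ε)
    (hK : ∀ p, 1 ≤ p → ∀ ε ∈ Ioc (0 : ℝ) 1, f p ε ≤ K * √p) (h1 : ∀ ε ∈ Ioc (0 : ℝ) 1, c ≤ f 1 ε)
    (hs : ∀ k q : ℕ, 1 ≤ k → ∀ ε > 0, k * f q (k * ε) ≤ f (k ^ 2 * q) ε) :
    ∃ abar : ℝ, 0 < abar ∧ ∀ d > 0, ∃ q₀ : ℕ, ∀ q ≥ q₀,
      (∃ ε₀ > 0, ∀ ε ∈ Ioo 0 ε₀, f q ε ≤ (abar + d) * √q) ∧
      ∀ ε₁ > 0, ∃ ε ∈ Ioo 0 ε₁, (abar - d) * √q ≤ f q ε := by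
  set A : Set ℝ := {x | ∀ p : ℕ, 1 ≤ p → ∃ ε₀ > 0, ∀ ε ∈ Ioo (0 : ℝ) ε₀, f p ε ≤ x * √p} with hA
  have hKA : K ∈ A := by
    intro p hp
    exact ⟨1, one_pos, fun ε hε => hK p hp ε ⟨hε.1, hε.2.le⟩⟩
  have hlow : ∀ x ∈ A, c ≤ x := by
    intro x hx
    obtain ⟨ε₀, hε₀, h⟩ := hx 1 le_rfl
    have h2 : min ε₀ 1 / 2 ∈ Ioo (0 : ℝ) ε₀ := by
      have h3 : 0 < min ε₀ 1 := lt_min hε₀ one_pos
      refine ⟨by positivity, ?_⟩
      have h4 : min ε₀ 1 ≤ ε₀ := min_le_left _ _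
      linarith
    have h5 : min ε₀ 1 / 2 ∈ Ioc (0 : ℝ) 1 := by
      refine ⟨h2.1, ?_⟩
      have h4 : min ε₀ 1 ≤ 1 := min_le_right _ _
      linarith
    have h6 := h _ h2
    have h7 := h1 _ h5
    simp only [Nat.cast_one, Real.sqrt_one, mul_one] at h6
    linarith
  have hbdd : BddBelow A := ⟨c, hlow⟩
  have hne : A.Nonempty := ⟨K, hKA⟩
  have hcle : c ≤ sInf A := le_csInf hne hlow
  have hpos : 0 < sInf A := lt_of_lt_of_le hc hcle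
  refine ⟨sInf A, hpos, fun d hd => ?_⟩
  obtain ⟨x, hxA, hxlt⟩ := exists_lt_of_csInf_lt hne (show sInf A < sInf A + d by linarith)
  have hnot : sInf A - d / 2 ∉ A := by
    intro h
    have := csInf_le hbdd h
    linarith
  have hnot' : ∃ q₁ : ℕ, 1 ≤ q₁ ∧ ∀ ε₀ > 0, ∃ ε ∈ Ioo (0 : ℝ) ε₀,
      (sInf A - d / 2) * √q₁ < f q₁ ε := by
    by_contra hcon
    apply hnot
    intro p hp
    by_contra hcon2
    apply hcon
    refine ⟨p, hp, fun ε₀ hε₀ => ?_⟩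
    by_contra hcon3
    apply hcon2
    refine ⟨ε₀, hε₀, fun ε hε => ?_⟩
    by_contra hcon4
    exact hcon3 ⟨ε, hε, not_le.1 hcon4⟩
  obtain ⟨q₁, hq₁, hfreq⟩ := hnot'
  set a := sInf A with ha
  refine ⟨max q₁ (⌈(2 * a * √q₁ / d) ^ 2⌉₊), fun q hq => ⟨?_, ?_⟩⟩
  · have hq1 : 1 ≤ q := hq₁.trans ((le_max_left _ _).trans hq)
    obtain ⟨ε₀, hε₀, h⟩ := hxA q hq1
    refine ⟨ε₀, hε₀, fun ε hε => (h ε hε).trans ?_⟩
    exact mul_le_mul_of_nonneg_right hxlt.le (Real.sqrt_nonneg _)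
  · intro ε₁ hε₁
    have hqq : q₁ ≤ q := (le_max_left _ _).trans hq
    have hq2 : (2 * a * √q₁ / d) ^ 2 ≤ (q : ℝ) := by
      refine (Nat.le_ceil _).trans ?_
      exact_mod_cast (le_max_right _ _).trans hq
    have hsq : 2 * a * √q₁ / d ≤ √q := Real.le_sqrt_of_sq_le hq2
    set k := Nat.sqrt (q / q₁) with hk
    have hk2 : k ^ 2 * q₁ ≤ q := by
      have h3 : k * k ≤ q / q₁ := Nat.sqrt_le (q / q₁)
      calc k ^ 2 * q₁ = (k * k) * q₁ := by ring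
        _ ≤ (q / q₁) * q₁ := Nat.mul_le_mul_right _ h3
        _ ≤ q := Nat.div_mul_le_self q q₁
    have hk1 : 1 ≤ k := by
      rw [hk, Nat.le_sqrt]
      exact (Nat.one_le_div_iff (by omega)).2 hqq
    have hk3 : q < (k + 1) ^ 2 * q₁ := by
      have h3 : q / q₁ < (k + 1) * (k + 1) := Nat.lt_succ_sqrt (q / q₁)
      rw [Nat.div_lt_iff_lt_mul (by omega)] at h3
      calc q < (k + 1) * (k + 1) * q₁ := h3
        _ = (k + 1) ^ 2 * q₁ := by ring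
    have hk4 : √q ≤ ((k : ℝ) + 1) * √q₁ := by
      have h3 : (q : ℝ) ≤ ((k : ℝ) + 1) ^ 2 * q₁ := by exact_mod_cast hk3.le
      calc √q ≤ √(((k : ℝ) + 1) ^ 2 * q₁) := Real.sqrt_le_sqrt h3
        _ = ((k : ℝ) + 1) * √q₁ := by
          rw [Real.sqrt_mul (by positivity), Real.sqrt_sq (by positivity)]
    have hkpos : (0 : ℝ) < k := by exact_mod_cast hk1
    obtain ⟨ε', hε', hlt⟩ := hfreq (k * ε₁) (by positivity)
    have hε'' : ε' / k ∈ Ioo (0 : ℝ) ε₁ := by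
      refine ⟨div_pos hε'.1 hkpos, ?_⟩
      rw [div_lt_iff₀ hkpos]
      linarith [hε'.2]
    refine ⟨ε' / k, hε'', ?_⟩
    have h5 : (k : ℝ) * f q₁ ε' ≤ f (k ^ 2 * q₁) (ε' / k) := by
      have h6 := hs k q₁ hk1 (ε' / k) hε''.1
      rwa [mul_div_cancel₀ _ hkpos.ne'] at h6
    have h6 : f (k ^ 2 * q₁) (ε' / k) ≤ f q (ε' / k) := hm _ _ hk2 _ hε''.1
    have h7 : (k : ℝ) * ((a - d / 2) * √q₁) ≤ f q (ε' / k) := by
      have := mul_le_mul_of_nonneg_left hlt.le hkpos.le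
      linarith
    have h8 : 0 ≤ f q (ε' / k) := h0 _ _ hε''.1
    have hsq0 : 0 ≤ √(q : ℝ) := Real.sqrt_nonneg _
    have hsq1 : 0 ≤ √(q₁ : ℝ) := Real.sqrt_nonneg _
    rcases le_total (a - d / 2) 0 with h9 | h9
    · have : (a - d) * √q ≤ 0 := mul_nonpos_of_nonpos_of_nonneg (by linarith) hsq0
      linarith
    · have h10 : 2 * a * √q₁ ≤ √q * d := by
        rwa [div_le_iff₀ hd] at hsq
      have h11 : (a - d / 2) * (√q - √q₁) ≤ (a - d / 2) * (k * √q₁) :=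
        mul_le_mul_of_nonneg_left (by linarith) h9
      have h12 : 0 ≤ d / 2 * √q₁ := by positivity
      nlinarith

end Pool.Agent.Helper53.CL.K
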