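import Pool.Agent.Helper53.CL.K.K00
import Pool.Agent.Helper53.CL.K.K01

/-!
# CL-K04: the first width of the square is bounded from below (about 250 lines)

`poincare`: for `g` of class `C^1` on `ℂ`: `∫∫ |g x - g y| ≤ ∫∫ (|∂₁ g|, |∂₂ g| along the two segments of the path
`(x₁, x₂) → (y₁, x₂) → (y₁, y₂)) ≤ 2 ∫_Q |gr g|`, so `∫_Q |g - mean| ≤ 2 ∫_Q ‖gr g‖`; in particular if
`∫_Q g = 0` then `∫_Q |g| ≤ 2 ∫_Q ‖gr g‖`; for general `U ∈ HQ`: `∫ |U.fst| ≤ 2 ∫ ‖U.snd‖ + |∫ U.fst|` is a closed condition,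
by density (both sides are continuous on `JetSp mQ`, `L^2 ⊆ L^1`).
`width_one`: `G s = 4 sin (s/2)` for `|s| ≤ π`, `4 sign s` otherwise: `C^1`, `|G'| ≤ 2`, `|G'(s)| ≤ √(2 Wt s)`, `|G| ≤ 4`,
`16 - G(s)^2 ≤ 8 Wt s`, odd.  `f u = ∫ G(u) dmQ` is continuous (`G` is `2`-Lipschitz) and odd.  Let `c = 1` say `≤ 16/(8+8)`...
precisely: if `en ε 1 U ≤ E` and `f (U.fst) = 0` then with `V = (G(U.fst), G'(U.fst) U.snd) ∈ HQ` (`CompStable`)
`∫ |V.fst| ≤ 2 ∫ ‖V.snd‖ ≤ 2 ∫ √(2 Wt) ‖U.snd‖ ≤ 2 ∫ ((ε/2) ‖U.snd‖^2 + (1/ε) Wt) = 2 E`, and `∫ V.fst^2 ≥ 16 - 8 ∫ Wt ≥ 16 - 8 ε E`,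
`V.fst^2 ≤ 4 |V.fst|`: `16 - 8 ε E ≤ 8 E`, so `E ≥ 1` as `ε ≤ 1`.  Hence for `E < 1` the function `f` has no zero on
`sub HQ ε 1 E`: `GenusLE (sub HQ ε 1 E) 1` and `E ≤ width` (`le_width`); let `E → 1`.
-/

namespace Pool.Agent.Helper53.CL.K

open MeasureTheory Filter Topology Set Pool.Agent.Helper53.CL.C

theorem k4_isCompact_Qs : IsCompact Qs := by
  have h : Qs = Icc (0 : ℝ) 1 ×ℂ Icc (0 : ℝ) 1 := by
    ext z
    simp only [Qs, mem_ofPred_eq, Complex.mem_reProdIm, mem_Icc, and_assoc]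
  rw [h]
  exact isCompact_Icc.reProdIm isCompact_Icc

/-- Integrals of continuous functions over the square. -/
theorem k4_int_Qs {F : ℂ → ℝ} (hF : Continuous F) :
    ∫ z, F z ∂mQ = ∫ x in Icc (0 : ℝ) 1, ∫ y in Icc (0 : ℝ) 1, F ⟨x, y⟩ := by
  have h1 : ∫ z in Qs, F z = ∫ p in (Icc (0 : ℝ) 1 ×ˢ Icc (0 : ℝ) 1 : Set (ℝ × ℝ)), F ⟨p.1, p.2⟩ := by
    have h2 := Complex.volume_preserving_equiv_real_prod.symm.setIntegral_preimage_emb
      Complex.measurableEquivRealProd.symm.measurableEmbedding F Qs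
    rw [← h2]
    have h3 : (Complex.measurableEquivRealProd.symm ⁻¹' Qs : Set (ℝ × ℝ)) = Icc (0 : ℝ) 1 ×ˢ Icc (0 : ℝ) 1 := by
      ext p
      show (0 ≤ p.1 ∧ p.1 ≤ 1 ∧ 0 ≤ p.2 ∧ p.2 ≤ 1) ↔ (p.1 ∈ Icc (0 : ℝ) 1 ∧ p.2 ∈ Icc (0 : ℝ) 1)
      simp only [mem_Icc, and_assoc]
    rw [h3]
    rfl
  have h4 : Continuous fun p : ℝ × ℝ => F ⟨p.1, p.2⟩ :=
    hF.comp (Complex.equivRealProdCLM.symm.continuous)
  have h5 : IntegrableOn (fun p : ℝ × ℝ => F ⟨p.1, p.2⟩) (Icc (0 : ℝ) 1 ×ˢ Icc (0 : ℝ) 1) (volume.prod volume) :=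
    h4.continuousOn.integrableOn_compact (isCompact_Icc.prod isCompact_Icc)
  show ∫ z in Qs, F z = _
  rw [h1, Measure.volume_eq_prod, setIntegral_prod _ h5]

theorem k4_int_Qs' {F : ℂ → ℝ} (hF : Continuous F) :
    ∫ z, F z ∂mQ = ∫ y in Icc (0 : ℝ) 1, ∫ x in Icc (0 : ℝ) 1, F ⟨x, y⟩ := by
  rw [k4_int_Qs hF]
  have h4 : Continuous (Function.uncurry fun x y : ℝ => F ⟨x, y⟩) :=
    hF.comp (Complex.equivRealProdCLM.symm.continuous)
  have h5 : Integrable (Function.uncurry fun x y : ℝ => F ⟨x, y⟩)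
      ((volume.restrict (Icc (0 : ℝ) 1)).prod (volume.restrict (Icc (0 : ℝ) 1))) := by
    rw [Measure.prod_restrict]
    exact h4.continuousOn.integrableOn_compact (isCompact_Icc.prod isCompact_Icc)
  exact integral_integral_swap h5

theorem k4_one {φ φ' : ℝ → ℝ} (h : ∀ t, HasDerivAt φ (φ' t) t) (hc : Continuous φ') {a b : ℝ}
    (ha : a ∈ Icc (0 : ℝ) 1) (hb : b ∈ Icc (0 : ℝ) 1) : |φ b - φ a| ≤ ∫ t in Icc (0 : ℝ) 1, |φ' t| := by
  rw [← intervalIntegral.integral_eq_sub_of_hasDerivAt (fun t _ => h t) (hc.intervalIntegrable a b)]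
  have h1 := intervalIntegral.norm_integral_le_integral_norm_uIoc (μ := volume) (f := φ') (a := a) (b := b)
  refine h1.trans ?_
  refine setIntegral_mono_set ?_ (Eventually.of_forall fun t => norm_nonneg _) ?_
  · exact hc.norm.continuousOn.integrableOn_compact isCompact_Icc
  · refine LE.le.eventuallyLE ?_
    refine uIoc_subset_uIcc.trans ?_
    exact uIcc_subset_Icc ha hb

theorem k4_poincare_C1 {g : ℂ → ℝ} (hg : ContDiff ℝ 1 g) :
    ∫ z, |g z| ∂mQ ≤ 2 * ∫ z, ‖gr g z‖ ∂mQ + |∫ z, g z ∂mQ| := by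
  have hd : Differentiable ℝ g := hg.differentiable (by norm_num)
  have hdc : Continuous (fderiv ℝ g) := hg.continuous_fderiv (by norm_num)
  have hdx : Continuous (dx g) := hdc.clm_apply continuous_const
  have hdy : Continuous (dy g) := hdc.clm_apply continuous_const
  have hfin : IsFiniteMeasure mQ := inferInstance
  have hvol1 : (volume.restrict (Icc (0 : ℝ) 1)) univ = 1 := by
    rw [Measure.restrict_apply_univ, Real.volume_Icc]
    norm_num
  have hreal1 : (volume.restrict (Icc (0 : ℝ) 1)).real univ = 1 := by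
    rw [measureReal_def, hvol1]
    simp
  have hmk : ∀ {F : ℂ → ℝ}, Continuous F → Continuous (Function.uncurry fun x y : ℝ => F ⟨x, y⟩) := fun hF =>
    hF.comp (Complex.equivRealProdCLM.symm.continuous)
  have hint : ∀ {F : ℂ → ℝ}, Continuous F → Integrable F mQ := fun hF =>
    hF.continuousOn.integrableOn_compact k4_isCompact_Qs
  -- the integrals along segments
  obtain ⟨I₁, hI₁⟩ : ∃ I : ℝ → ℝ, I = fun y => ∫ t in Icc (0 : ℝ) 1, |dx g ⟨t, y⟩| := ⟨_, rfl⟩
  obtain ⟨I₂, hI₂⟩ : ∃ I : ℝ → ℝ, I = fun x => ∫ t in Icc (0 : ℝ) 1, |dy g ⟨x, t⟩| := ⟨_, rfl⟩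
  have hI₁c : Continuous I₁ := by
    rw [hI₁]
    have h1 : Continuous (Function.uncurry fun y t : ℝ => |dx g ⟨t, y⟩|) := by
      have h2 := (hmk hdx).abs
      exact h2.comp continuous_swap
    exact continuous_parametric_integral_of_continuous h1 isCompact_Icc
  have hI₂c : Continuous I₂ := by
    rw [hI₂]
    exact continuous_parametric_integral_of_continuous (hmk hdy).abs isCompact_Icc
  have hdist : ∀ z ∈ Qs, ∀ w ∈ Qs, |g z - g w| ≤ I₁ z.im + I₂ w.re := by
    intro z hz w hw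
    have h1 : |g ⟨z.re, z.im⟩ - g ⟨w.re, z.im⟩| ≤ I₁ z.im := by
      rw [hI₁]
      refine k4_one (φ := fun t : ℝ => g ⟨t, z.im⟩) (φ' := fun t => dx g ⟨t, z.im⟩) (fun t => ?_) ?_
        ⟨hw.1, hw.2.1⟩ ⟨hz.1, hz.2.1⟩
      · have h2 : HasDerivAt (fun t : ℝ => (⟨t, z.im⟩ : ℂ)) 1 t := by
          have h3 : (fun t : ℝ => (⟨t, z.im⟩ : ℂ)) = fun t : ℝ => (t : ℂ) + (z.im : ℂ) * Complex.I := by
            funext t
            apply Complex.ext <;> simp
          rw [h3]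
          exact (Complex.ofRealCLM.hasDerivAt (x := t)).add_const _
        have h4 := (hd ⟨t, z.im⟩).hasFDerivAt.comp_hasDerivAt t h2
        exact h4
      · exact hdx.comp (by
          have : Continuous fun t : ℝ => Complex.equivRealProdCLM.symm (t, z.im) :=
            Complex.equivRealProdCLM.symm.continuous.comp (continuous_id.prodMk continuous_const)
          exact this)
    have h2 : |g ⟨w.re, z.im⟩ - g ⟨w.re, w.im⟩| ≤ I₂ w.re := by
      rw [hI₂]
      refine k4_one (φ := fun t : ℝ => g ⟨w.re, t⟩) (φ' := fun t => dy g ⟨w.re, t⟩) (fun t => ?_) ?_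
        ⟨hw.2.2.1, hw.2.2.2⟩ ⟨hz.2.2.1, hz.2.2.2⟩
      · have h2 : HasDerivAt (fun t : ℝ => (⟨w.re, t⟩ : ℂ)) Complex.I t := by
          have h3 : (fun t : ℝ => (⟨w.re, t⟩ : ℂ)) = fun t : ℝ => (w.re : ℂ) + (t : ℂ) * Complex.I := by
            funext t
            apply Complex.ext <;> simp
          rw [h3]
          have h5 := ((Complex.ofRealCLM.hasDerivAt (x := t)).mul_const Complex.I).const_add (w.re : ℂ)
          simpa using h5
        have h4 := (hd ⟨w.re, t⟩).hasFDerivAt.comp_hasDerivAt t h2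
        exact h4
      · exact hdy.comp (by
          have : Continuous fun t : ℝ => Complex.equivRealProdCLM.symm (w.re, t) :=
            Complex.equivRealProdCLM.symm.continuous.comp (continuous_const.prodMk continuous_id)
          exact this)
    calc |g z - g w| ≤ |g ⟨z.re, z.im⟩ - g ⟨w.re, z.im⟩| + |g ⟨w.re, z.im⟩ - g ⟨w.re, w.im⟩| := abs_sub_le _ _ _
      _ ≤ I₁ z.im + I₂ w.re := add_le_add h1 h2
  have hI₁i : Integrable (fun z : ℂ => I₁ z.im) mQ := hint (hI₁c.comp Complex.continuous_im)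
  have hI₂i : Integrable (fun z : ℂ => I₂ z.re) mQ := hint (hI₂c.comp Complex.continuous_re)
  have e1 : ∫ z, I₁ z.im ∂mQ = ∫ z, |dx g z| ∂mQ := by
    rw [k4_int_Qs' (F := fun z => I₁ z.im) (hI₁c.comp Complex.continuous_im), k4_int_Qs' hdx.abs, hI₁]
    simp only [integral_const, smul_eq_mul, hreal1, one_mul]
  have e2 : ∫ z, I₂ z.re ∂mQ = ∫ z, |dy g z| ∂mQ := by
    rw [k4_int_Qs (F := fun z => I₂ z.re) (hI₂c.comp Complex.continuous_re), k4_int_Qs hdy.abs, hI₂]
    simp only [integral_const, smul_eq_mul, hreal1, one_mul]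
  have hQ1 : mQ.real univ = 1 := by
    rw [measureReal_def, mQ_univ]
    simp
  set m : ℝ := ∫ z, g z ∂mQ with hm
  have hQae : ∀ᵐ z ∂mQ, z ∈ Qs := ae_restrict_mem k4_isCompact_Qs.measurableSet
  have hpt : ∀ z ∈ Qs, |g z - m| ≤ I₁ z.im + ∫ w, I₂ w.re ∂mQ := by
    intro z hz
    have h1 : g z - m = ∫ w, (g z - g w) ∂mQ := by
      rw [integral_sub (integrable_const _) (hint hg.continuous), integral_const, hQ1, one_smul]
    rw [h1]
    refine (abs_integral_le_integral_abs).trans ?_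
    have h2 : ∫ w, |g z - g w| ∂mQ ≤ ∫ w, (I₁ z.im + I₂ w.re) ∂mQ := by
      refine integral_mono_ae (hint (continuous_const.sub hg.continuous).abs) ((integrable_const _).add hI₂i) ?_
      filter_upwards [hQae] with w hw
      exact hdist z hz w hw
    rw [integral_add (integrable_const _) hI₂i, integral_const, hQ1, one_smul] at h2
    exact h2
  have h3 : ∫ z, |g z| ∂mQ ≤ ∫ z, (I₁ z.im + (∫ w, I₂ w.re ∂mQ + |m|)) ∂mQ := by
    refine integral_mono_ae (hint hg.continuous.abs) (hI₁i.add (integrable_const _)) ?_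
    filter_upwards [hQae] with z hz
    have h4 := hpt z hz
    have h5 : |g z| ≤ |g z - m| + |m| := by
      have := abs_add_le (g z - m) m
      rwa [sub_add_cancel] at this
    show |g z| ≤ I₁ z.im + (∫ w, I₂ w.re ∂mQ + |m|)
    linarith
  rw [integral_add hI₁i (integrable_const _), integral_const, hQ1, one_smul, e1, e2] at h3
  have hgrc : Continuous (gr g) := by
    have : gr g = fun z => Complex.equivRealProdCLM.symm (dx g z, dy g z) := rfl
    rw [this]
    exact Complex.equivRealProdCLM.symm.continuous.comp (hdx.prodMk hdy)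
  have h6 : ∫ z, |dx g z| ∂mQ ≤ ∫ z, ‖gr g z‖ ∂mQ :=
    integral_mono (hint hdx.abs) (hint hgrc.norm) fun z => Complex.abs_re_le_norm (gr g z)
  have h7 : ∫ z, |dy g z| ∂mQ ≤ ∫ z, ‖gr g z‖ ∂mQ :=
    integral_mono (hint hdy.abs) (hint hgrc.norm) fun z => Complex.abs_im_le_norm (gr g z)
  linarith

theorem k4_norm_le {E : Type*} [NormedAddCommGroup E] (u : Lp E 2 mQ) : ∫ x, ‖u x‖ ∂mQ ≤ ‖u‖ := by
  have hp : IsProbabilityMeasure mQ := ⟨mQ_univ⟩
  have h1 : ∫ x, ‖u x‖ ∂mQ = (eLpNorm u 1 mQ).toReal := by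
    rw [eLpNorm_one_eq_lintegral_enorm, integral_norm_eq_lintegral_enorm (Lp.aestronglyMeasurable u)]
  rw [h1, Lp.norm_def]
  refine ENNReal.toReal_mono (Lp.eLpNorm_ne_top u) ?_
  exact eLpNorm_le_eLpNorm_of_exponent_le (by norm_num) (Lp.aestronglyMeasurable u)

theorem k4_integrable {E : Type*} [NormedAddCommGroup E] (u : Lp E 2 mQ) : Integrable u mQ :=
  (Lp.memLp u).integrable (by norm_num)

theorem k4_dist_le {E : Type*} [NormedAddCommGroup E] (u v : Lp E 2 mQ) : ∫ x, ‖u x - v x‖ ∂mQ ≤ ‖u - v‖ := by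
  refine le_trans (le_of_eq ?_) (k4_norm_le (u - v))
  refine integral_congr_ae ?_
  filter_upwards [Lp.coeFn_sub u v] with x hx
  rw [hx]
  rfl

theorem k4_continuous_of_lip {X : Type*} [NormedAddCommGroup X] {f : X → ℝ} {K : ℝ} (hK : 0 ≤ K)
    (h : ∀ u v, |f u - f v| ≤ K * ‖u - v‖) : Continuous f := by
  have : LipschitzWith ⟨K, hK⟩ f := LipschitzWith.of_dist_le_mul fun u v => by
    rw [Real.dist_eq, dist_eq_norm]
    exact h u v
  exact this.continuous

theorem k4_cont_norm {E : Type*} [NormedAddCommGroup E] : Continuous fun u : Lp E 2 mQ => ∫ x, ‖u x‖ ∂mQ := by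
  refine k4_continuous_of_lip zero_le_one fun u v => ?_
  rw [one_mul, ← integral_sub (k4_integrable u).norm (k4_integrable v).norm]
  refine (abs_integral_le_integral_abs).trans (le_trans ?_ (k4_dist_le u v))
  refine integral_mono ((k4_integrable u).norm.sub (k4_integrable v).norm).abs
    ((k4_integrable u).sub (k4_integrable v)).norm fun x => ?_
  exact abs_norm_sub_norm_le _ _

theorem k4_cont_lip {G : ℝ → ℝ} {K : ℝ} (hK : 0 ≤ K) (hG : ∀ s t, |G s - G t| ≤ K * |s - t|) (hGc : Continuous G) :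
    (∀ u : Lp ℝ 2 mQ, Integrable (fun x => G (u x)) mQ) ∧ Continuous fun u : Lp ℝ 2 mQ => ∫ x, G (u x) ∂mQ := by
  have hi : ∀ u : Lp ℝ 2 mQ, Integrable (fun x => G (u x)) mQ := by
    intro u
    have h1 : Integrable (fun x => |G 0| + K * |u x|) mQ :=
      (integrable_const _).add ((k4_integrable u).norm.const_mul K)
    refine h1.mono' (hGc.comp_aestronglyMeasurable (Lp.aestronglyMeasurable u)) (Eventually.of_forall fun x => ?_)
    have h2 := hG (u x) 0
    rw [sub_zero] at h2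
    rw [Real.norm_eq_abs]
    calc |G (u x)| = |G 0 + (G (u x) - G 0)| := by rw [add_sub_cancel]
      _ ≤ |G 0| + |G (u x) - G 0| := abs_add_le _ _
      _ ≤ |G 0| + K * |u x| := by linarith
  refine ⟨hi, k4_continuous_of_lip hK fun u v => ?_⟩
  rw [← integral_sub (hi u) (hi v)]
  refine (abs_integral_le_integral_abs).trans ?_
  have h1 : ∫ x, |G (u x) - G (v x)| ∂mQ ≤ ∫ x, K * ‖u x - v x‖ ∂mQ :=
    integral_mono ((hi u).sub (hi v)).abs (((k4_integrable u).sub (k4_integrable v)).norm.const_mul K)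
      fun x => hG _ _
  refine h1.trans ?_
  rw [integral_const_mul]
  exact mul_le_mul_of_nonneg_left (k4_dist_le u v) hK

theorem k4_jet_exists {U : JetSp mQ} (hU : U ∈ Submodule.span ℝ {U : JetSp mQ | ∃ v : ℂ → ℝ, ContDiff ℝ 1 v ∧
    IsJet U v (gr v)}) : ∃ v : ℂ → ℝ, ContDiff ℝ 1 v ∧ IsJet U v (gr v) := by
  induction hU using Submodule.span_induction with
  | mem x h => exact h
  | zero =>
    refine ⟨fun _ => 0, contDiff_const, Lp.coeFn_zero _ _ _, ?_⟩
    have h1 : gr (fun _ : ℂ => (0 : ℝ)) = fun _ => 0 := by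
      funext z
      unfold gr dx dy
      simp
      rfl
    rw [h1]
    exact Lp.coeFn_zero _ _ _
  | add U V _ _ hU hV =>
    obtain ⟨u, hu, hU1, hU2⟩ := hU
    obtain ⟨v, hv, hV1, hV2⟩ := hV
    refine ⟨fun z => u z + v z, hu.add hv, ?_, ?_⟩
    · have h1 : (U + V).fst = U.fst + V.fst := rfl
      rw [h1]
      filter_upwards [Lp.coeFn_add U.fst V.fst, hU1, hV1] with z h2 h3 h4
      rw [h2, Pi.add_apply, h3, h4]
    · have h1 : (U + V).snd = U.snd + V.snd := rfl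
      rw [h1]
      filter_upwards [Lp.coeFn_add U.snd V.snd, hU2, hV2] with z h2 h3 h4
      rw [h2, Pi.add_apply, h3, h4]
      have hdu := (hu.differentiable (by norm_num)) z
      have hdv := (hv.differentiable (by norm_num)) z
      have h5 : fderiv ℝ (fun z => u z + v z) z = fderiv ℝ u z + fderiv ℝ v z := fderiv_add hdu hdv
      apply Complex.ext
      · show fderiv ℝ u z 1 + fderiv ℝ v z 1 = fderiv ℝ (fun z => u z + v z) z 1
        rw [h5]
        rfl
      · show fderiv ℝ u z Complex.I + fderiv ℝ v z Complex.I = fderiv ℝ (fun z => u z + v z) z Complex.I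
        rw [h5]
        rfl
  | smul c U _ hU =>
    obtain ⟨u, hu, hU1, hU2⟩ := hU
    refine ⟨fun z => c * u z, contDiff_const.mul hu, ?_, ?_⟩
    · have h1 : (c • U).fst = c • U.fst := rfl
      rw [h1]
      filter_upwards [Lp.coeFn_smul c U.fst, hU1] with z h2 h3
      rw [h2, Pi.smul_apply, h3, smul_eq_mul]
    · have h1 : (c • U).snd = c • U.snd := rfl
      rw [h1]
      filter_upwards [Lp.coeFn_smul c U.snd, hU2] with z h2 h3
      rw [h2, Pi.smul_apply, h3]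
      have hdu := (hu.differentiable (by norm_num)) z
      have h5 : fderiv ℝ (fun z => c * u z) z = c • fderiv ℝ u z := fderiv_const_mul hdu c
      apply Complex.ext
      · show (c • gr u z).re = fderiv ℝ (fun z => c * u z) z 1
        rw [h5, Complex.smul_re]
        rfl
      · show (c • gr u z).im = fderiv ℝ (fun z => c * u z) z Complex.I
        rw [h5, Complex.smul_im]
        rfl

theorem poincare {U : JetSp mQ} (hU : U ∈ HQ) :
    ∫ x, |U.fst x| ∂mQ ≤ 2 * ∫ x, ‖U.snd x‖ ∂mQ + |∫ x, U.fst x ∂mQ| := by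
  have h2 : Continuous fun U : JetSp mQ => U.fst := by fun_prop
  have h3 : Continuous fun U : JetSp mQ => U.snd := by fun_prop
  have c1 : Continuous fun U : JetSp mQ => ∫ x, |U.fst x| ∂mQ := k4_cont_norm.comp h2
  have c2 : Continuous fun U : JetSp mQ => ∫ x, ‖U.snd x‖ ∂mQ := k4_cont_norm.comp h3
  have c3 : Continuous fun U : JetSp mQ => ∫ x, U.fst x ∂mQ :=
    (k4_cont_lip (G := fun s => s) zero_le_one (fun s t => by rw [one_mul]) continuous_id).2.comp h2
  have hcl : IsClosed {U : JetSp mQ | ∫ x, |U.fst x| ∂mQ ≤ 2 * ∫ x, ‖U.snd x‖ ∂mQ + |∫ x, U.fst x ∂mQ|} :=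
    isClosed_le c1 ((continuous_const.mul c2).add c3.abs)
  have hsub : ((Submodule.span ℝ {U : JetSp mQ | ∃ v : ℂ → ℝ, ContDiff ℝ 1 v ∧ IsJet U v (gr v)} :
      Submodule ℝ (JetSp mQ)) : Set (JetSp mQ)) ⊆
      {U : JetSp mQ | ∫ x, |U.fst x| ∂mQ ≤ 2 * ∫ x, ‖U.snd x‖ ∂mQ + |∫ x, U.fst x ∂mQ|} := by
    intro V hV
    obtain ⟨v, hv, h4, h5⟩ := k4_jet_exists hV
    have e1 : ∫ x, |V.fst x| ∂mQ = ∫ x, |v x| ∂mQ := integral_congr_ae (h4.fun_comp abs)
    have e2 : ∫ x, ‖V.snd x‖ ∂mQ = ∫ x, ‖gr v x‖ ∂mQ := integral_congr_ae (h5.fun_comp norm)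
    have e3 : ∫ x, V.fst x ∂mQ = ∫ x, v x ∂mQ := integral_congr_ae h4
    show ∫ x, |V.fst x| ∂mQ ≤ 2 * ∫ x, ‖V.snd x‖ ∂mQ + |∫ x, V.fst x ∂mQ|
    rw [e1, e2, e3]
    exact k4_poincare_C1 hv
  exact closure_minimal hsub hcl hU

/-- The function `2 cos (s/2)` cut off at `π`. -/
noncomputable def k4_g (s : ℝ) : ℝ := if |s| ≤ Real.pi then 2 * Real.cos (s / 2) else 0

/-- The function `4 sin (s/2)` cut off at `π`. -/
noncomputable def k4_G (s : ℝ) : ℝ :=
  if s < -Real.pi then -4 else if s ≤ Real.pi then 4 * Real.sin (s / 2) else 4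

theorem k4_g_continuous : Continuous k4_g := by
  unfold k4_g
  refine Continuous.if_le (by fun_prop) continuous_const continuous_abs continuous_const ?_
  intro s hs
  rcases (abs_eq Real.pi_pos.le).1 hs with h | h
  · rw [h, Real.cos_pi_div_two, mul_zero]
  · rw [h, neg_div, Real.cos_neg, Real.cos_pi_div_two, mul_zero]

theorem k4_hasDerivAt_sin (s : ℝ) : HasDerivAt (fun s => 4 * Real.sin (s / 2)) (2 * Real.cos (s / 2)) s := by
  have h1 : HasDerivAt (fun s : ℝ => s / 2) (1 / 2) s := (hasDerivAt_id s).div_const 2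
  have h2 := ((Real.hasDerivAt_sin (s / 2)).comp s h1).const_mul 4
  refine h2.congr_deriv ?_
  ring

theorem k4_hasDerivAt_G₁ (s : ℝ) : HasDerivAt (fun s : ℝ => if s ≤ Real.pi then 4 * Real.sin (s / 2) else 4)
    (if s ≤ Real.pi then 2 * Real.cos (s / 2) else 0) s := by
  refine hasDerivAt_of_hasDerivAt_of_ne' (x := Real.pi)
    (f := fun s : ℝ => if s ≤ Real.pi then 4 * Real.sin (s / 2) else 4)
    (g := fun s : ℝ => if s ≤ Real.pi then 2 * Real.cos (s / 2) else 0) ?_ ?_ ?_ s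
  · intro y hy
    rcases lt_or_gt_of_ne hy with h | h
    · show HasDerivAt _ (if y ≤ Real.pi then 2 * Real.cos (y / 2) else 0) y
      rw [if_pos h.le]
      refine (k4_hasDerivAt_sin y).congr_of_eventuallyEq ?_
      filter_upwards [Iio_mem_nhds h] with t ht
      exact if_pos (le_of_lt ht)
    · show HasDerivAt _ (if y ≤ Real.pi then 2 * Real.cos (y / 2) else 0) y
      rw [if_neg (not_le.2 h)]
      refine (hasDerivAt_const y (4 : ℝ)).congr_of_eventuallyEq ?_
      filter_upwards [Ioi_mem_nhds h] with t ht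
      exact if_neg (not_le.2 ht)
  · refine Continuous.continuousAt (Continuous.if_le (by fun_prop) continuous_const continuous_id continuous_const ?_)
    intro s hs
    rw [hs, Real.sin_pi_div_two, mul_one]
  · refine Continuous.continuousAt (Continuous.if_le (by fun_prop) continuous_const continuous_id continuous_const ?_)
    intro s hs
    rw [hs, Real.cos_pi_div_two, mul_zero]

theorem k4_G_eq (s : ℝ) : k4_G s = if -Real.pi ≤ s then (if s ≤ Real.pi then 4 * Real.sin (s / 2) else 4) else -4 := by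
  unfold k4_G
  by_cases h : s < -Real.pi
  · rw [if_pos h, if_neg (not_le.2 h)]
  · rw [if_neg h, if_pos (not_lt.1 h)]

theorem k4_g_eq (s : ℝ) : k4_g s = if -Real.pi ≤ s then (if s ≤ Real.pi then 2 * Real.cos (s / 2) else 0) else 0 := by
  unfold k4_g
  by_cases h : -Real.pi ≤ s
  · rw [if_pos h]
    by_cases h2 : s ≤ Real.pi
    · rw [if_pos h2, if_pos (abs_le.2 ⟨h, h2⟩)]
    · rw [if_neg h2, if_neg (fun h3 => h2 (abs_le.1 h3).2)]
  · rw [if_neg h, if_neg (fun h3 => h (abs_le.1 h3).1)]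

theorem k4_G_cont : Continuous k4_G := by
  have h0 : k4_G = fun s : ℝ => if -Real.pi ≤ s then (if s ≤ Real.pi then 4 * Real.sin (s / 2) else 4) else -4 :=
    funext k4_G_eq
  rw [h0]
  refine Continuous.if_le ?_ continuous_const continuous_const continuous_id ?_
  · exact continuous_iff_continuousAt.2 fun s => (k4_hasDerivAt_G₁ s).continuousAt
  · intro s hs
    have hs' : s = -Real.pi := hs.symm
    rw [hs', if_pos (by linarith [Real.pi_pos]), neg_div, Real.sin_neg, Real.sin_pi_div_two]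
    norm_num

theorem k4_hasDerivAt_G (s : ℝ) : HasDerivAt k4_G (k4_g s) s := by
  refine hasDerivAt_of_hasDerivAt_of_ne' (x := -Real.pi) (f := k4_G) (g := k4_g) ?_ k4_G_cont.continuousAt
    k4_g_continuous.continuousAt s
  intro y hy
  rcases lt_or_gt_of_ne hy with h | h
  · rw [k4_g_eq, if_neg (not_le.2 h)]
    refine (hasDerivAt_const y (-4 : ℝ)).congr_of_eventuallyEq ?_
    filter_upwards [Iio_mem_nhds h] with t ht
    rw [k4_G_eq, if_neg (not_le.2 ht)]
  · rw [k4_g_eq, if_pos h.le]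
    refine (k4_hasDerivAt_G₁ y).congr_of_eventuallyEq ?_
    filter_upwards [Ioi_mem_nhds h] with t ht
    rw [k4_G_eq, if_pos (le_of_lt ht)]

theorem k4_deriv_G : deriv k4_G = k4_g := funext fun s => (k4_hasDerivAt_G s).deriv

theorem k4_contDiff_G : ContDiff ℝ 1 k4_G := by
  rw [contDiff_one_iff_deriv]
  refine ⟨fun s => (k4_hasDerivAt_G s).differentiableAt, ?_⟩
  rw [k4_deriv_G]
  exact k4_g_continuous

theorem k4_g_abs (s : ℝ) : |k4_g s| ≤ 2 := by
  unfold k4_g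
  split_ifs
  · rw [abs_mul, abs_two]
    have := Real.abs_cos_le_one (s / 2)
    linarith
  · simp

theorem k4_G_lip (s t : ℝ) : |k4_G s - k4_G t| ≤ 2 * |s - t| := by
  have h : LipschitzWith 2 k4_G := by
    refine lipschitzWith_of_nnnorm_deriv_le (fun s => (k4_hasDerivAt_G s).differentiableAt) fun s => ?_
    rw [k4_deriv_G, ← NNReal.coe_le_coe, coe_nnnorm, Real.norm_eq_abs]
    exact k4_g_abs s
  have := h.dist_le_mul s t
  rw [Real.dist_eq, Real.dist_eq] at this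
  exact this

theorem k4_Wt_eq {s : ℝ} (h : |s| ≤ Real.pi) : Wt s = 2 * Real.cos (s / 2) ^ 2 := by
  have h1 : Wt s = 1 + Real.cos s := if_pos h
  rw [h1]
  have h2 : Real.cos s = 2 * Real.cos (s / 2) ^ 2 - 1 := by
    have := Real.cos_two_mul (s / 2)
    rwa [mul_div_cancel₀ s (two_ne_zero)] at this
  linarith

theorem k4_g_sq (s : ℝ) : k4_g s ^ 2 ≤ 2 * Wt s := by
  unfold k4_g
  split_ifs with h
  · rw [k4_Wt_eq h]
    apply le_of_eq
    ring
  · have := Wt_nonneg s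
    norm_num
    exact this

theorem k4_G_sq (s : ℝ) : 16 - 8 * Wt s ≤ k4_G s ^ 2 := by
  rw [k4_G_eq]
  by_cases h : -Real.pi ≤ s
  · rw [if_pos h]
    by_cases h2 : s ≤ Real.pi
    · rw [if_pos h2, k4_Wt_eq (abs_le.2 ⟨h, h2⟩)]
      have := Real.sin_sq_add_cos_sq (s / 2)
      nlinarith
    · rw [if_neg h2]
      have := Wt_nonneg s
      nlinarith
  · rw [if_neg h]
    have := Wt_nonneg s
    nlinarith

theorem k4_G_abs (s : ℝ) : |k4_G s| ≤ 4 := by
  rw [k4_G_eq]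
  split_ifs
  · rw [abs_mul]
    have := Real.abs_sin_le_one (s / 2)
    rw [abs_of_pos (by norm_num : (0 : ℝ) < 4)]
    linarith
  · norm_num
  · norm_num

theorem k4_G_odd (s : ℝ) : k4_G (-s) = -k4_G s := by
  have hpi := Real.pi_pos
  have hmid : ∀ t : ℝ, |t| ≤ Real.pi → k4_G t = 4 * Real.sin (t / 2) := by
    intro t ht
    rw [k4_G_eq, if_pos (abs_le.1 ht).1, if_pos (abs_le.1 ht).2]
  have hup : ∀ t : ℝ, Real.pi < t → k4_G t = 4 := by
    intro t ht
    rw [k4_G_eq, if_pos (by linarith), if_neg (not_le.2 ht)]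
  have hlo : ∀ t : ℝ, t < -Real.pi → k4_G t = -4 := by
    intro t ht
    rw [k4_G_eq, if_neg (not_le.2 ht)]
  rcases le_or_gt |s| Real.pi with h | h
  · rw [hmid s h, hmid (-s) (by rwa [abs_neg]), neg_div, Real.sin_neg]
    ring
  · rcases lt_abs.1 h with h1 | h1
    · rw [hup s h1, hlo (-s) (by linarith)]
    · rw [hlo s (by linarith), hup (-s) h1]
      norm_num

theorem width_one (hQ : IsESpace HQ) (hQc : CompStable HQ) {ε : ℝ} (hε : ε ∈ Ioc (0 : ℝ) 1)
    (hL : ∃ c, ¬ GenusLE (sub HQ ε (fun _ => 1) c) 1) : 1 ≤ width HQ ε (fun _ => 1) 1 := by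
  obtain ⟨hε0, hε1⟩ := hε
  have hw1 : IsWeight (fun _ : ℂ => (1 : ℝ)) := ⟨measurable_const, 1, 1, one_pos, fun _ => ⟨le_rfl, le_rfl⟩⟩
  obtain ⟨hGi, hGc⟩ := k4_cont_lip (G := k4_G) zero_le_two k4_G_lip k4_G_cont
  refine le_of_forall_lt_imp_le_of_dense fun E hE => ?_
  refine le_width hL ?_
  refine ⟨fun u => WithLp.toLp 2 fun _ => ∫ x, k4_G (u x) ∂mQ, ?_, ?_, ?_⟩
  · refine Continuous.continuousOn ?_
    exact (PiLp.continuous_toLp 2 _).comp (continuous_pi fun _ => hGc)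
  · intro u _
    have h1 : ∫ x, k4_G ((-u : Lp ℝ 2 mQ) x) ∂mQ = -∫ x, k4_G (u x) ∂mQ := by
      rw [← integral_neg]
      refine integral_congr_ae ?_
      filter_upwards [Lp.coeFn_neg u] with x hx
      rw [hx, Pi.neg_apply, k4_G_odd]
    show WithLp.toLp 2 (fun _ => ∫ x, k4_G ((-u : Lp ℝ 2 mQ) x) ∂mQ) = _
    rw [h1]
    rfl
  · rintro u ⟨U, hU, rfl, hUE⟩ h0
    have hf0 : ∫ x, k4_G (U.fst x) ∂mQ = 0 := by
      have := congrArg (fun v : EuclideanSpace ℝ (Fin 1) => v 0) h0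
      simpa using this
    obtain ⟨V, hV, hV1, hV2⟩ := hQc k4_G k4_contDiff_G ⟨2, fun s => by rw [k4_deriv_G]; exact k4_g_abs s⟩ U hU
    rw [k4_deriv_G] at hV2
    have hp := poincare hV
    have e0 : ∫ x, V.fst x ∂mQ = 0 := (integral_congr_ae hV1).trans hf0
    rw [e0, abs_zero, add_zero] at hp
    have hWi : Integrable (fun x => Wt (U.fst x)) mQ := by
      have := integrable_Wt hw1 U.fst
      simpa using this
    have hsq : Integrable (fun x => ‖U.snd x‖ ^ 2) mQ := (Lp.memLp U.snd).integrable_norm_pow (by norm_num)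
    have hns : ‖U.snd‖ ^ 2 = ∫ x, ‖U.snd x‖ ^ 2 ∂mQ := by
      rw [← real_inner_self_eq_norm_sq, L2.inner_def]
      congr 1
      funext x
      rw [real_inner_self_eq_norm_sq]
    have hen : ε / 2 * ∫ x, ‖U.snd x‖ ^ 2 ∂mQ + 1 / ε * ∫ x, Wt (U.fst x) ∂mQ ≤ E := by
      have h1 := hUE
      unfold en at h1
      rw [hns] at h1
      simpa using h1
    have hb1 : ∫ x, ‖V.snd x‖ ∂mQ ≤ E := by
      refine le_trans ?_ hen
      rw [← integral_const_mul, ← integral_const_mul, ← integral_add (hsq.const_mul _) (hWi.const_mul _)]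
      refine integral_mono_ae (k4_integrable V.snd).norm ((hsq.const_mul _).add (hWi.const_mul _)) ?_
      filter_upwards [hV2] with x hx
      rw [hx, norm_mul, Complex.norm_real, Real.norm_eq_abs]
      show |k4_g (U.fst x)| * ‖U.snd x‖ ≤ ε / 2 * ‖U.snd x‖ ^ 2 + 1 / ε * Wt (U.fst x)
      have h1 := k4_g_sq (U.fst x)
      rw [← sq_abs] at h1
      have h2 : 0 ≤ (ε * ‖U.snd x‖ - |k4_g (U.fst x)|) ^ 2 := sq_nonneg _
      have h3 : |k4_g (U.fst x)| * ‖U.snd x‖ * ε ≤ (ε / 2 * ‖U.snd x‖ ^ 2 + 1 / ε * Wt (U.fst x)) * ε := by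
        have h4 : (ε / 2 * ‖U.snd x‖ ^ 2 + 1 / ε * Wt (U.fst x)) * ε = ε ^ 2 * ‖U.snd x‖ ^ 2 / 2 + Wt (U.fst x) := by
          field_simp
        rw [h4]
        nlinarith
      exact le_of_mul_le_mul_right h3 hε0
    have hb2 : ∫ x, Wt (U.fst x) ∂mQ ≤ E := by
      have h1 : 0 ≤ ε / 2 * ∫ x, ‖U.snd x‖ ^ 2 ∂mQ := by
        have : 0 ≤ ∫ x, ‖U.snd x‖ ^ 2 ∂mQ := integral_nonneg fun x => by positivity
        positivity
      have h2 : 0 ≤ ∫ x, Wt (U.fst x) ∂mQ := integral_nonneg fun x => Wt_nonneg _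
      have h3 : ∫ x, Wt (U.fst x) ∂mQ ≤ 1 / ε * ∫ x, Wt (U.fst x) ∂mQ := by
        have h4 : 1 ≤ 1 / ε := by
          rw [le_div_iff₀ hε0]
          linarith
        nlinarith
      linarith
    have hb3 : 16 - 8 * ∫ x, Wt (U.fst x) ∂mQ ≤ 4 * ∫ x, |V.fst x| ∂mQ := by
      have hQ1 : mQ.real univ = 1 := by
        rw [measureReal_def, mQ_univ]
        simp
      have h1 : 16 - 8 * ∫ x, Wt (U.fst x) ∂mQ = ∫ x, (16 - 8 * Wt (U.fst x)) ∂mQ := by
        rw [integral_sub (integrable_const _) (hWi.const_mul _), integral_const_mul, integral_const, hQ1, one_smul]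
      rw [h1, ← integral_const_mul]
      refine integral_mono_ae ((integrable_const _).sub (hWi.const_mul _)) ((k4_integrable V.fst).norm.const_mul _) ?_
      filter_upwards [hV1] with x hx
      show 16 - 8 * Wt (U.fst x) ≤ 4 * ‖V.fst x‖
      rw [hx, Real.norm_eq_abs]
      refine (k4_G_sq _).trans ?_
      rw [← sq_abs, sq]
      exact mul_le_mul_of_nonneg_right (k4_G_abs _) (abs_nonneg _)
    linarith

end Pool.Agent.Helper53.CL.K
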