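import Pool.Agent.Helper53.CL.K.K02
import Pool.Agent.Helper53.CL.K.K03
import Pool.Agent.Helper53.CL.K.K04
import Pool.Agent.Helper53.CL.K.K07

/-!
# CL-K08: the Weyl constant of the square (about 60 lines)

`exists_abar` for `f p ε = width HQ ε 1 p`: `width_nonneg`, `width_mono`, `not_genus_sub` with `width_le_of_not`, `width_one`,
`width_scale`; the nonemptiness hypotheses from `large_HQ`.
-/

namespace Pool.Agent.Helper53.CL.K

open MeasureTheory Filter Topology Set Metric Pool.Agent.Helper53.CL.C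

theorem weyl_square (hB : BUprop) (hQ : IsESpace HQ) (hQc : CompStable HQ) :
    ∃ abar : ℝ, 0 < abar ∧ ∀ d > 0, ∃ q₀ : ℕ, ∀ q ≥ q₀,
      (∃ ε₀ > 0, ∀ ε ∈ Ioo 0 ε₀, width HQ ε (fun _ => 1) q ≤ (abar + d) * √q) ∧
      ∀ ε₁ > 0, ∃ ε ∈ Ioo 0 ε₁, (abar - d) * √q ≤ width HQ ε (fun _ => 1) q := by
  have hw : IsWeight (fun _ : ℂ => (1 : ℝ)) :=
    ⟨measurable_const, 1, 1, one_pos, fun _ => ⟨le_rfl, le_rfl⟩⟩
  have hL := large_HQ hB
  obtain ⟨K, _, hK⟩ := not_genus_sub hB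
  exact exists_abar (f := fun p ε => width HQ ε (fun _ => 1) p) (K := K) (c := 1) one_pos
    (fun p ε hε => width_nonneg hε hw)
    (fun p q hpq ε hε => width_mono hε hw (hL ε hε _ hw q) hpq)
    (fun p hp ε hε => width_le_of_not hε.1 hw (hK p hp ε hε))
    (fun ε hε => width_one hQ hQc hε (hL ε hε.1 _ hw 1))
    (fun k q hk ε hε => width_scale hQ hε hk (hL ε hε _ hw _))

end Pool.Agent.Helper53.CL.K
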