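import Pool.Agent.Helper53.CL.K.K00
import Pool.Agent.Helper53.CL.K.K01

/-!
# CL-K02: scaling of the widths of the unit square (about 200 lines)

For `i ∈ Fin (k^2)` let `x_i` be the lower left corners of the `k^2` squares of side `1/k` in `Qs`; `ψ_i y = x_i + y / k`.
`R_i u = u ∘ ψ_i` (`exists_op` with `P = univ`; `mQ.map ψ_i ≤ k^2 mQ`), and on pairs `T_i U = (U.fst ∘ ψ_i, (1/k) U.snd ∘ ψ_i)`
(a continuous linear map of `JetSp mQ`, built from two `exists_op`); for a `C^1` function `v`, `v ∘ ψ_i` is `C^1` with gradient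
`(1/k) (gr v) ∘ ψ_i`, so `T_i` maps `HQ` into `HQ` (`map_HQ`).  Change of variables, the squares `ψ_i Qs` cover `Qs` with null
overlaps: `∑ i, ‖(T_i U).snd‖^2 = ‖U.snd‖^2`, `∑ i, ∫ Wt((T_i U).fst) = k^2 ∫ Wt(U.fst)`.  Hence
`(1/k) ∑ i, en (k ε) 1 (T_i U) = (1/k) [(k ε / 2) ‖U.snd‖^2 + (1/(k ε)) k^2 ∫ Wt(U.fst)] = en ε 1 U`, and `superadd` with
`κ = 1/k`, `N = k^2`.
-/

namespace Pool.Agent.Helper53.CL.K

open MeasureTheory Filter Topology Set Pool.Agent.Helper53.CL.C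
open scoped ENNReal NNReal ContDiff

/-- The affine maps of the unit square onto the small squares. -/
private noncomputable def k02ψ (k : ℕ) (i : Fin (k ^ 2)) (y : ℂ) : ℂ :=
  (⟨((i.1 / k : ℕ) : ℝ) / k, ((i.1 % k : ℕ) : ℝ) / k⟩ : ℂ) + (1 / (k : ℝ)) • y

/-- The half open small squares. -/
private def k02S (k : ℕ) (i : Fin (k ^ 2)) : Set ℂ :=
  {z | ⌊(k : ℝ) * z.re⌋ = ((i.1 / k : ℕ) : ℤ) ∧ ⌊(k : ℝ) * z.im⌋ = ((i.1 % k : ℕ) : ℤ)}

/-- The half open unit square. -/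
private def k02Q : Set ℂ := {z | ⌊z.re⌋ = 0 ∧ ⌊z.im⌋ = 0}

private theorem k02S_meas (k : ℕ) (i : Fin (k ^ 2)) : MeasurableSet (k02S k i) := by
  have h1 : Measurable fun z : ℂ => ⌊(k : ℝ) * z.re⌋ := Int.measurable_floor.comp (Complex.measurable_re.const_mul _)
  have h2 : Measurable fun z : ℂ => ⌊(k : ℝ) * z.im⌋ := Int.measurable_floor.comp (Complex.measurable_im.const_mul _)
  exact (h1 (measurableSet_singleton _)).inter (h2 (measurableSet_singleton _))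

private theorem k02Q_meas : MeasurableSet k02Q := by
  have h1 : Measurable fun z : ℂ => ⌊z.re⌋ := Int.measurable_floor.comp Complex.measurable_re
  have h2 : Measurable fun z : ℂ => ⌊z.im⌋ := Int.measurable_floor.comp Complex.measurable_im
  exact (h1 (measurableSet_singleton _)).inter (h2 (measurableSet_singleton _))

private theorem k02_re : volume {z : ℂ | z.re = 1} = 0 := by
  have h := Complex.volume_preserving_equiv_real_prod.measure_preimage_equiv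
    (({1} : Set ℝ) ×ˢ (univ : Set ℝ))
  have e : Complex.measurableEquivRealProd ⁻¹' (({1} : Set ℝ) ×ˢ (univ : Set ℝ)) = {z : ℂ | z.re = 1} := by
    ext z
    simp [Complex.measurableEquivRealProd]
  rw [e] at h
  rw [h, Measure.volume_eq_prod, Measure.prod_prod]
  simp

private theorem k02_im : volume {z : ℂ | z.im = 1} = 0 := by
  have h := Complex.volume_preserving_equiv_real_prod.measure_preimage_equiv
    ((univ : Set ℝ) ×ˢ ({1} : Set ℝ))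
  have e : Complex.measurableEquivRealProd ⁻¹' ((univ : Set ℝ) ×ˢ ({1} : Set ℝ)) = {z : ℂ | z.im = 1} := by
    ext z
    simp [Complex.measurableEquivRealProd]
  rw [e] at h
  rw [h, Measure.volume_eq_prod, Measure.prod_prod]
  simp

private theorem k02_mQ : mQ = volume.restrict k02Q := by
  unfold mQ
  apply Measure.restrict_congr_set
  have h0 : volume ({z : ℂ | z.re = 1} ∪ {z : ℂ | z.im = 1}) = 0 := measure_union_null k02_re k02_im
  have h1 : ∀ᵐ z : ℂ, z ∉ ({z : ℂ | z.re = 1} ∪ {z : ℂ | z.im = 1}) := measure_eq_zero_iff_ae_notMem.1 h0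
  filter_upwards [h1] with z hz
  apply propext
  change z ∈ Qs ↔ z ∈ k02Q
  have hz1 : z.re ≠ 1 := fun h => hz (Or.inl h)
  have hz2 : z.im ≠ 1 := fun h => hz (Or.inr h)
  change (0 ≤ z.re ∧ z.re ≤ 1 ∧ 0 ≤ z.im ∧ z.im ≤ 1) ↔ (⌊z.re⌋ = 0 ∧ ⌊z.im⌋ = 0)
  rw [Int.floor_eq_zero_iff, Int.floor_eq_zero_iff, mem_Ico, mem_Ico]
  constructor
  · rintro ⟨a, b, c, d⟩
    exact ⟨⟨a, lt_of_le_of_ne b hz1⟩, ⟨c, lt_of_le_of_ne d hz2⟩⟩
  · rintro ⟨⟨a, b⟩, ⟨c, d⟩⟩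
    exact ⟨a, b.le, c, d.le⟩

private theorem k02_pre {k : ℕ} (hk : 1 ≤ k) (i : Fin (k ^ 2)) : k02ψ k i ⁻¹' k02S k i = k02Q := by
  have hk0 : (k : ℝ) ≠ 0 := by
    have : (0 : ℝ) < k := by exact_mod_cast hk
    exact this.ne'
  ext y
  change (⌊(k : ℝ) * (k02ψ k i y).re⌋ = ((i.1 / k : ℕ) : ℤ) ∧ ⌊(k : ℝ) * (k02ψ k i y).im⌋ = ((i.1 % k : ℕ) : ℤ)) ↔
    (⌊y.re⌋ = 0 ∧ ⌊y.im⌋ = 0)
  have e1 : (k : ℝ) * (k02ψ k i y).re = y.re + ((i.1 / k : ℕ) : ℝ) := by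
    unfold k02ψ
    rw [Complex.add_re, Complex.smul_re]
    change (k : ℝ) * (((i.1 / k : ℕ) : ℝ) / k + (1 / (k : ℝ)) • y.re) = _
    rw [smul_eq_mul]
    field_simp
    ring
  have e2 : (k : ℝ) * (k02ψ k i y).im = y.im + ((i.1 % k : ℕ) : ℝ) := by
    unfold k02ψ
    rw [Complex.add_im, Complex.smul_im]
    change (k : ℝ) * (((i.1 % k : ℕ) : ℝ) / k + (1 / (k : ℝ)) • y.im) = _
    rw [smul_eq_mul]
    field_simp
    ring
  rw [e1, e2, Int.floor_add_natCast, Int.floor_add_natCast]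
  constructor
  · rintro ⟨a, b⟩
    exact ⟨by linarith, by linarith⟩
  · rintro ⟨a, b⟩
    exact ⟨by linarith, by linarith⟩

private theorem k02ψ_cont (k : ℕ) (i : Fin (k ^ 2)) : Continuous (k02ψ k i) := by
  unfold k02ψ
  fun_prop

private theorem k02_vol {k : ℕ} (hk : 1 ≤ k) (i : Fin (k ^ 2)) (B : Set ℂ) :
    volume (k02ψ k i ⁻¹' B) = (k : ℝ≥0∞) ^ 2 * volume B := by
  have hk0 : (0 : ℝ) < k := by exact_mod_cast hk
  have e : k02ψ k i ⁻¹' B = ((1 / (k : ℝ)) • · : ℂ → ℂ) ⁻¹'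
      ((fun z => (⟨((i.1 / k : ℕ) : ℝ) / k, ((i.1 % k : ℕ) : ℝ) / k⟩ : ℂ) + z) ⁻¹' B) := rfl
  rw [e, Measure.addHaar_preimage_smul volume (by positivity : (1 / (k : ℝ)) ≠ 0), measure_preimage_add,
    Complex.finrank_real_complex]
  congr 1
  rw [one_div, inv_pow, inv_inv, abs_of_nonneg (by positivity), ENNReal.ofReal_pow hk0.le, ENNReal.ofReal_natCast]

private theorem k02_map {k : ℕ} (hk : 1 ≤ k) (i : Fin (k ^ 2)) {B : Set ℂ} (hB : MeasurableSet B) :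
    (mQ.map (k02ψ k i)) B = (k : ℝ≥0∞) ^ 2 * volume (B ∩ k02S k i) := by
  rw [Measure.map_apply (k02ψ_cont k i).measurable hB, k02_mQ,
    Measure.restrict_apply ((k02ψ_cont k i).measurable hB), ← k02_pre hk i, ← preimage_inter, k02_vol hk]

private theorem k02_sub {k : ℕ} (hk : 1 ≤ k) (i : Fin (k ^ 2)) : k02S k i ⊆ Qs := by
  have hk0 : (0 : ℝ) < k := by exact_mod_cast hk
  have h1 : i.1 / k < k := by
    rw [Nat.div_lt_iff_lt_mul (by omega), ← sq]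
    exact i.2
  have h2 : i.1 % k < k := Nat.mod_lt _ (by omega)
  rintro z ⟨ha, hb⟩
  rw [Int.floor_eq_iff] at ha hb
  have h1' : (((i.1 / k : ℕ) : ℤ) : ℝ) + 1 ≤ k := by
    have : (i.1 / k : ℕ) + 1 ≤ k := h1
    exact_mod_cast this
  have h2' : (((i.1 % k : ℕ) : ℤ) : ℝ) + 1 ≤ k := by
    have : (i.1 % k : ℕ) + 1 ≤ k := h2
    exact_mod_cast this
  have h3 : (0 : ℝ) ≤ (((i.1 / k : ℕ) : ℤ) : ℝ) := by positivity
  have h4 : (0 : ℝ) ≤ (((i.1 % k : ℕ) : ℤ) : ℝ) := by positivity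
  refine ⟨?_, ?_, ?_, ?_⟩
  · by_contra h
    have := mul_neg_of_pos_of_neg hk0 (not_le.1 h)
    linarith [ha.1]
  · by_contra h
    have := mul_lt_mul_of_pos_left (not_le.1 h) hk0
    linarith [ha.2]
  · by_contra h
    have := mul_neg_of_pos_of_neg hk0 (not_le.1 h)
    linarith [hb.1]
  · by_contra h
    have := mul_lt_mul_of_pos_left (not_le.1 h) hk0
    linarith [hb.2]

private theorem k02_disj {k : ℕ} {i j : Fin (k ^ 2)} (hij : i ≠ j) : Disjoint (k02S k i) (k02S k j) := by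
  rw [Set.disjoint_left]
  rintro z ⟨ha, hb⟩ ⟨hc, hd⟩
  apply hij
  have h1 : i.1 / k = j.1 / k := by
    have := ha.symm.trans hc
    exact_mod_cast this
  have h2 : i.1 % k = j.1 % k := by
    have := hb.symm.trans hd
    exact_mod_cast this
  apply Fin.ext
  rw [← Nat.div_add_mod i.1 k, ← Nat.div_add_mod j.1 k, h1, h2]

private theorem k02_sum {k : ℕ} (hk : 1 ≤ k) :
    ∑ i, mQ.map (k02ψ k i) ≤ ((k : ℝ≥0∞) ^ 2) • mQ := by
  rw [Measure.le_iff]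
  intro B hB
  rw [Measure.finsetSum_apply, Measure.smul_apply, smul_eq_mul]
  have e : ∀ i ∈ (Finset.univ : Finset (Fin (k ^ 2))), (mQ.map (k02ψ k i)) B =
      (k : ℝ≥0∞) ^ 2 * volume (B ∩ k02S k i) := fun i _ => k02_map hk i hB
  rw [Finset.sum_congr rfl e, ← Finset.mul_sum]
  gcongr
  rw [← measure_biUnion_finset (fun i _ j _ hij => (k02_disj hij).mono inter_subset_right inter_subset_right)
    (fun i _ => hB.inter (k02S_meas k i))]
  unfold mQ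
  rw [Measure.restrict_apply hB]
  apply measure_mono
  intro z hz
  simp only [Finset.mem_univ, iUnion_true, mem_iUnion] at hz
  obtain ⟨i, hi1, hi2⟩ := hz
  exact ⟨hi1, k02_sub hk i hi2⟩

private theorem k02_one {k : ℕ} (hk : 1 ≤ k) (i : Fin (k ^ 2)) :
    (mQ.map (k02ψ k i)) ≤ ((k : ℝ≥0∞) ^ 2) • mQ := by
  refine le_trans ?_ (k02_sum hk)
  rw [Measure.le_iff]
  intro B _
  rw [Measure.finsetSum_apply]
  exact Finset.single_le_sum (f := fun i => (mQ.map (k02ψ k i)) B) (fun _ _ => zero_le) (Finset.mem_univ i)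

private theorem k02_int {k : ℕ} (hk : 1 ≤ k) {f : ℂ → ℝ} (hf : Integrable f mQ) (h0 : ∀ x, 0 ≤ f x) :
    (∀ i, Integrable (fun x => f (k02ψ k i x)) mQ) ∧
    ∑ i : Fin (k ^ 2), ∫ x, f (k02ψ k i x) ∂mQ ≤ (k : ℝ) ^ 2 * ∫ x, f x ∂mQ := by
  have hfk : Integrable f (((k : ℝ≥0∞) ^ 2) • mQ) :=
    hf.smul_measure (ENNReal.pow_ne_top (ENNReal.natCast_ne_top k))
  have hfi : ∀ i, Integrable f (mQ.map (k02ψ k i)) := fun i => hfk.mono_measure (k02_one hk i)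
  refine ⟨fun i => (hfi i).comp_measurable (k02ψ_cont k i).measurable, ?_⟩
  have e : ∀ i ∈ (Finset.univ : Finset (Fin (k ^ 2))), ∫ x, f (k02ψ k i x) ∂mQ = ∫ x, f x ∂(mQ.map (k02ψ k i)) :=
    fun i _ => (integral_map (k02ψ_cont k i).aemeasurable (hfi i).aestronglyMeasurable).symm
  rw [Finset.sum_congr rfl e, ← integral_finsetSum_measure (fun i _ => hfi i)]
  refine (integral_mono_measure (k02_sum hk) (Eventually.of_forall h0) hfk).trans (le_of_eq ?_)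
  rw [integral_smul_measure, smul_eq_mul, ENNReal.toReal_pow, ENNReal.toReal_natCast]

private theorem k02_gr {k : ℕ} (i : Fin (k ^ 2)) {v : ℂ → ℝ} (hv : ContDiff ℝ 1 v) (y : ℂ) :
    gr (fun y => v (k02ψ k i y)) y = (1 / (k : ℝ)) • gr v (k02ψ k i y) := by
  have hd : DifferentiableAt ℝ v (k02ψ k i y) := hv.differentiable one_ne_zero _
  have h1 : HasFDerivAt (k02ψ k i) ((1 / (k : ℝ)) • ContinuousLinearMap.id ℝ ℂ) y := by
    unfold k02ψ
    exact ((hasFDerivAt_id y).const_smul (1 / (k : ℝ))).const_add _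
  have h2 := hd.hasFDerivAt.comp y h1
  have h3 : fderiv ℝ (fun y => v (k02ψ k i y)) y =
      (fderiv ℝ v (k02ψ k i y)).comp ((1 / (k : ℝ)) • ContinuousLinearMap.id ℝ ℂ) := h2.fderiv
  unfold gr dx dy
  rw [h3]
  apply Complex.ext
  · rw [Complex.smul_re]
    simp
  · rw [Complex.smul_im]
    simp

private theorem k02_op (hQ : IsESpace HQ) {k : ℕ} (hk : 1 ≤ k) (i : Fin (k ^ 2)) :
    ∃ (T₁ : Lp ℝ 2 mQ →L[ℝ] Lp ℝ 2 mQ) (T₂ : Lp ℂ 2 mQ →L[ℝ] Lp ℂ 2 mQ),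
      (∀ u, T₁ u =ᵐ[mQ] fun x => u (k02ψ k i x)) ∧
      (∀ u, T₂ u =ᵐ[mQ] fun x => (1 / (k : ℝ)) • u (k02ψ k i x)) ∧
      ∀ U ∈ HQ, (WithLp.toLp 2 (T₁ U.fst, T₂ U.snd) : JetSp mQ) ∈ HQ := by
  have hmap : (mQ.restrict univ).map (k02ψ k i) ≤ ((k : ℝ≥0) ^ 2) • mQ := by
    rw [Measure.restrict_univ]
    refine (k02_one hk i).trans (le_of_eq ?_)
    ext B _
    rw [Measure.smul_apply, Measure.smul_apply]
    change _ = (((k : ℝ≥0) ^ 2 : ℝ≥0) : ℝ≥0∞) * mQ B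
    rw [smul_eq_mul, ENNReal.coe_pow, ENNReal.coe_natCast]
  obtain ⟨T₁, h1⟩ := exists_op (E := ℝ) (F := ℝ) (A := mQ) (A' := mQ) MeasurableSet.univ
    (k02ψ_cont k i).aemeasurable hmap (m := fun _ => ContinuousLinearMap.id ℝ ℝ) aestronglyMeasurable_const
    (B := ‖ContinuousLinearMap.id ℝ ℝ‖) (fun _ _ => le_rfl)
  obtain ⟨T₂, h2⟩ := exists_op (E := ℂ) (F := ℂ) (A := mQ) (A' := mQ) MeasurableSet.univ
    (k02ψ_cont k i).aemeasurable hmap (m := fun _ => (1 / (k : ℝ)) • ContinuousLinearMap.id ℝ ℂ)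
    aestronglyMeasurable_const (B := ‖(1 / (k : ℝ)) • ContinuousLinearMap.id ℝ ℂ‖) (fun _ _ => le_rfl)
  have h1' : ∀ u, T₁ u =ᵐ[mQ] fun x => u (k02ψ k i x) := fun u => by
    refine (h1 u).trans (Eventually.of_forall fun x => ?_)
    simp
  have h2' : ∀ u, T₂ u =ᵐ[mQ] fun x => (1 / (k : ℝ)) • u (k02ψ k i x) := fun u => by
    refine (h2 u).trans (Eventually.of_forall fun x => ?_)
    simp
  refine ⟨T₁, T₂, h1', h2', ?_⟩
  let T : JetSp mQ →L[ℝ] JetSp mQ :=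
    ((WithLp.prodContinuousLinearEquiv 2 ℝ (Lp ℝ 2 mQ) (Lp ℂ 2 mQ)).symm : _ →L[ℝ] JetSp mQ) ∘L
      (T₁.prodMap T₂) ∘L ((WithLp.prodContinuousLinearEquiv 2 ℝ (Lp ℝ 2 mQ) (Lp ℂ 2 mQ)) : JetSp mQ →L[ℝ] _)
  have hT : ∀ U, T U = WithLp.toLp 2 (T₁ U.fst, T₂ U.snd) := fun _ => rfl
  have hac : (mQ.map (k02ψ k i)) ≪ mQ := by
    have := Measure.absolutelyContinuous_of_le (k02_one hk i)
    exact this.trans (Measure.smul_absolutelyContinuous)
  have key := map_HQ (A := mQ) (H := HQ) hQ.closed T (by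
    intro v hv U hU
    apply Submodule.le_topologicalClosure
    apply Submodule.subset_span
    refine ⟨fun y => v (k02ψ k i y), ?_, ?_, ?_⟩
    · apply hv.comp
      unfold k02ψ
      fun_prop
    · rw [hT]
      refine (h1' _).trans ?_
      exact ae_of_ae_map (k02ψ_cont k i).aemeasurable (hac.ae_le hU.1)
    · rw [hT]
      refine (h2' _).trans ?_
      filter_upwards [ae_of_ae_map (k02ψ_cont k i).aemeasurable (hac.ae_le hU.2)] with x hx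
      rw [hx, k02_gr i hv])
  intro U hU
  rw [← hT]
  exact key U hU

private theorem k02_nsq (u : Lp ℂ 2 mQ) : Integrable (fun x => ‖u x‖ ^ 2) mQ ∧ ‖u‖ ^ 2 = ∫ x, ‖u x‖ ^ 2 ∂mQ := by
  refine ⟨(Lp.memLp u).norm.integrable_sq, ?_⟩
  rw [← real_inner_self_eq_norm_sq, L2.inner_def]
  apply integral_congr_ae
  filter_upwards with x
  rw [real_inner_self_eq_norm_sq]

theorem width_scale (hQ : IsESpace HQ) {ε : ℝ} (hε : 0 < ε) {k q : ℕ} (hk : 1 ≤ k)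
    (hL : ∃ c, ¬ GenusLE (sub HQ ε (fun _ => 1) c) (k ^ 2 * q)) :
    k * width HQ (k * ε) (fun _ => 1) q ≤ width HQ ε (fun _ => 1) (k ^ 2 * q) := by
  have hk0 : (0 : ℝ) < k := by exact_mod_cast hk
  have hw : IsWeight (fun _ : ℂ => (1 : ℝ)) := ⟨measurable_const, 1, 1, one_pos, fun _ => ⟨le_rfl, le_rfl⟩⟩
  have hop := fun i => k02_op hQ hk i
  choose T₁ T₂ h1 h2 h3 using hop
  have hs := superadd (H := HQ) (H' := HQ) (q := q) (N := k ^ 2) hQ hε (mul_pos hk0 hε) hw hw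
    (fun i u => T₁ i u) (fun i => (T₁ i).continuous) (fun i u => map_neg (T₁ i) u) (κ := 1 / (k : ℝ)) (by positivity)
    (by
      intro U hU
      refine ⟨fun i => WithLp.toLp 2 (T₁ i U.fst, T₂ i U.snd), fun i => ⟨h3 i U hU, rfl⟩, ?_⟩
      have a1 : ∑ i, ‖T₂ i U.snd‖ ^ 2 ≤ ‖U.snd‖ ^ 2 := by
        have e : ∀ i ∈ (Finset.univ : Finset (Fin (k ^ 2))), ‖T₂ i U.snd‖ ^ 2 =
            (1 / (k : ℝ)) ^ 2 * ∫ x, ‖U.snd (k02ψ k i x)‖ ^ 2 ∂mQ := by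
          intro i _
          rw [(k02_nsq _).2, ← integral_const_mul]
          apply integral_congr_ae
          filter_upwards [h2 i U.snd] with x hx
          rw [hx, norm_smul, mul_pow, Real.norm_eq_abs, sq_abs]
        rw [Finset.sum_congr rfl e, ← Finset.mul_sum]
        have h := (k02_int hk (k02_nsq U.snd).1 (fun x => by positivity)).2
        rw [← (k02_nsq U.snd).2] at h
        calc (1 / (k : ℝ)) ^ 2 * ∑ i : Fin (k ^ 2), ∫ x, ‖U.snd (k02ψ k i x)‖ ^ 2 ∂mQ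
            ≤ (1 / (k : ℝ)) ^ 2 * ((k : ℝ) ^ 2 * ‖U.snd‖ ^ 2) := by gcongr
          _ = ‖U.snd‖ ^ 2 := by
            field_simp
      have a2 : ∑ i, ∫ x, 1 * Wt (T₁ i U.fst x) ∂mQ ≤ (k : ℝ) ^ 2 * ∫ x, 1 * Wt (U.fst x) ∂mQ := by
        have e : ∀ i ∈ (Finset.univ : Finset (Fin (k ^ 2))), ∫ x, 1 * Wt (T₁ i U.fst x) ∂mQ =
            ∫ x, 1 * Wt (U.fst (k02ψ k i x)) ∂mQ := by
          intro i _
          apply integral_congr_ae
          filter_upwards [h1 i U.fst] with x hx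
          rw [hx]
        rw [Finset.sum_congr rfl e]
        exact (k02_int hk (f := fun x => 1 * Wt (U.fst x)) (integrable_Wt hw _)
          (fun x => by rw [one_mul]; exact Wt_nonneg _)).2
      have e1 : ∑ i, en (k * ε) (fun _ => 1) (WithLp.toLp 2 (T₁ i U.fst, T₂ i U.snd) : JetSp mQ) =
          (k * ε) / 2 * ∑ i, ‖T₂ i U.snd‖ ^ 2 + 1 / (k * ε) * ∑ i, ∫ x, 1 * Wt (T₁ i U.fst x) ∂mQ := by
        rw [Finset.mul_sum, Finset.mul_sum, ← Finset.sum_add_distrib]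
        rfl
      rw [e1]
      unfold en
      calc 1 / (k : ℝ) * ((k * ε) / 2 * ∑ i, ‖T₂ i U.snd‖ ^ 2 + 1 / (k * ε) * ∑ i, ∫ x, 1 * Wt (T₁ i U.fst x) ∂mQ)
          ≤ 1 / (k : ℝ) * ((k * ε) / 2 * ‖U.snd‖ ^ 2 + 1 / (k * ε) * ((k : ℝ) ^ 2 * ∫ x, 1 * Wt (U.fst x) ∂mQ)) := by
            gcongr
        _ = ε / 2 * ‖U.snd‖ ^ 2 + 1 / ε * ∫ x, 1 * Wt (U.fst x) ∂mQ := by
            field_simp)
    hL
  refine le_trans (le_of_eq ?_) hs
  rw [Nat.cast_pow]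
  field_simp

end Pool.Agent.Helper53.CL.K
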