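import Mathlib

/-!
# CL-K05: sign changes of polynomials in two variables (independent, about 250 lines)

`pol c z = ∑ a b, c a b * z.re^a * z.im^b`, `a, b < d`.
`sgn_one`: a nonzero real polynomial of degree `< d` has at most `d - 1` roots; if `sign p(x + t) ≠ sign p(x)` then there is a root in the
closed interval between `x` and `x + t` (intermediate value theorem), so `x` is in the union of the intervals `[r - |t|, r + |t|]`,
of total length `≤ 2 |t| d`.
`sgn_shift`: Fubini on `[-1,2] × [-1,2]` (`Complex.measurableEquivRealProd`, volume preserving): for almost every `y` the polynomial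
`x ↦ pol c (x + i y)` is nonzero (its coefficients are polynomials in `y`, not all zero), so
`∫ |s(z + t) - s(z)| ≤ 3 * 2 * 2 |t| d`.  Same for vertical shifts.
`sgn_ae`: `pol c z ≠ 0` for almost every `z`.
`sgn_cont`: if `c n → c ≠ 0` then `sign (pol (c n) z) → sign (pol c z)` wherever `pol c z ≠ 0`.
-/

namespace Pool.Agent.Helper53.CL.K

open MeasureTheory Filter Topology Set

/-- A polynomial of degree less than `d` in each of two real variables. -/
noncomputable def pol {d : ℕ} (c : Fin d → Fin d → ℝ) (z : ℂ) : ℝ := ∑ a, ∑ b, c a b * z.re ^ (a : ℕ) * z.im ^ (b : ℕ)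

/-- The square `[-1, 2] × [-1, 2]`. -/
def Qb : Set ℂ := {z | -1 ≤ z.re ∧ z.re ≤ 2 ∧ -1 ≤ z.im ∧ z.im ≤ 2}

theorem sgn_one {p : Polynomial ℝ} (hp : p ≠ 0) {d : ℕ} (hd : p.natDegree < d) (t : ℝ) :
    volume {x : ℝ | Real.sign (p.eval (x + t)) ≠ Real.sign (p.eval x)} ≤ ENNReal.ofReal (2 * |t| * d) := by
  classical
  have hsub : {x : ℝ | Real.sign (p.eval (x + t)) ≠ Real.sign (p.eval x)} ⊆
      ⋃ r ∈ p.roots.toFinset, Icc (r - |t|) (r + |t|) := by
    intro x hx
    have hx' : Real.sign (p.eval (x + t)) ≠ Real.sign (p.eval x) := hx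
    have h0 : (0 : ℝ) ∈ uIcc (p.eval x) (p.eval (x + t)) := by
      rw [mem_uIcc]
      rcases lt_trichotomy (p.eval x) 0 with h1 | h1 | h1
      · rcases lt_trichotomy (p.eval (x + t)) 0 with h2 | h2 | h2
        · exact absurd (by rw [Real.sign_of_neg h1, Real.sign_of_neg h2]) hx'
        · left
          exact ⟨h1.le, h2.ge⟩
        · left
          exact ⟨h1.le, h2.le⟩
      · rcases le_total (p.eval (x + t)) 0 with h2 | h2
        · right
          exact ⟨h2, h1.ge⟩
        · left
          exact ⟨h1.le, h2⟩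
      · rcases lt_trichotomy (p.eval (x + t)) 0 with h2 | h2 | h2
        · right
          exact ⟨h2.le, h1.le⟩
        · right
          exact ⟨h2.le, h1.le⟩
        · exact absurd (by rw [Real.sign_of_pos h1, Real.sign_of_pos h2]) hx'
    obtain ⟨r, hr, hr0⟩ := intermediate_value_uIcc (f := fun x => p.eval x) p.continuous.continuousOn h0
    simp only [mem_iUnion, Multiset.mem_toFinset, Polynomial.mem_roots hp]
    refine ⟨r, hr0, ?_⟩
    rcases mem_uIcc.1 hr with h | h
    · have h1 : t ≤ |t| := le_abs_self t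
      constructor <;> linarith [h.1, h.2]
    · have h1 : -t ≤ |t| := neg_le_abs t
      constructor <;> linarith [h.1, h.2]
  have hcard : p.roots.toFinset.card ≤ d :=
    (Multiset.toFinset_card_le _).trans ((Polynomial.card_roots' p).trans hd.le)
  calc volume {x : ℝ | Real.sign (p.eval (x + t)) ≠ Real.sign (p.eval x)}
      ≤ volume (⋃ r ∈ p.roots.toFinset, Icc (r - |t|) (r + |t|)) := measure_mono hsub
    _ ≤ ∑ r ∈ p.roots.toFinset, volume (Icc (r - |t|) (r + |t|)) := measure_biUnion_finset_le _ _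
    _ = ∑ _r ∈ p.roots.toFinset, ENNReal.ofReal (2 * |t|) := by
        refine Finset.sum_congr rfl fun r _ => ?_
        rw [Real.volume_Icc]
        congr 1
        ring
    _ = p.roots.toFinset.card * ENNReal.ofReal (2 * |t|) := by rw [Finset.sum_const, nsmul_eq_mul]
    _ ≤ d * ENNReal.ofReal (2 * |t|) := by
        gcongr
    _ = ENNReal.ofReal (2 * |t| * d) := by
        rw [ENNReal.ofReal_mul (by positivity : (0 : ℝ) ≤ 2 * |t|), ENNReal.ofReal_natCast, mul_comm]

theorem measurable_rsign : Measurable Real.sign := by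
  have h : Real.sign = fun r : ℝ => if r < 0 then (-1 : ℝ) else if 0 < r then 1 else 0 := rfl
  rw [h]
  exact Measurable.ite measurableSet_Iio measurable_const
    (Measurable.ite measurableSet_Ioi measurable_const measurable_const)

theorem k5_continuous_pol {d : ℕ} (c : Fin d → Fin d → ℝ) : Continuous (pol c) := by
  unfold pol
  fun_prop

theorem measurable_sgn {d : ℕ} (c : Fin d → Fin d → ℝ) : Measurable fun z => Real.sign (pol c z) :=
  measurable_rsign.comp (k5_continuous_pol c).measurable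

/-- The polynomial with given coefficients. -/
noncomputable def mp {d : ℕ} (f : Fin d → ℝ) : Polynomial ℝ := ∑ b : Fin d, Polynomial.monomial (b : ℕ) (f b)

theorem eval_mp {d : ℕ} (f : Fin d → ℝ) (x : ℝ) : (mp f).eval x = ∑ b : Fin d, f b * x ^ (b : ℕ) := by
  unfold mp
  rw [Polynomial.eval_finsetSum]
  simp only [Polynomial.eval_monomial]

theorem coeff_mp {d : ℕ} (f : Fin d → ℝ) (a : Fin d) : (mp f).coeff a = f a := by
  unfold mp
  rw [Polynomial.finsetSum_coeff, Finset.sum_eq_single a]
  · simp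
  · intro b _ hb
    rw [Polynomial.coeff_monomial, if_neg]
    exact fun h => hb (Fin.ext h)
  · simp

theorem mp_ne_zero {d : ℕ} {f : Fin d → ℝ} {a : Fin d} (h : f a ≠ 0) : mp f ≠ 0 := by
  intro h0
  apply h
  rw [← coeff_mp f a, h0]
  simp

theorem natDegree_mp {d : ℕ} (f : Fin d → ℝ) (hd : 0 < d) : (mp f).natDegree < d := by
  have h : (mp f).natDegree ≤ d - 1 := by
    unfold mp
    refine Polynomial.natDegree_sum_le_of_forall_le _ _ fun b _ => ?_
    refine (Polynomial.natDegree_monomial_le _).trans ?_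
    have := b.2
    omega
  omega

/-- The values of the polynomial in two variables. -/
noncomputable def qv {d : ℕ} (c : Fin d → Fin d → ℝ) (x y : ℝ) : ℝ := ∑ a, ∑ b, c a b * x ^ (a : ℕ) * y ^ (b : ℕ)

theorem qv_eq {d : ℕ} (c : Fin d → Fin d → ℝ) (x y : ℝ) :
    qv c x y = (mp fun a => ∑ b : Fin d, c a b * y ^ (b : ℕ)).eval x := by
  rw [eval_mp]
  unfold qv
  refine Finset.sum_congr rfl fun a _ => ?_
  rw [Finset.sum_mul]
  exact Finset.sum_congr rfl fun b _ => by ring

theorem qv_swap {d : ℕ} (c : Fin d → Fin d → ℝ) (x y : ℝ) : qv c x y = qv (fun a b => c b a) y x := by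
  unfold qv
  rw [Finset.sum_comm]
  exact Finset.sum_congr rfl fun a _ => Finset.sum_congr rfl fun b _ => by ring

theorem k5_exists_ne {d : ℕ} {c : Fin d → Fin d → ℝ} (hc : c ≠ 0) : ∃ a b, c a b ≠ 0 := by
  by_contra h
  push Not at h
  exact hc (funext fun a => funext fun b => h a b)

theorem ae_mp_ne {d : ℕ} {c : Fin d → Fin d → ℝ} (hc : c ≠ 0) :
    ∀ᵐ y : ℝ, (mp fun a => ∑ b : Fin d, c a b * y ^ (b : ℕ)) ≠ 0 := by
  obtain ⟨a, b, hab⟩ := k5_exists_ne hc
  have h1 : mp (c a) ≠ 0 := mp_ne_zero hab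
  have h2 : {y : ℝ | (mp (c a)).IsRoot y}.Finite := Polynomial.finite_setOfPred_isRoot h1
  have h3 : ∀ᵐ y : ℝ, ¬ (mp (c a)).IsRoot y := by
    rw [ae_iff]
    simp only [not_not]
    exact h2.measure_zero _
  filter_upwards [h3] with y hy
  refine mp_ne_zero (a := a) ?_
  intro h
  apply hy
  show (mp (c a)).eval y = 0
  rw [eval_mp]
  exact h

theorem sgn_one_qv {d : ℕ} {c : Fin d → Fin d → ℝ} (hc : c ≠ 0) (t : ℝ) :
    ∀ᵐ y : ℝ, volume {x : ℝ | Real.sign (qv c (x + t) y) ≠ Real.sign (qv c x y)} ≤ ENNReal.ofReal (2 * |t| * d) := by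
  obtain ⟨a, -, -⟩ := k5_exists_ne hc
  filter_upwards [ae_mp_ne hc] with y hy
  simp only [qv_eq]
  exact sgn_one hy (natDegree_mp _ (lt_of_le_of_lt (Nat.zero_le _) a.2)) t

theorem k5_plane_bound {s : Set (ℝ × ℝ)} (hs : MeasurableSet s) {C : ENNReal} {I : Set ℝ} (hI : MeasurableSet I)
    (h : ∀ᵐ y : ℝ, volume {x : ℝ | (x, y) ∈ s} ≤ C) (h' : ∀ p ∈ s, p.2 ∈ I) :
    (volume : Measure (ℝ × ℝ)) s ≤ C * volume I := by
  rw [Measure.volume_eq_prod, Measure.prod_apply_symm hs]
  calc ∫⁻ y : ℝ, volume ((fun x => (x, y)) ⁻¹' s) ≤ ∫⁻ y : ℝ, I.indicator (fun _ => C) y := by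
        refine lintegral_mono_ae ?_
        filter_upwards [h] with y hy
        by_cases hyI : y ∈ I
        · rw [indicator_of_mem hyI]
          exact hy
        · rw [indicator_of_notMem hyI]
          have h2 : (fun x : ℝ => (x, y)) ⁻¹' s = ∅ := by
            ext x
            simp only [mem_preimage, mem_empty_iff_false, iff_false]
            exact fun h3 => hyI (h' _ h3)
          rw [h2, measure_empty]
    _ = C * volume I := by
        rw [lintegral_indicator hI, lintegral_const, Measure.restrict_apply_univ]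

theorem k5_plane_bound' {s : Set (ℝ × ℝ)} (hs : MeasurableSet s) {C : ENNReal} {I : Set ℝ} (hI : MeasurableSet I)
    (h : ∀ᵐ x : ℝ, volume {y : ℝ | (x, y) ∈ s} ≤ C) (h' : ∀ p ∈ s, p.1 ∈ I) :
    (volume : Measure (ℝ × ℝ)) s ≤ C * volume I := by
  rw [Measure.volume_eq_prod, Measure.prod_apply hs]
  calc ∫⁻ x : ℝ, volume (Prod.mk x ⁻¹' s) ≤ ∫⁻ x : ℝ, I.indicator (fun _ => C) x := by
        refine lintegral_mono_ae ?_
        filter_upwards [h] with x hx
        by_cases hxI : x ∈ I
        · rw [indicator_of_mem hxI]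
          exact hx
        · rw [indicator_of_notMem hxI]
          have h2 : Prod.mk x ⁻¹' s = (∅ : Set ℝ) := by
            ext y
            simp only [mem_preimage, mem_empty_iff_false, iff_false]
            exact fun h3 => hxI (h' _ h3)
          rw [h2, measure_empty]
    _ = C * volume I := by
        rw [lintegral_indicator hI, lintegral_const, Measure.restrict_apply_univ]

theorem k5_volume_complex {s : Set ℂ} (hs : MeasurableSet s) :
    volume s = (volume : Measure (ℝ × ℝ)) {p | (⟨p.1, p.2⟩ : ℂ) ∈ s} := by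
  rw [← (Complex.volume_preserving_equiv_real_prod.symm).measure_preimage hs.nullMeasurableSet]
  rfl

theorem sgn_ae {d : ℕ} {c : Fin d → Fin d → ℝ} (hc : c ≠ 0) : ∀ᵐ z : ℂ, pol c z ≠ 0 := by
  rw [ae_iff]
  simp only [not_not]
  have hm : MeasurableSet {z : ℂ | pol c z = 0} :=
    (isClosed_singleton.preimage (k5_continuous_pol c) : IsClosed (pol c ⁻¹' {0})).measurableSet
  rw [k5_volume_complex hm]
  have hm' : MeasurableSet {p : ℝ × ℝ | (⟨p.1, p.2⟩ : ℂ) ∈ {z : ℂ | pol c z = 0}} := by
    have h1 : Continuous fun p : ℝ × ℝ => pol c ⟨p.1, p.2⟩ := by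
      unfold pol
      fun_prop
    exact (isClosed_singleton.preimage h1 : IsClosed _).measurableSet
  have h1 := k5_plane_bound hm' (C := 0) (I := univ) MeasurableSet.univ (by
    filter_upwards [ae_mp_ne hc] with y hy
    have h2 : {x : ℝ | (x, y) ∈ {p : ℝ × ℝ | (⟨p.1, p.2⟩ : ℂ) ∈ {z : ℂ | pol c z = 0}}} ⊆
        {x : ℝ | (mp fun a => ∑ b : Fin d, c a b * y ^ (b : ℕ)).IsRoot x} := by
      intro x hx
      have h3 : qv c x y = 0 := hx
      rw [qv_eq] at h3
      exact h3
    exact (measure_mono h2).trans ((Polynomial.finite_setOfPred_isRoot hy).measure_zero _).le) (fun _ _ => mem_univ _)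
  rw [zero_mul] at h1
  exact le_antisymm h1 bot_le

theorem k5_sign_sub_le (a b : ℝ) : |Real.sign a - Real.sign b| ≤ 2 := by
  have h1 : ∀ a : ℝ, |Real.sign a| ≤ 1 := by
    intro a
    rcases Real.sign_apply_eq a with h | h | h <;> rw [h] <;> norm_num
  calc |Real.sign a - Real.sign b| ≤ |Real.sign a| + |Real.sign b| := abs_sub _ _
    _ ≤ 2 := by linarith [h1 a, h1 b]

theorem k5_isCompact_Qb : IsCompact Qb := by
  have h : Qb = Icc (-1 : ℝ) 2 ×ℂ Icc (-1 : ℝ) 2 := by
    ext z
    simp only [Qb, mem_ofPred_eq, Complex.mem_reProdIm, mem_Icc, and_assoc]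
  rw [h]
  exact isCompact_Icc.reProdIm isCompact_Icc

theorem k5_int_bound {f g : ℂ → ℝ} (hf : Measurable f) (hg : Measurable g) {B : ℝ} (hB : 0 ≤ B)
    (h : volume {z : ℂ | z ∈ Qb ∧ Real.sign (f z) ≠ Real.sign (g z)} ≤ ENNReal.ofReal B) :
    ∫ z in Qb, |Real.sign (f z) - Real.sign (g z)| ≤ B * 2 := by
  set E : Set ℂ := {z | Real.sign (f z) ≠ Real.sign (g z)} with hE
  have hEm : MeasurableSet E := (measurableSet_eq_fun (measurable_rsign.comp hf) (measurable_rsign.comp hg)).compl
  have : IsFiniteMeasure (volume.restrict Qb) := ⟨by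
    rw [Measure.restrict_apply_univ]
    exact k5_isCompact_Qb.measure_lt_top⟩
  calc ∫ z in Qb, |Real.sign (f z) - Real.sign (g z)| ≤ ∫ z in Qb, E.indicator (fun _ => (2 : ℝ)) z := by
        refine integral_mono_of_nonneg (Eventually.of_forall fun z => abs_nonneg _)
          ((integrable_const 2).indicator hEm) (Eventually.of_forall fun z => ?_)
        by_cases hz : z ∈ E
        · rw [indicator_of_mem hz]
          exact k5_sign_sub_le _ _
        · rw [indicator_of_notMem hz]
          have h1 : Real.sign (f z) = Real.sign (g z) := not_not.1 hz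
          show |Real.sign (f z) - Real.sign (g z)| ≤ 0
          rw [h1, sub_self, abs_zero]
    _ = (volume.restrict Qb).real E * 2 := by
        rw [integral_indicator_const _ hEm, smul_eq_mul]
    _ ≤ B * 2 := by
        refine mul_le_mul_of_nonneg_right ?_ zero_le_two
        rw [measureReal_def, Measure.restrict_apply hEm]
        refine ENNReal.toReal_le_of_le_ofReal hB ?_
        have h2 : E ∩ Qb = {z : ℂ | z ∈ Qb ∧ Real.sign (f z) ≠ Real.sign (g z)} := by
          ext z
          exact and_comm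
        rw [h2]
        exact h

theorem sgn_shift {d : ℕ} {c : Fin d → Fin d → ℝ} (hc : c ≠ 0) (t : ℝ) :
    ∫ z in Qb, |Real.sign (pol c (z + t)) - Real.sign (pol c z)| ≤ 12 * d * |t| ∧
    ∫ z in Qb, |Real.sign (pol c (z + Complex.I * t)) - Real.sign (pol c z)| ≤ 12 * d * |t| := by
  have hvol : (volume (Icc (-1 : ℝ) 2)) = ENNReal.ofReal 3 := by
    rw [Real.volume_Icc]
    norm_num
  have hmul : ENNReal.ofReal (2 * |t| * d) * ENNReal.ofReal 3 = ENNReal.ofReal (6 * d * |t|) := by
    rw [← ENNReal.ofReal_mul (by positivity)]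
    congr 1
    ring
  have h12 : 12 * (d : ℝ) * |t| = 6 * d * |t| * 2 := by ring
  have hm1 : Measurable fun z : ℂ => pol c (z + t) := ((k5_continuous_pol c).comp (by fun_prop)).measurable
  have hm2 : Measurable fun z : ℂ => pol c (z + Complex.I * t) := ((k5_continuous_pol c).comp (by fun_prop)).measurable
  have hm0 : Measurable fun z : ℂ => pol c z := (k5_continuous_pol c).measurable
  have hpol : ∀ x y : ℝ, pol c ⟨x, y⟩ = qv c x y := fun x y => rfl
  constructor
  · rw [h12]
    refine k5_int_bound hm1 hm0 (by positivity) ?_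
    have hms : MeasurableSet {z : ℂ | z ∈ Qb ∧ Real.sign (pol c (z + t)) ≠ Real.sign (pol c z)} :=
      k5_isCompact_Qb.measurableSet.inter
        (measurableSet_eq_fun (measurable_rsign.comp hm1) (measurable_rsign.comp hm0)).compl
    rw [k5_volume_complex hms, ← hmul, ← hvol]
    refine k5_plane_bound ?_ measurableSet_Icc ?_ ?_
    · exact Complex.measurableEquivRealProd.symm.measurable hms
    · filter_upwards [sgn_one_qv hc t] with y hy
      refine (measure_mono ?_).trans hy
      intro x hx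
      have h1 : Real.sign (pol c ((⟨x, y⟩ : ℂ) + t)) ≠ Real.sign (pol c ⟨x, y⟩) := hx.2
      have h2 : ((⟨x, y⟩ : ℂ) + t) = ⟨x + t, y⟩ := by
        apply Complex.ext <;> simp
      rw [h2] at h1
      exact h1
    · rintro ⟨x, y⟩ hp
      exact ⟨hp.1.2.2.1, hp.1.2.2.2⟩
  · rw [h12]
    refine k5_int_bound hm2 hm0 (by positivity) ?_
    have hms : MeasurableSet {z : ℂ | z ∈ Qb ∧ Real.sign (pol c (z + Complex.I * t)) ≠ Real.sign (pol c z)} :=
      k5_isCompact_Qb.measurableSet.inter
        (measurableSet_eq_fun (measurable_rsign.comp hm2) (measurable_rsign.comp hm0)).compl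
    rw [k5_volume_complex hms, ← hmul, ← hvol]
    have hc' : (fun a b => c b a) ≠ (0 : Fin d → Fin d → ℝ) := by
      obtain ⟨a, b, hab⟩ := k5_exists_ne hc
      intro h
      exact hab (congrFun (congrFun h b) a)
    refine k5_plane_bound' ?_ measurableSet_Icc ?_ ?_
    · exact Complex.measurableEquivRealProd.symm.measurable hms
    · filter_upwards [sgn_one_qv hc' t] with x hx
      refine (measure_mono ?_).trans hx
      intro y hy
      have h1 : Real.sign (pol c ((⟨x, y⟩ : ℂ) + Complex.I * t)) ≠ Real.sign (pol c ⟨x, y⟩) := hy.2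
      have h2 : ((⟨x, y⟩ : ℂ) + Complex.I * t) = ⟨x, y + t⟩ := by
        apply Complex.ext <;> simp
      rw [h2, hpol, hpol, qv_swap, qv_swap c x y] at h1
      exact h1
    · rintro ⟨x, y⟩ hp
      exact ⟨hp.1.1, hp.1.2.1⟩

theorem sgn_cont {d : ℕ} {c : ℕ → Fin d → Fin d → ℝ} {c₀ : Fin d → Fin d → ℝ} (hc : Tendsto c atTop (𝓝 c₀)) {z : ℂ}
    (hz : pol c₀ z ≠ 0) : Tendsto (fun n => Real.sign (pol (c n) z)) atTop (𝓝 (Real.sign (pol c₀ z))) := by
  have h1 : Tendsto (fun n => pol (c n) z) atTop (𝓝 (pol c₀ z)) := by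
    have h2 : Continuous fun c : Fin d → Fin d → ℝ => pol c z := by
      unfold pol
      fun_prop
    exact (h2.tendsto c₀).comp hc
  rcases lt_or_gt_of_ne hz with h | h
  · rw [Real.sign_of_neg h]
    refine tendsto_const_nhds.congr' ?_
    filter_upwards [h1.eventually_lt_const h] with n hn
    rw [Real.sign_of_neg hn]
  · rw [Real.sign_of_pos h]
    refine tendsto_const_nhds.congr' ?_
    filter_upwards [h1.eventually_const_lt h] with n hn
    rw [Real.sign_of_pos hn]

end Pool.Agent.Helper53.CL.K
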