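import Pool.Agent.Helper53.CL.K.K05
import Pool.Agent.Helper53.CL.Defs

/-!
# CL-K06: mollification of a function with bounded shift differences (about 250 lines)

Let `β : ℂ → ℝ` be a smooth nonnegative bump with support in `closedBall 0 1`, `∫ β = 1`, `ρ_ε z = ε^(-2) β(z/ε)`,
`moll ε s z = ∫ h, s (z - h) ρ_ε h` (convolution; `s` bounded measurable).  `K` depends only on `β`.
(i) smooth (`HasCompactSupport.contDiff_convolution_right`), `|moll| ≤ 1`, `‖gr moll‖ ≤ K/ε` (the integral of `‖gr ρ_ε‖` is `K/ε`).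
(ii) for `h = h₁ + i h₂`, `‖h‖ ≤ 1`: `∫_{Qs} |s(z - h) - s(z)| ≤ 2 M ‖h‖` (first the vertical, then the horizontal shift; `Qs` moved
by at most `1` stays in `Qb`).
(iii) `∫_{Qs} |moll ε s - s| ≤ ∫ ρ_ε h ∫_{Qs} |s(z - h) - s z| dz dh ≤ 2 M ε`.
(iv) `gr (moll ε s) z = ∫ s(z - h) gr ρ_ε(h) dh = ∫ (s(z - h) - s z) gr ρ_ε(h) dh` (`∫ gr ρ_ε = 0`), so
`∫_{Qs} ‖gr moll‖ ≤ ∫ ‖gr ρ_ε(h)‖ 2 M ‖h‖ dh ≤ 2 M ε K/ε = 2 K M`.
(v) `sup_{Qs} |moll ε s - moll ε s'| ≤ K ε^(-2) ∫_{Qb} |s - s'|`.  `moll` is linear in `s`.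
-/

namespace Pool.Agent.Helper53.CL.K

open MeasureTheory Filter Topology Set
open scoped ContDiff

section Bump

open scoped Convolution

/-- The standard bump. -/
noncomputable def k6_bb : ContDiffBump (0 : ℂ) := ⟨1 / 2, 1, by norm_num, by norm_num⟩

/-- The normalised bump. -/
noncomputable def k6_bet : ℂ → ℝ := k6_bb.normed volume

theorem k6_bet_smooth : ContDiff ℝ ∞ k6_bet := k6_bb.contDiff_normed

theorem k6_bet_nonneg (z : ℂ) : 0 ≤ k6_bet z := k6_bb.nonneg_normed z

theorem k6_bet_int : ∫ z, k6_bet z = 1 := k6_bb.integral_normed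

theorem k6_bet_cpt : HasCompactSupport k6_bet := k6_bb.hasCompactSupport_normed

theorem k6_bet_zero {z : ℂ} (h : 1 < ‖z‖) : k6_bet z = 0 := by
  by_contra h0
  have h1 : z ∈ Function.support k6_bet := h0
  rw [k6_bet, k6_bb.support_normed_eq, mem_ball_zero_iff] at h1
  have h2 : k6_bb.rOut = 1 := rfl
  rw [h2] at h1
  linarith

theorem k6_fderiv_bet_zero {z : ℂ} (h : 1 < ‖z‖) : fderiv ℝ k6_bet z = 0 := by
  have h1 : k6_bet =ᶠ[𝓝 z] fun _ => 0 := by
    have h2 : {w : ℂ | 1 < ‖w‖} ∈ 𝓝 z := (isOpen_lt continuous_const continuous_norm).mem_nhds h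
    filter_upwards [h2] with w hw
    exact k6_bet_zero hw
  rw [h1.fderiv_eq]
  simp

/-- The rescaled bump. -/
noncomputable def k6_rho (ε : ℝ) (h : ℂ) : ℝ := (ε⁻¹) ^ 2 * k6_bet (ε⁻¹ • h)

theorem k6_rho_smooth (ε : ℝ) : ContDiff ℝ ∞ (k6_rho ε) :=
  contDiff_const.mul (k6_bet_smooth.comp (contDiff_const_smul ε⁻¹))

theorem k6_rho_nonneg (ε : ℝ) (h : ℂ) : 0 ≤ k6_rho ε h := mul_nonneg (by positivity) (k6_bet_nonneg _)

theorem k6_rho_zero {ε : ℝ} (hε : 0 < ε) {h : ℂ} (hh : ε < ‖h‖) : k6_rho ε h = 0 := by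
  unfold k6_rho
  rw [k6_bet_zero, mul_zero]
  rw [norm_smul, norm_inv, Real.norm_of_nonneg hε.le, inv_mul_eq_div, one_lt_div hε]
  exact hh

theorem k6_rho_int {ε : ℝ} (hε : 0 < ε) : ∫ h, k6_rho ε h = 1 := by
  unfold k6_rho
  rw [integral_const_mul, Measure.integral_comp_smul volume k6_bet ε⁻¹, k6_bet_int, Complex.finrank_real_complex,
    abs_of_nonneg (by positivity), smul_eq_mul, mul_one]
  field_simp

theorem k6_rho_cpt {ε : ℝ} (hε : 0 < ε) : HasCompactSupport (k6_rho ε) := by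
  refine HasCompactSupport.intro (isCompact_closedBall (0 : ℂ) ε) fun x hx => ?_
  refine k6_rho_zero hε ?_
  rw [mem_closedBall_zero_iff, not_le] at hx
  exact hx

theorem hasFDerivAt_rho (ε : ℝ) (h : ℂ) :
    HasFDerivAt (k6_rho ε) ((ε⁻¹) ^ 2 • ((fderiv ℝ k6_bet (ε⁻¹ • h)).comp (ε⁻¹ • ContinuousLinearMap.id ℝ ℂ))) h := by
  have h1 : HasFDerivAt (fun h : ℂ => ε⁻¹ • h) (ε⁻¹ • ContinuousLinearMap.id ℝ ℂ) h :=
    (hasFDerivAt_id h).const_smul ε⁻¹
  have h2 : HasFDerivAt k6_bet (fderiv ℝ k6_bet (ε⁻¹ • h)) (ε⁻¹ • h) :=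
    (k6_bet_smooth.differentiable (by simp) _).hasFDerivAt
  exact (h2.comp h h1).const_mul _

theorem k6_fderiv_rho (ε : ℝ) (h v : ℂ) : fderiv ℝ (k6_rho ε) h v = (ε⁻¹) ^ 3 * fderiv ℝ k6_bet (ε⁻¹ • h) v := by
  rw [(hasFDerivAt_rho ε h).fderiv]
  show (ε⁻¹) ^ 2 * (fderiv ℝ k6_bet (ε⁻¹ • h) (ε⁻¹ • v)) = _
  rw [map_smul, smul_eq_mul]
  ring

theorem exists_bet_bound : ∃ C, 0 < C ∧ (∀ z, k6_bet z ≤ C) ∧ ∀ z v, |fderiv ℝ k6_bet z v| ≤ C * ‖v‖ := by
  obtain ⟨C, hC⟩ := k6_bet_cpt.exists_bound_of_continuous k6_bet_smooth.continuous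
  obtain ⟨C', hC'⟩ := (k6_bet_cpt.fderiv ℝ).exists_bound_of_continuous (k6_bet_smooth.continuous_fderiv (by simp))
  refine ⟨max 1 (max C C'), by positivity, fun z => ?_, fun z v => ?_⟩
  · exact (le_abs_self _).trans ((hC z).trans ((le_max_left _ _).trans (le_max_right _ _)))
  · refine ((fderiv ℝ k6_bet z).le_opNorm v).trans (mul_le_mul_of_nonneg_right ?_ (norm_nonneg _))
    exact (hC' z).trans ((le_max_right _ _).trans (le_max_right _ _))

theorem k6_fderiv_rho_zero {ε : ℝ} (hε : 0 < ε) {h : ℂ} (hh : ε < ‖h‖) (v : ℂ) : fderiv ℝ (k6_rho ε) h v = 0 := by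
  rw [k6_fderiv_rho, k6_fderiv_bet_zero]
  · simp
  · rw [norm_smul, norm_inv, Real.norm_of_nonneg hε.le, inv_mul_eq_div, one_lt_div hε]
    exact hh

theorem continuous_fderiv_rho (ε : ℝ) (v : ℂ) : Continuous fun h => fderiv ℝ (k6_rho ε) h v :=
  ((k6_rho_smooth ε).continuous_fderiv (by simp)).clm_apply continuous_const

theorem cpt_fderiv_rho {ε : ℝ} (hε : 0 < ε) (v : ℂ) : HasCompactSupport fun h => fderiv ℝ (k6_rho ε) h v := by
  refine HasCompactSupport.intro (isCompact_closedBall (0 : ℂ) ε) fun x hx => ?_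
  refine k6_fderiv_rho_zero hε ?_ v
  rw [mem_closedBall_zero_iff, not_le] at hx
  exact hx

theorem int_fderiv_rho {C : ℝ} (hC0 : 0 < C) (hC : ∀ z v, |fderiv ℝ k6_bet z v| ≤ C * ‖v‖) {ε : ℝ} (hε : 0 < ε)
    {v : ℂ} (hv : ‖v‖ = 1) : ∫ h, |fderiv ℝ (k6_rho ε) h v| ≤ C * Real.pi / ε := by
  have hfin : volume (Metric.closedBall (0 : ℂ) ε) ≠ ⊤ := (isCompact_closedBall (0 : ℂ) ε).measure_lt_top.ne
  calc ∫ h, |fderiv ℝ (k6_rho ε) h v|
      ≤ ∫ h, (Metric.closedBall (0 : ℂ) ε).indicator (fun _ => (ε⁻¹) ^ 3 * C) h := by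
        refine integral_mono_of_nonneg (Eventually.of_forall fun z => abs_nonneg _) ?_
          (Eventually.of_forall fun z => ?_)
        · exact (integrable_indicator_iff measurableSet_closedBall).2 (integrableOn_const hfin)
        · by_cases hz : z ∈ Metric.closedBall (0 : ℂ) ε
          · rw [indicator_of_mem hz]
            show |fderiv ℝ (k6_rho ε) z v| ≤ _
            rw [k6_fderiv_rho, abs_mul, abs_of_nonneg (by positivity : (0 : ℝ) ≤ (ε⁻¹) ^ 3)]
            refine mul_le_mul_of_nonneg_left ?_ (by positivity)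
            have := hC (ε⁻¹ • z) v
            rwa [hv, mul_one] at this
          · rw [indicator_of_notMem hz]
            rw [mem_closedBall_zero_iff, not_le] at hz
            show |fderiv ℝ (k6_rho ε) z v| ≤ 0
            rw [k6_fderiv_rho_zero hε hz, abs_zero]
    _ = ε ^ 2 * Real.pi * ((ε⁻¹) ^ 3 * C) := by
        rw [integral_indicator_const _ measurableSet_closedBall, smul_eq_mul, measureReal_def,
          Complex.volume_closedBall]
        congr 1
        rw [ENNReal.toReal_mul, ENNReal.toReal_pow, ENNReal.toReal_ofReal hε.le]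
        rfl
    _ = C * Real.pi / ε := by
        field_simp

/-- The mollification. -/
noncomputable def moll (ε : ℝ) (s : ℂ → ℝ) (z : ℂ) : ℝ := ∫ h, k6_rho ε h * s (z - h)

theorem moll_eq (ε : ℝ) (s : ℂ → ℝ) :
    moll ε s = k6_rho ε ⋆[ContinuousLinearMap.lsmul ℝ ℝ, volume] s := rfl

theorem k6_locInt {s : ℂ → ℝ} (hs : Measurable s) (hb : ∀ z, |s z| ≤ 1) : LocallyIntegrable s volume := by
  have h1 : LocallyIntegrable (fun _ : ℂ => (1 : ℝ)) volume := locallyIntegrable_const 1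
  refine h1.mono hs.aestronglyMeasurable (Eventually.of_forall fun z => ?_)
  rw [Real.norm_eq_abs]
  exact (hb z).trans (by simp)

theorem moll_smooth {ε : ℝ} (hε : 0 < ε) {s : ℂ → ℝ} (hs : Measurable s) (hb : ∀ z, |s z| ≤ 1) :
    ContDiff ℝ ∞ (moll ε s) := by
  rw [moll_eq]
  exact (k6_rho_cpt hε).contDiff_convolution_left _ (k6_rho_smooth ε) (k6_locInt hs hb)

theorem k6_kint {k : ℂ → ℝ} (hk : Continuous k) (hkc : HasCompactSupport k) {s : ℂ → ℝ} (hs : Measurable s)
    {B : ℝ} (hb : ∀ z, |s z| ≤ B) : Integrable fun h => k h * s h := by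
  have h1 : Integrable fun h => B * |k h| := (hk.integrable_of_hasCompactSupport hkc).norm.const_mul B
  refine h1.mono' (hk.measurable.mul hs).aestronglyMeasurable (Eventually.of_forall fun h => ?_)
  rw [norm_mul, Real.norm_eq_abs, Real.norm_eq_abs, mul_comm]
  exact mul_le_mul_of_nonneg_right (hb h) (abs_nonneg _)

theorem fderiv_moll {ε : ℝ} (hε : 0 < ε) {s : ℂ → ℝ} (hs : Measurable s) (hb : ∀ z, |s z| ≤ 1) (z v : ℂ) :
    fderiv ℝ (moll ε s) z v = ∫ h, fderiv ℝ (k6_rho ε) h v * s (z - h) := by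
  have h1 := (k6_rho_cpt hε).hasFDerivAt_convolution_left (ContinuousLinearMap.lsmul ℝ ℝ)
    ((k6_rho_smooth ε).of_le (by simp)) (k6_locInt hs hb) z
  rw [← moll_eq] at h1
  rw [h1.fderiv]
  have hex : Integrable (fun t => ((ContinuousLinearMap.lsmul ℝ ℝ : ℝ →L[ℝ] ℝ →L[ℝ] ℝ).precompL ℂ)
      (fderiv ℝ (k6_rho ε) t) (s (z - t))) volume :=
    ((k6_rho_cpt hε).fderiv ℝ).convolutionExists_left _ ((k6_rho_smooth ε).continuous_fderiv (by simp)) (k6_locInt hs hb) z
  rw [convolution_def, ContinuousLinearMap.integral_apply hex]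
  rfl

end Bump

theorem int_fderiv_rho_zero {ε : ℝ} (hε : 0 < ε) (v : ℂ) : ∫ h, fderiv ℝ (k6_rho ε) h v = 0 := by
  have h1 := fderiv_moll hε (s := fun _ => 1) measurable_const (by simp) 0 v
  have h2 : moll ε (fun _ => 1) = fun _ => 1 := by
    funext z
    unfold moll
    simp only [mul_one]
    exact k6_rho_int hε
  rw [h2] at h1
  simp only [mul_one] at h1
  rw [← h1]
  simp

theorem moll_sub {ε : ℝ} (hε : 0 < ε) {s : ℂ → ℝ} (hs : Measurable s) (hb : ∀ z, |s z| ≤ 1) (z : ℂ) :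
    moll ε s z - s z = ∫ h, k6_rho ε h * (s (z - h) - s z) := by
  have h1 : Integrable fun h => k6_rho ε h * s (z - h) :=
    k6_kint (k6_rho_smooth ε).continuous (k6_rho_cpt hε) (s := fun h => s (z - h))
      (hs.comp (measurable_const.sub measurable_id)) (fun h => hb _)
  have h2 : Integrable fun h => k6_rho ε h * s z :=
    k6_kint (k6_rho_smooth ε).continuous (k6_rho_cpt hε) measurable_const (fun _ => le_rfl)
  simp only [mul_sub]
  rw [integral_sub h1 h2, integral_mul_const, k6_rho_int hε, one_mul]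
  rfl

theorem fderiv_moll_sub {ε : ℝ} (hε : 0 < ε) {s : ℂ → ℝ} (hs : Measurable s) (hb : ∀ z, |s z| ≤ 1) (z v : ℂ) :
    fderiv ℝ (moll ε s) z v = ∫ h, fderiv ℝ (k6_rho ε) h v * (s (z - h) - s z) := by
  have h1 : Integrable fun h => fderiv ℝ (k6_rho ε) h v * s (z - h) :=
    k6_kint (continuous_fderiv_rho ε v) (cpt_fderiv_rho hε v) (s := fun h => s (z - h))
      (hs.comp (measurable_const.sub measurable_id)) (fun h => hb _)
  have h2 : Integrable fun h => fderiv ℝ (k6_rho ε) h v * s z :=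
    k6_kint (continuous_fderiv_rho ε v) (cpt_fderiv_rho hε v) measurable_const (fun _ => le_rfl)
  simp only [mul_sub]
  rw [integral_sub h1 h2, integral_mul_const, int_fderiv_rho_zero hε, zero_mul, sub_zero]
  exact fderiv_moll hε hs hb z v

theorem k6_isCompact_Qs : IsCompact Qs := by
  have h : Qs = Icc (0 : ℝ) 1 ×ℂ Icc (0 : ℝ) 1 := by
    ext z
    simp only [Qs, mem_ofPred_eq, Complex.mem_reProdIm, mem_Icc, and_assoc]
  rw [h]
  exact isCompact_Icc.reProdIm isCompact_Icc

theorem k6_Qs_sub {z h : ℂ} (hz : z ∈ Qs) (hh : ‖h‖ ≤ 1) : z - h ∈ Qb := by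
  have h1 : |h.re| ≤ 1 := (Complex.abs_re_le_norm h).trans hh
  have h2 : |h.im| ≤ 1 := (Complex.abs_im_le_norm h).trans hh
  rw [abs_le] at h1 h2
  obtain ⟨a1, a2, a3, a4⟩ := hz
  refine ⟨?_, ?_, ?_, ?_⟩
  · rw [Complex.sub_re]; linarith
  · rw [Complex.sub_re]; linarith
  · rw [Complex.sub_im]; linarith
  · rw [Complex.sub_im]; linarith

theorem k6_Qs_subset : Qs ⊆ Qb := fun z hz => by
  have := k6_Qs_sub hz (h := 0) (by simp)
  rwa [sub_zero] at this

/-- Bounded measurable functions are integrable on `Qb`. -/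
theorem k6_intOn {f : ℂ → ℝ} (hf : Measurable f) {B : ℝ} (hB : ∀ z, |f z| ≤ B) {E : Set ℂ} (hE : IsCompact E) :
    IntegrableOn f E := by
  have h1 : IntegrableOn (fun _ : ℂ => B) E := integrableOn_const hE.measure_lt_top.ne
  exact h1.mono' hf.aestronglyMeasurable (Eventually.of_forall fun z => hB z)

theorem k6_translate_le {f : ℂ → ℝ} (hf : Measurable f) {B : ℝ} (hB : ∀ z, |f z| ≤ B) (h0 : ∀ z, 0 ≤ f z) {h : ℂ}
    (hh : ‖h‖ ≤ 1) : ∫ z in Qs, f (z - h) ≤ ∫ z in Qb, f z := by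
  rw [← integral_indicator k6_isCompact_Qs.measurableSet, ← integral_indicator k5_isCompact_Qb.measurableSet]
  have h1 : ∫ z, Qs.indicator (fun z => f (z - h)) z ≤ ∫ z, Qb.indicator f (z - h) := by
    refine integral_mono_of_nonneg (Eventually.of_forall fun z => indicator_nonneg (fun _ _ => h0 _) _) ?_
      (Eventually.of_forall fun z => ?_)
    · have h2 : Integrable (Qb.indicator f) :=
        (integrable_indicator_iff k5_isCompact_Qb.measurableSet).2 (k6_intOn hf hB k5_isCompact_Qb)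
      exact h2.comp_sub_right h
    · by_cases hz : z ∈ Qs
      · show Qs.indicator (fun z => f (z - h)) z ≤ _
        rw [indicator_of_mem hz]
        show _ ≤ Qb.indicator f (z - h)
        rw [indicator_of_mem (k6_Qs_sub hz hh)]
      · show Qs.indicator (fun z => f (z - h)) z ≤ _
        rw [indicator_of_notMem hz]
        exact indicator_nonneg (fun _ _ => h0 _) _
  refine h1.trans (le_of_eq ?_)
  exact integral_sub_right_eq_self (Qb.indicator f) h

/-- The hypothesis on the shifts. -/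
def ShiftBound (s : ℂ → ℝ) (M : ℝ) : Prop :=
  ∀ t : ℝ, |t| ≤ 1 → ∫ z in Qb, |s (z + t) - s z| ≤ M * |t| ∧
    ∫ z in Qb, |s (z + Complex.I * t) - s z| ≤ M * |t|

theorem ShiftBound.nonneg {s : ℂ → ℝ} {M : ℝ} (hM : ShiftBound s M) : 0 ≤ M := by
  have h1 := (hM 1 (by simp)).1
  have h2 : 0 ≤ ∫ z in Qb, |s (z + ((1 : ℝ) : ℂ)) - s z| := integral_nonneg fun z => abs_nonneg _
  have h3 : |(1 : ℝ)| = 1 := abs_one
  rw [h3, mul_one] at h1
  exact h2.trans h1

theorem k6_shift_le {s : ℂ → ℝ} (hs : Measurable s) (hb : ∀ z, |s z| ≤ 1) {M : ℝ} (hM : ShiftBound s M) {h : ℂ}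
    (hh : ‖h‖ ≤ 1) : ∫ z in Qs, |s (z - h) - s z| ≤ 2 * M * ‖h‖ := by
  have hM0 := hM.nonneg
  have h1 : |h.re| ≤ ‖h‖ := Complex.abs_re_le_norm h
  have h2 : |h.im| ≤ ‖h‖ := Complex.abs_im_le_norm h
  -- the vertical part
  set a : ℂ := Complex.I * h.im with ha
  have hna : ‖a‖ ≤ 1 := by
    rw [ha, norm_mul, Complex.norm_I, one_mul, Complex.norm_real, Real.norm_eq_abs]
    exact h2.trans hh
  set f : ℂ → ℝ := fun z => |s (z + ((-h.re : ℝ) : ℂ)) - s z| with hf
  have hbd2 : ∀ z w : ℂ, |s z - s w| ≤ 2 := fun z w => by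
    calc |s z - s w| ≤ |s z| + |s w| := abs_sub _ _
      _ ≤ 2 := by linarith [hb z, hb w]
  have hfm : Measurable f := ((hs.comp (measurable_id.add measurable_const)).sub hs).abs
  have hfb : ∀ z, |f z| ≤ 2 := fun z => by
    show |(|s (z + ((-h.re : ℝ) : ℂ)) - s z|)| ≤ 2
    rw [abs_abs]
    exact hbd2 _ _
  have e1 : ∫ z in Qs, f (z - a) ≤ M * |h.re| := by
    refine (k6_translate_le hfm hfb (fun z => abs_nonneg _) hna).trans ?_
    have := (hM (-h.re) (by rw [abs_neg]; exact h1.trans hh)).1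
    rwa [abs_neg] at this
  have hgm : Measurable fun z : ℂ => |s (z - a) - s z| := ((hs.comp (measurable_id.sub measurable_const)).sub hs).abs
  have e2 : ∫ z in Qs, |s (z - a) - s z| ≤ M * |h.im| := by
    have h3 := (hM (-h.im) (by rw [abs_neg]; exact h2.trans hh)).2
    rw [abs_neg] at h3
    refine le_trans ?_ h3
    have h4 : (fun z : ℂ => |s (z + Complex.I * ((-h.im : ℝ) : ℂ)) - s z|) = fun z : ℂ => |s (z - a) - s z| := by
      funext z
      have h5 : z + Complex.I * ((-h.im : ℝ) : ℂ) = z - a := by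
        rw [ha]
        push_cast
        ring
      rw [h5]
    rw [h4]
    refine setIntegral_mono_set (k6_intOn hgm (B := 2) (fun z => ?_) k5_isCompact_Qb)
      (Eventually.of_forall fun z => abs_nonneg _) k6_Qs_subset.eventuallyLE
    rw [abs_abs]
    exact hbd2 _ _
  have hfa : Measurable fun z : ℂ => f (z - a) := hfm.comp (measurable_id.sub measurable_const)
  have i1 : IntegrableOn (fun z : ℂ => f (z - a)) Qs := k6_intOn hfa (fun z => hfb _) k6_isCompact_Qs
  have i2 : IntegrableOn (fun z : ℂ => |s (z - a) - s z|) Qs := k6_intOn hgm (B := 2) (fun z => by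
    rw [abs_abs]
    exact hbd2 _ _) k6_isCompact_Qs
  calc ∫ z in Qs, |s (z - h) - s z| ≤ ∫ z in Qs, (f (z - a) + |s (z - a) - s z|) := by
        refine integral_mono_of_nonneg (Eventually.of_forall fun z => abs_nonneg _) (i1.add i2)
          (Eventually.of_forall fun z => ?_)
        have h5 : z - a + ((-h.re : ℝ) : ℂ) = z - h := by
          rw [ha]
          apply Complex.ext <;> simp
          ring
        show |s (z - h) - s z| ≤ |s (z - a + ((-h.re : ℝ) : ℂ)) - s (z - a)| + |s (z - a) - s z|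
        rw [h5]
        exact abs_sub_le _ _ _
    _ = (∫ z in Qs, f (z - a)) + ∫ z in Qs, |s (z - a) - s z| := integral_add i1 i2
    _ ≤ M * |h.re| + M * |h.im| := add_le_add e1 e2
    _ ≤ M * ‖h‖ + M * ‖h‖ :=
        add_le_add (mul_le_mul_of_nonneg_left h1 hM0) (mul_le_mul_of_nonneg_left h2 hM0)
    _ = 2 * M * ‖h‖ := by ring

theorem k6_kernel_L1 {k : ℂ → ℝ} (hk : Continuous k) (hkc : HasCompactSupport k) {ε : ℝ} (hε1 : ε ≤ 1)
    (hk0 : ∀ h, ε < ‖h‖ → k h = 0) {s : ℂ → ℝ} (hs : Measurable s) (hb : ∀ z, |s z| ≤ 1) {M : ℝ}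
    (hM : ShiftBound s M) {F : ℂ → ℝ} (hF : ∀ z, |F z| ≤ ∫ h, |k h| * |s (z - h) - s z|) :
    ∫ z in Qs, |F z| ≤ 2 * M * ε * ∫ h, |k h| := by
  have hM0 := hM.nonneg
  have hbd2 : ∀ z w : ℂ, |s z - s w| ≤ 2 := fun z w => by
    calc |s z - s w| ≤ |s z| + |s w| := abs_sub _ _
      _ ≤ 2 := by linarith [hb z, hb w]
  have : IsFiniteMeasure (volume.restrict Qs) := ⟨by
    rw [Measure.restrict_apply_univ]
    exact k6_isCompact_Qs.measure_lt_top⟩
  have hint : Integrable (Function.uncurry fun (z h : ℂ) => |k h| * |s (z - h) - s z|)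
      ((volume.restrict Qs).prod volume) := by
    have h1 : Integrable (fun p : ℂ × ℂ => (1 : ℝ) * (2 * |k p.2|)) ((volume.restrict Qs).prod volume) :=
      (integrable_const (1 : ℝ)).mul_prod ((hk.integrable_of_hasCompactSupport hkc).norm.const_mul 2)
    refine h1.mono' ?_ (Eventually.of_forall fun p => ?_)
    · have h2 : Measurable fun p : ℂ × ℂ => |k p.2| * |s (p.1 - p.2) - s p.1| :=
        (hk.measurable.comp measurable_snd).abs.mul
          (((hs.comp (measurable_fst.sub measurable_snd)).sub (hs.comp measurable_fst)).abs)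
      exact h2.aestronglyMeasurable
    · show ‖|k p.2| * |s (p.1 - p.2) - s p.1|‖ ≤ 1 * (2 * |k p.2|)
      rw [norm_mul, Real.norm_eq_abs, Real.norm_eq_abs, abs_abs, abs_abs, one_mul, mul_comm 2]
      exact mul_le_mul_of_nonneg_left (hbd2 _ _) (abs_nonneg _)
  calc ∫ z in Qs, |F z| ≤ ∫ z in Qs, ∫ h, |k h| * |s (z - h) - s z| := by
        refine integral_mono_of_nonneg (Eventually.of_forall fun z => abs_nonneg _) ?_ (Eventually.of_forall hF)
        exact hint.integral_prod_left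
    _ = ∫ h, ∫ z in Qs, |k h| * |s (z - h) - s z| := integral_integral_swap hint
    _ ≤ ∫ h, 2 * M * ε * |k h| := by
        refine integral_mono_of_nonneg (Eventually.of_forall fun h => integral_nonneg fun z => by positivity)
          ((hk.integrable_of_hasCompactSupport hkc).norm.const_mul _) (Eventually.of_forall fun h => ?_)
        show ∫ z in Qs, |k h| * |s (z - h) - s z| ≤ 2 * M * ε * |k h|
        rw [integral_const_mul]
        rcases le_or_gt ‖h‖ ε with h1 | h1
        · have h2 := k6_shift_le hs hb hM (h1.trans hε1)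
          have h3 : 2 * M * ‖h‖ ≤ 2 * M * ε := mul_le_mul_of_nonneg_left h1 (by positivity)
          rw [mul_comm]
          exact mul_le_mul_of_nonneg_right (h2.trans h3) (abs_nonneg _)
        · rw [hk0 h h1, abs_zero, zero_mul, mul_zero]
    _ = 2 * M * ε * ∫ h, |k h| := integral_const_mul _ _

theorem k6_gr_le (f : ℂ → ℝ) (z : ℂ) : ‖gr f z‖ ≤ |dx f z| + |dy f z| :=
  Complex.norm_le_abs_re_add_abs_im _

theorem exists_moll : ∃ (K : ℝ) (moll : ℝ → (ℂ → ℝ) → ℂ → ℝ), 0 < K ∧
    ∀ ε ∈ Ioc (0 : ℝ) 1, ∀ s : ℂ → ℝ, Measurable s → (∀ z, |s z| ≤ 1) →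
      ContDiff ℝ ∞ (moll ε s) ∧ (∀ z, |moll ε s z| ≤ 1) ∧ (∀ z, ‖gr (moll ε s) z‖ ≤ K / ε) ∧
      (∀ z, moll ε (fun z => -s z) z = -moll ε s z) ∧
      (∀ s' : ℂ → ℝ, Measurable s' → (∀ z, |s' z| ≤ 1) →
        ∀ z ∈ Qs, |moll ε s z - moll ε s' z| ≤ K / ε ^ 2 * ∫ z in Qb, |s z - s' z|) ∧
      ∀ M : ℝ, (∀ t : ℝ, |t| ≤ 1 → ∫ z in Qb, |s (z + t) - s z| ≤ M * |t| ∧
          ∫ z in Qb, |s (z + Complex.I * t) - s z| ≤ M * |t|) →
        ∫ z in Qs, |moll ε s z - s z| ≤ K * M * ε ∧ ∫ z in Qs, ‖gr (moll ε s) z‖ ≤ K * M := by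
  obtain ⟨C, hC0, hCb, hCd⟩ := exists_bet_bound
  have hpi : 0 < Real.pi := Real.pi_pos
  refine ⟨C + 2 + 4 * Real.pi * C, moll, by positivity, ?_⟩
  rintro ε ⟨hε, hε1⟩ s hs hb
  have hI1 : ‖Complex.I‖ = 1 := Complex.norm_I
  have h11 : ‖(1 : ℂ)‖ = 1 := norm_one
  have hKx := int_fderiv_rho hC0 hCd hε h11
  have hKy := int_fderiv_rho hC0 hCd hε hI1
  have hsh : ∀ z, Measurable fun h => s (z - h) := fun z => hs.comp (measurable_const.sub measurable_id)
  have hrc := (k6_rho_smooth ε).continuous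
  have hri : ∀ z, Integrable fun h => k6_rho ε h * s (z - h) := fun z =>
    k6_kint hrc (k6_rho_cpt hε) (hsh z) (fun h => hb _)
  have hder : ∀ v : ℂ, ‖v‖ = 1 → ∀ z, |fderiv ℝ (moll ε s) z v| ≤ ∫ h, |fderiv ℝ (k6_rho ε) h v| := by
    intro v hv z
    rw [fderiv_moll hε hs hb]
    refine (abs_integral_le_integral_abs).trans ?_
    refine integral_mono_of_nonneg (Eventually.of_forall fun h => abs_nonneg _)
      ((continuous_fderiv_rho ε v).integrable_of_hasCompactSupport (cpt_fderiv_rho hε v)).norm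
      (Eventually.of_forall fun h => ?_)
    show |fderiv ℝ (k6_rho ε) h v * s (z - h)| ≤ |fderiv ℝ (k6_rho ε) h v|
    rw [abs_mul]
    calc |fderiv ℝ (k6_rho ε) h v| * |s (z - h)| ≤ |fderiv ℝ (k6_rho ε) h v| * 1 :=
          mul_le_mul_of_nonneg_left (hb _) (abs_nonneg _)
      _ = _ := mul_one _
  refine ⟨moll_smooth hε hs hb, ?_, ?_, ?_, ?_, ?_⟩
  · intro z
    refine (abs_integral_le_integral_abs).trans ?_
    rw [← k6_rho_int hε]
    refine integral_mono_of_nonneg (Eventually.of_forall fun h => abs_nonneg _)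
      (hrc.integrable_of_hasCompactSupport (k6_rho_cpt hε)) (Eventually.of_forall fun h => ?_)
    show |k6_rho ε h * s (z - h)| ≤ k6_rho ε h
    rw [abs_mul, abs_of_nonneg (k6_rho_nonneg ε h)]
    calc k6_rho ε h * |s (z - h)| ≤ k6_rho ε h * 1 := mul_le_mul_of_nonneg_left (hb _) (k6_rho_nonneg ε h)
      _ = _ := mul_one _
  · intro z
    refine (k6_gr_le _ z).trans ?_
    have h1 := (hder 1 h11 z).trans hKx
    have h2 := (hder Complex.I hI1 z).trans hKy
    calc |dx (moll ε s) z| + |dy (moll ε s) z| ≤ C * Real.pi / ε + C * Real.pi / ε := add_le_add h1 h2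
      _ = 2 * Real.pi * C / ε := by ring
      _ ≤ (C + 2 + 4 * Real.pi * C) / ε := by
          refine div_le_div_of_nonneg_right ?_ hε.le
          have : 0 < Real.pi * C := by positivity
          nlinarith
  · intro z
    unfold moll
    rw [← integral_neg]
    refine integral_congr_ae (Eventually.of_forall fun h => ?_)
    show k6_rho ε h * -s (z - h) = -(k6_rho ε h * s (z - h))
    ring
  · intro s' hs' hb' z hz
    have hsh' : Measurable fun h => s' (z - h) := hs'.comp (measurable_const.sub measurable_id)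
    have hri' : Integrable fun h => k6_rho ε h * s' (z - h) :=
      k6_kint hrc (k6_rho_cpt hε) hsh' (fun h => hb' _)
    have hbd2 : ∀ z : ℂ, |s z - s' z| ≤ 2 := fun z => by
      calc |s z - s' z| ≤ |s z| + |s' z| := abs_sub _ _
        _ ≤ 2 := by linarith [hb z, hb' z]
    have hfi : Integrable (Qb.indicator fun z => |s z - s' z|) :=
      (integrable_indicator_iff k5_isCompact_Qb.measurableSet).2 (k6_intOn (hs.sub hs').abs (B := 2) (fun z => by
        rw [abs_abs]
        exact hbd2 z) k5_isCompact_Qb)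
    have h1 : moll ε s z - moll ε s' z = ∫ h, k6_rho ε h * (s (z - h) - s' (z - h)) := by
      unfold moll
      rw [← integral_sub (hri z) hri']
      refine integral_congr_ae (Eventually.of_forall fun h => ?_)
      show k6_rho ε h * s (z - h) - k6_rho ε h * s' (z - h) = _
      ring
    rw [h1]
    refine (abs_integral_le_integral_abs).trans ?_
    calc ∫ h, |k6_rho ε h * (s (z - h) - s' (z - h))|
        ≤ ∫ h, (C / ε ^ 2) * (Qb.indicator (fun z => |s z - s' z|) (z - h)) := by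
          refine integral_mono_of_nonneg (Eventually.of_forall fun h => abs_nonneg _)
            ((hfi.comp_sub_left z).const_mul _) (Eventually.of_forall fun h => ?_)
          show |k6_rho ε h * (s (z - h) - s' (z - h))| ≤ _
          show _ ≤ C / ε ^ 2 * Qb.indicator (fun z => |s z - s' z|) (z - h)
          rcases le_or_gt ‖h‖ ε with h2 | h2
          · rw [indicator_of_mem (k6_Qs_sub hz (h2.trans hε1)), abs_mul, abs_of_nonneg (k6_rho_nonneg ε h)]
            refine mul_le_mul_of_nonneg_right ?_ (abs_nonneg _)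
            unfold k6_rho
            calc (ε⁻¹) ^ 2 * k6_bet (ε⁻¹ • h) ≤ (ε⁻¹) ^ 2 * C := mul_le_mul_of_nonneg_left (hCb _) (by positivity)
              _ = C / ε ^ 2 := by field_simp
          · rw [k6_rho_zero hε h2, zero_mul, abs_zero]
            exact mul_nonneg (by positivity) (indicator_nonneg (fun _ _ => abs_nonneg _) _)
      _ = C / ε ^ 2 * ∫ z in Qb, |s z - s' z| := by
          rw [integral_const_mul, integral_sub_left_eq_self (Qb.indicator fun z => |s z - s' z|) volume z,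
            integral_indicator k5_isCompact_Qb.measurableSet]
      _ ≤ (C + 2 + 4 * Real.pi * C) / ε ^ 2 * ∫ z in Qb, |s z - s' z| := by
          refine mul_le_mul_of_nonneg_right ?_ (integral_nonneg fun z => abs_nonneg _)
          refine div_le_div_of_nonneg_right ?_ (by positivity)
          have : 0 < Real.pi * C := by positivity
          nlinarith
  · intro M hM
    have hM' : ShiftBound s M := hM
    have hM0 := hM'.nonneg
    have hnn : 0 ≤ C * M := by positivity
    constructor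
    · have h1 := k6_kernel_L1 hrc (k6_rho_cpt hε) hε1 (fun h hh => k6_rho_zero hε hh) hs hb hM'
        (F := fun z => moll ε s z - s z) (fun z => by
          rw [moll_sub hε hs hb]
          refine (abs_integral_le_integral_abs).trans (le_of_eq ?_)
          simp only [abs_mul])
      have h2 : ∫ h, |k6_rho ε h| = 1 := by
        rw [← k6_rho_int hε]
        exact integral_congr_ae (Eventually.of_forall fun h => abs_of_nonneg (k6_rho_nonneg ε h))
      rw [h2, mul_one] at h1
      refine h1.trans ?_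
      have h3 : 2 * M ≤ (C + 2 + 4 * Real.pi * C) * M := by
        have : 0 ≤ Real.pi * (C * M) := by positivity
        nlinarith
      exact mul_le_mul_of_nonneg_right h3 hε.le
    · have hpart : ∀ v : ℂ, ‖v‖ = 1 → ∫ z in Qs, |fderiv ℝ (moll ε s) z v| ≤ 2 * M * (C * Real.pi) := by
        intro v hv
        have h1 := k6_kernel_L1 (continuous_fderiv_rho ε v) (cpt_fderiv_rho hε v) hε1
          (fun h hh => k6_fderiv_rho_zero hε hh v) hs hb hM'
          (F := fun z => fderiv ℝ (moll ε s) z v) (fun z => by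
            rw [fderiv_moll_sub hε hs hb]
            refine (abs_integral_le_integral_abs).trans (le_of_eq ?_)
            simp only [abs_mul])
        refine h1.trans ?_
        calc 2 * M * ε * ∫ h, |fderiv ℝ (k6_rho ε) h v| ≤ 2 * M * ε * (C * Real.pi / ε) :=
              mul_le_mul_of_nonneg_left (int_fderiv_rho hC0 hCd hε hv) (by positivity)
          _ = 2 * M * (C * Real.pi) := by field_simp
      have hcont : ∀ v : ℂ, IntegrableOn (fun z => |fderiv ℝ (moll ε s) z v|) Qs := by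
        intro v
        have h1 : Continuous fun z => |fderiv ℝ (moll ε s) z v| :=
          (((moll_smooth hε hs hb).continuous_fderiv (by simp)).clm_apply continuous_const).abs
        exact h1.continuousOn.integrableOn_compact k6_isCompact_Qs
      calc ∫ z in Qs, ‖gr (moll ε s) z‖
          ≤ ∫ z in Qs, (|fderiv ℝ (moll ε s) z 1| + |fderiv ℝ (moll ε s) z Complex.I|) := by
            refine integral_mono_of_nonneg (Eventually.of_forall fun z => norm_nonneg _)
              ((hcont 1).add (hcont Complex.I)) (Eventually.of_forall fun z => k6_gr_le _ z)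
        _ = (∫ z in Qs, |fderiv ℝ (moll ε s) z 1|) + ∫ z in Qs, |fderiv ℝ (moll ε s) z Complex.I| :=
            integral_add (hcont 1) (hcont Complex.I)
        _ ≤ 2 * M * (C * Real.pi) + 2 * M * (C * Real.pi) := add_le_add (hpart 1 h11) (hpart Complex.I hI1)
        _ ≤ (C + 2 + 4 * Real.pi * C) * M := by nlinarith

end Pool.Agent.Helper53.CL.K
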