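import Mathlib

/-!
# CL-K10: Riemann sums with squares of equal weight (plane geometry, independent, about 300 lines)

Closed squares `sq z l = z + l [0,1]^2`, open squares `osq z l`.  Finitely many open sets `G i ⊆ ball 0 1` with null frontier and
positive continuous functions `a i` on `closedBall 0 2`.

`exists_cover` (upper sums).  For the grid of side `Λ = 1/K` let `m_q = sup of a i on the closed grid square q` for the closed grid
squares `q` meeting `closure (G i)` (inside `closedBall 0 2` for `K ≥ 4`).  The functions `f_K = ∑_q m_q 1_q` satisfy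
`limsup f_K ≤ a i 1_{closure (G i)}` almost everywhere and are bounded, so `∑_i ∑_q Λ^2 m_q ≤ ∑_i ∫_{G i} a i + d/2` for some `K`
(Fatou/dominated convergence for the limsup; `closure (G i) \ G i` is null).  For `l > 0` divide `q` in `n_q^2` squares,
`n_q = ⌈Λ √m_q / l⌉`, side `lam = Λ / n_q`, so `a lam^2 ≤ m_q Λ^2 / n_q^2 ≤ l^2`.  Their number `n = ∑ n_q^2 ≤ ∑ (Λ √m_q / l + 1)^2`,
and with `M = ⌈√n⌉ + 1`: `M^2 l^2 ≤ (√(n l^2) + 2 l)^2 → ∑ Λ^2 m_q` as `l → 0`, so `M^2 l^2 ≤ ∑_i ∫ a i + d` for `l` small.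

`exists_pack` (lower sums).  The same with the grid squares `q ⊆ G i`, `m_q = min of a i on q`, `∑_i ∑_q Λ^2 m_q ≥ ∑ ∫ a i - d/2`
(for `z ∈ G i` not on the grid lines `f_K z → a i z`); `n_q = ⌊Λ √m_q / l⌋`, `lam = l / √m_q`, `n_q^2` squares of side `lam`
in `q`, `a lam^2 ≥ m_q lam^2 = l^2`, `N = ∑ n_q^2`, `N l^2 ≥ ∑ (Λ √m_q - l)_+^2`.
-/

namespace Pool.Agent.Helper53.CL.K

open MeasureTheory Filter Topology Set Metric

/-- Closed square with lower left corner `z` and side `l`. -/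
def sq (z : ℂ) (l : ℝ) : Set ℂ := {y | z.re ≤ y.re ∧ y.re ≤ z.re + l ∧ z.im ≤ y.im ∧ y.im ≤ z.im + l}

/-- Open square with lower left corner `z` and side `l`. -/
def osq (z : ℂ) (l : ℝ) : Set ℂ := {y | z.re < y.re ∧ y.re < z.re + l ∧ z.im < y.im ∧ y.im < z.im + l}

/-- Half open square. -/
private def hsq (z : ℂ) (l : ℝ) : Set ℂ :=
  {y | z.re ≤ y.re ∧ y.re < z.re + l ∧ z.im ≤ y.im ∧ y.im < z.im + l}

/-- Grid point. -/
private noncomputable def gp (z : ℂ) (lam : ℝ) (p q : ℕ) : ℂ := ⟨z.re + p * lam, z.im + q * lam⟩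

private theorem hsq_sub_sq (z : ℂ) (l : ℝ) : hsq z l ⊆ sq z l := fun _ h => ⟨h.1, h.2.1.le, h.2.2.1, h.2.2.2.le⟩

private theorem osq_sub_sq (z : ℂ) (l : ℝ) : osq z l ⊆ sq z l := fun _ h => ⟨h.1.le, h.2.1.le, h.2.2.1.le, h.2.2.2.le⟩

private theorem osq_mono (z : ℂ) {l l' : ℝ} (h : l ≤ l') : osq z l ⊆ osq z l' :=
  fun _ hy => ⟨hy.1, by linarith [hy.2.1], hy.2.2.1, by linarith [hy.2.2.2]⟩

private theorem sq_mono (z : ℂ) {l l' : ℝ} (h : l ≤ l') : sq z l ⊆ sq z l' :=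
  fun _ hy => ⟨hy.1, by linarith [hy.2.1], hy.2.2.1, by linarith [hy.2.2.2]⟩

private theorem gp_bd {n p : ℕ} (hp : p < n) {lam : ℝ} (hl : 0 < lam) : ((p : ℝ) + 1) * lam ≤ n * lam := by
  have : (p : ℝ) + 1 ≤ n := by exact_mod_cast hp
  exact mul_le_mul_of_nonneg_right this hl.le

private theorem gp_sub {z : ℂ} {lam : ℝ} (hl : 0 < lam) {n p q : ℕ} (hp : p < n) (hq : q < n) :
    sq (gp z lam p q) lam ⊆ sq z (n * lam) := by
  intro y hy
  obtain ⟨h1, h2, h3, h4⟩ := hy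
  simp only [gp] at h1 h2 h3 h4
  have h5 := gp_bd hp hl
  have h6 := gp_bd hq hl
  have h7 : 0 ≤ (p : ℝ) * lam := by positivity
  have h8 : 0 ≤ (q : ℝ) * lam := by positivity
  exact ⟨by linarith, by linarith, by linarith, by linarith⟩

private theorem gp_osub {z : ℂ} {lam : ℝ} (hl : 0 < lam) {n p q : ℕ} (hp : p < n) (hq : q < n) :
    osq (gp z lam p q) lam ⊆ osq z (n * lam) := by
  intro y hy
  obtain ⟨h1, h2, h3, h4⟩ := hy
  simp only [gp] at h1 h2 h3 h4
  have h5 := gp_bd hp hl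
  have h6 := gp_bd hq hl
  have h7 : 0 ≤ (p : ℝ) * lam := by positivity
  have h8 : 0 ≤ (q : ℝ) * lam := by positivity
  exact ⟨by linarith, by linarith, by linarith, by linarith⟩

private theorem one_lt {lam x : ℝ} (hl : 0 < lam) {p p' : ℕ} (h : p < p') (h1 : x < (p : ℝ) * lam + lam) :
    x < (p' : ℝ) * lam := by
  have : (p : ℝ) + 1 ≤ p' := by exact_mod_cast h
  nlinarith

private theorem gp_odisj {z : ℂ} {lam : ℝ} (hl : 0 < lam) {p q p' q' : ℕ} (h : (p, q) ≠ (p', q')) :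
    Disjoint (osq (gp z lam p q) lam) (osq (gp z lam p' q') lam) := by
  rw [Set.disjoint_left]
  rintro y ⟨h1, h2, h3, h4⟩ ⟨h1', h2', h3', h4'⟩
  simp only [gp] at h1 h2 h3 h4 h1' h2' h3' h4'
  apply h
  have hpp : p = p' := by
    rcases lt_trichotomy p p' with h5 | h5 | h5
    · have := one_lt hl h5 (x := y.re - z.re) (by linarith); linarith
    · exact h5
    · have := one_lt hl h5 (x := y.re - z.re) (by linarith); linarith
  have hqq : q = q' := by
    rcases lt_trichotomy q q' with h5 | h5 | h5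
    · have := one_lt hl h5 (x := y.im - z.im) (by linarith); linarith
    · exact h5
    · have := one_lt hl h5 (x := y.im - z.im) (by linarith); linarith
  rw [hpp, hqq]

private theorem gp_hdisj {z : ℂ} {lam : ℝ} (hl : 0 < lam) {p q p' q' : ℕ} (h : (p, q) ≠ (p', q')) :
    Disjoint (hsq (gp z lam p q) lam) (hsq (gp z lam p' q') lam) := by
  rw [Set.disjoint_left]
  rintro y ⟨h1, h2, h3, h4⟩ ⟨h1', h2', h3', h4'⟩
  simp only [gp] at h1 h2 h3 h4 h1' h2' h3' h4'
  apply h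
  have hpp : p = p' := by
    rcases lt_trichotomy p p' with h5 | h5 | h5
    · have := one_lt hl h5 (x := y.re - z.re) (by linarith); linarith
    · exact h5
    · have := one_lt hl h5 (x := y.re - z.re) (by linarith); linarith
  have hqq : q = q' := by
    rcases lt_trichotomy q q' with h5 | h5 | h5
    · have := one_lt hl h5 (x := y.im - z.im) (by linarith); linarith
    · exact h5
    · have := one_lt hl h5 (x := y.im - z.im) (by linarith); linarith
  rw [hpp, hqq]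

private theorem one_cover {lam : ℝ} (hl : 0 < lam) {n : ℕ} (hn : 1 ≤ n) {x : ℝ} (h0 : 0 ≤ x) (h1 : x ≤ n * lam) :
    ∃ p < n, (p : ℝ) * lam ≤ x ∧ x ≤ p * lam + lam := by
  rcases lt_or_ge x (n * lam) with h | h
  · refine ⟨⌊x / lam⌋₊, ?_, ?_, ?_⟩
    · rw [Nat.floor_lt (by positivity)]
      rwa [div_lt_iff₀ hl]
    · have := Nat.floor_le (a := x / lam) (by positivity)
      rwa [le_div_iff₀ hl] at this
    · have := (Nat.lt_floor_add_one (x / lam)).le
      rw [div_le_iff₀ hl] at this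
      linarith
  · refine ⟨n - 1, by omega, ?_, ?_⟩
    · have h2 : ((n - 1 : ℕ) : ℝ) ≤ n := by exact_mod_cast Nat.sub_le n 1
      nlinarith
    · have h2 : ((n - 1 : ℕ) : ℝ) = n - 1 := by push_cast [Nat.cast_sub hn]; ring
      rw [h2]; linarith

private theorem one_hcover {lam : ℝ} (hl : 0 < lam) {n : ℕ} {x : ℝ} (h0 : 0 ≤ x) (h : x < n * lam) :
    ∃ p < n, (p : ℝ) * lam ≤ x ∧ x < p * lam + lam := by
  refine ⟨⌊x / lam⌋₊, ?_, ?_, ?_⟩
  · rw [Nat.floor_lt (by positivity)]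
    rwa [div_lt_iff₀ hl]
  · have := Nat.floor_le (a := x / lam) (by positivity)
    rwa [le_div_iff₀ hl] at this
  · have := Nat.lt_floor_add_one (x / lam)
    rw [div_lt_iff₀ hl] at this
    linarith

private theorem gp_cover {z : ℂ} {lam : ℝ} (hl : 0 < lam) {n : ℕ} (hn : 1 ≤ n) {y : ℂ} (hy : y ∈ sq z (n * lam)) :
    ∃ p < n, ∃ q < n, y ∈ sq (gp z lam p q) lam := by
  obtain ⟨h1, h2, h3, h4⟩ := hy
  obtain ⟨p, hp, h5, h6⟩ := one_cover hl hn (x := y.re - z.re) (by linarith) (by linarith)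
  obtain ⟨q, hq, h7, h8⟩ := one_cover hl hn (x := y.im - z.im) (by linarith) (by linarith)
  refine ⟨p, hp, q, hq, ?_, ?_, ?_, ?_⟩ <;> simp only [gp] <;> linarith

private theorem gp_hcover {z : ℂ} {lam : ℝ} (hl : 0 < lam) {n : ℕ} {y : ℂ} (hy : y ∈ hsq z (n * lam)) :
    ∃ p < n, ∃ q < n, y ∈ hsq (gp z lam p q) lam := by
  obtain ⟨h1, h2, h3, h4⟩ := hy
  obtain ⟨p, hp, h5, h6⟩ := one_hcover hl (n := n) (x := y.re - z.re) (by linarith) (by linarith)
  obtain ⟨q, hq, h7, h8⟩ := one_hcover hl (n := n) (x := y.im - z.im) (by linarith) (by linarith)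
  refine ⟨p, hp, q, hq, ?_, ?_, ?_, ?_⟩ <;> simp only [gp] <;> linarith

private theorem measurableSet_hsq (z : ℂ) (l : ℝ) : MeasurableSet (hsq z l) := by
  have h1 : Measurable fun y : ℂ => y.re := Complex.measurable_re
  have h2 : Measurable fun y : ℂ => y.im := Complex.measurable_im
  exact ((measurableSet_le measurable_const h1).inter ((measurableSet_lt h1 measurable_const).inter
    ((measurableSet_le measurable_const h2).inter (measurableSet_lt h2 measurable_const))))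

private theorem volume_hsq (z : ℂ) {l : ℝ} (hl : 0 ≤ l) : volume (hsq z l) = ENNReal.ofReal (l ^ 2) := by
  have h : hsq z l = Complex.measurableEquivRealProd ⁻¹' (Ico z.re (z.re + l) ×ˢ Ico z.im (z.im + l)) := by
    ext y
    simp only [hsq, mem_ofPred_eq, mem_preimage, mem_prod, mem_Ico, Complex.measurableEquivRealProd_apply]
    tauto
  rw [h, Complex.volume_preserving_equiv_real_prod.measure_preimage
    ((measurableSet_Ico.prod measurableSet_Ico).nullMeasurableSet), Measure.volume_eq_prod, Measure.prod_prod,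
    Real.volume_Ico, Real.volume_Ico, ← ENNReal.ofReal_mul (by linarith)]
  congr 1; ring

private theorem dist_sq {z y y' : ℂ} {l : ℝ} (hy : y ∈ sq z l) (hy' : y' ∈ sq z l) : dist y y' ≤ 2 * l := by
  obtain ⟨h1, h2, h3, h4⟩ := hy
  obtain ⟨h1', h2', h3', h4'⟩ := hy'
  rw [Complex.dist_eq]
  have h5 := Complex.norm_le_abs_re_add_abs_im (y - y')
  have h6 : |(y - y').re| ≤ l := by rw [Complex.sub_re, abs_le]; constructor <;> linarith
  have h7 : |(y - y').im| ≤ l := by rw [Complex.sub_im, abs_le]; constructor <;> linarith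
  linarith


/-- The coarse grid with `K` squares on the unit length, covering `[-1, 1)^2`. -/
private noncomputable def cg (K : ℕ) (t : Fin (2 * K) × Fin (2 * K)) : ℂ := gp (⟨-1, -1⟩ : ℂ) (1 / K) t.1 t.2

private theorem cg_cover {K : ℕ} (hK : 0 < K) {y : ℂ} (hy : y ∈ ball (0 : ℂ) 1) : ∃ t, y ∈ hsq (cg K t) (1 / K) := by
  have hl : (0 : ℝ) < 1 / K := by positivity
  have h1 : ‖y‖ < 1 := by simpa using hy
  have h2 := Complex.abs_re_le_norm y
  have h3 := Complex.abs_im_le_norm y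
  have h4 := abs_lt.1 (lt_of_le_of_lt h2 h1)
  have h5 := abs_lt.1 (lt_of_le_of_lt h3 h1)
  have h6 : ((2 * K : ℕ) : ℝ) * (1 / K) = 2 := by push_cast; field_simp
  have h7 : y ∈ hsq (⟨-1, -1⟩ : ℂ) ((2 * K : ℕ) * (1 / K)) := by
    rw [h6]
    refine ⟨?_, ?_, ?_, ?_⟩ <;> simp only <;> linarith
  obtain ⟨p, hp, q, hq, h8⟩ := gp_hcover hl h7
  exact ⟨(⟨p, hp⟩, ⟨q, hq⟩), h8⟩

private theorem cg_hdisj {K : ℕ} (hK : 0 < K) {t t' : Fin (2 * K) × Fin (2 * K)} (h : t ≠ t') :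
    Disjoint (hsq (cg K t) (1 / K)) (hsq (cg K t') (1 / K)) := by
  apply gp_hdisj (by positivity)
  intro h1
  apply h
  rw [Prod.mk.injEq] at h1
  exact Prod.ext (Fin.ext h1.1) (Fin.ext h1.2)

private theorem cg_odisj {K : ℕ} (hK : 0 < K) {t t' : Fin (2 * K) × Fin (2 * K)} (h : t ≠ t') :
    Disjoint (osq (cg K t) (1 / K)) (osq (cg K t') (1 / K)) := by
  apply gp_odisj (by positivity)
  intro h1
  apply h
  rw [Prod.mk.injEq] at h1
  exact Prod.ext (Fin.ext h1.1) (Fin.ext h1.2)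

private theorem cg_mem {K : ℕ} (hK : 0 < K) (t : Fin (2 * K) × Fin (2 * K)) : cg K t ∈ hsq (cg K t) (1 / K) := by
  have : (0 : ℝ) < 1 / K := by positivity
  exact ⟨le_rfl, by linarith, le_rfl, by linarith⟩

/-- The integral of a continuous function over a union of grid squares. -/
private theorem sum_hsq {K : ℕ} (hK : 0 < K) {f : ℂ → ℝ} {B : Set ℂ} (hf : IntegrableOn f B)
    (T : Finset (Fin (2 * K) × Fin (2 * K))) (hT : ∀ t ∈ T, hsq (cg K t) (1 / K) ⊆ B) :
    ∑ t ∈ T, ∫ y in hsq (cg K t) (1 / K), f y = ∫ y in ⋃ t ∈ T, hsq (cg K t) (1 / K), f y := by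
  rw [integral_biUnion_finset T (fun t _ => measurableSet_hsq _ _)
    (fun t _ t' _ h => cg_hdisj hK h) (fun t ht => hf.mono_set (hT t ht))]

private theorem const_hsq {K : ℕ} (t : Fin (2 * K) × Fin (2 * K)) (c : ℝ) :
    ∫ _y in hsq (cg K t) (1 / K), c = (1 / K) ^ 2 * c := by
  rw [setIntegral_const, smul_eq_mul]
  congr 1
  rw [measureReal_def, volume_hsq _ (by positivity), ENNReal.toReal_ofReal (by positivity)]


private theorem unit_ball_vol {G : Set ℂ} (hG1 : G ⊆ ball 0 1) : volume G ≠ ⊤ ∧ volume.real G ≤ 4 := by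
  have h1 : volume (ball (0 : ℂ) 1) = NNReal.pi := by rw [Complex.volume_ball]; simp
  have h2 : volume (ball (0 : ℂ) 1) ≠ ⊤ := by rw [h1]; exact ENNReal.coe_ne_top
  have h3 : volume.real (ball (0 : ℂ) 1) = Real.pi := by
    rw [measureReal_def, h1]; rfl
  refine ⟨ne_top_of_le_ne_top h2 (measure_mono hG1), ?_⟩
  have h4 : volume.real G ≤ volume.real (ball (0 : ℂ) 1) := measureReal_mono hG1 h2
  linarith [Real.pi_le_four]

private theorem exists_small_eta (A d : ℝ) (hA : 0 ≤ A) (hd : 0 < d) : ∃ η : ℝ, 0 < η ∧ η ≤ 1 ∧ (10 + A) * η ≤ d := by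
  refine ⟨min 1 (d / (10 + A)), by positivity, min_le_left _ _, ?_⟩
  have h : min 1 (d / (10 + A)) ≤ d / (10 + A) := min_le_right _ _
  rw [le_div_iff₀ (by linarith)] at h
  linarith

open Classical in
private theorem riemann_upper {G : Set ℂ} {a : ℂ → ℝ} (hG : IsOpen G) (hG1 : G ⊆ ball 0 1)
    (hG0 : volume (frontier G) = 0) (ha : ContinuousOn a (closedBall 0 2))
    (hp : ∀ z ∈ closedBall (0 : ℂ) 2, 0 < a z) {d : ℝ} (hd : 0 < d) :
    ∀ᶠ K : ℕ in atTop, ∃ μ : Fin (2 * K) × Fin (2 * K) → ℝ, (∀ t, 0 < μ t) ∧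
      (∀ t, (sq (cg K t) (1 / K) ∩ G).Nonempty →
        sq (cg K t) (1 / K) ⊆ ball 0 2 ∧ ∀ y ∈ sq (cg K t) (1 / K), a y ≤ μ t) ∧
      ∑ t ∈ Finset.univ.filter (fun t => (sq (cg K t) (1 / K) ∩ G).Nonempty), (1 / (K : ℝ)) ^ 2 * μ t ≤
        (∫ y in G, a y) + d := by
  obtain ⟨A₀, hA₀⟩ := (isCompact_closedBall (0 : ℂ) 2).exists_bound_of_continuousOn ha
  set A := max A₀ 0 with hA
  have hA0 : 0 ≤ A := le_max_right _ _
  have hAb : ∀ y ∈ closedBall (0 : ℂ) 2, a y ≤ A := fun y hy =>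
    ((le_abs_self _).trans (hA₀ y hy)).trans (le_max_left _ _)
  obtain ⟨η, hη, hη1, hη2⟩ := exists_small_eta A d hA0 hd
  obtain ⟨δ, hδ, huc⟩ := Metric.uniformContinuousOn_iff.1
    ((isCompact_closedBall (0 : ℂ) 2).uniformContinuousOn_of_continuous ha) η hη
  obtain ⟨hv1, hv2⟩ := unit_ball_vol hG1
  have hcl : closure G ⊆ closedBall (0 : ℂ) 1 := (closure_mono hG1).trans closure_ball_subset_closedBall
  have hFc : IsCompact (closure G) := (isCompact_closedBall (0 : ℂ) 1).of_isClosed_subset isClosed_closure hcl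
  have hvF : volume (closure G) ≤ volume G := by
    rw [closure_eq_self_union_frontier]
    exact (measure_union_le _ _).trans (by rw [hG0, add_zero])
  have hlt : volume (closure G) < volume G + ENNReal.ofReal η := by
    refine lt_of_le_of_lt hvF (ENNReal.lt_add_right hv1 ?_)
    simpa using hη
  obtain ⟨U, hFU, hUo, hUv⟩ := (closure G).exists_isOpen_lt_of_lt _ hlt
  obtain ⟨δ', hδ', hth⟩ := hFc.exists_thickening_subset_open hUo hFU
  set U' := U ∩ ball (0 : ℂ) 2 with hU'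
  have hU'o : IsOpen U' := hUo.inter isOpen_ball
  have hU'b : U' ⊆ closedBall (0 : ℂ) 2 := inter_subset_right.trans ball_subset_closedBall
  have hGU' : G ⊆ U' := subset_inter (subset_closure.trans hFU) (hG1.trans (ball_subset_ball (by norm_num)))
  have hcb : volume (closedBall (0 : ℂ) 2) ≠ ⊤ := (isCompact_closedBall (0 : ℂ) 2).measure_lt_top.ne
  have hdiff : volume (U' \ G) ≤ ENNReal.ofReal η := by
    refine (measure_mono (sdiff_subset_sdiff_left inter_subset_left)).trans ?_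
    rw [measure_sdiff (subset_closure.trans hFU) hG.measurableSet.nullMeasurableSet hv1, tsub_le_iff_left]
    exact hUv.le
  have hdiff' : volume.real (U' \ G) ≤ η := by
    rw [measureReal_def]
    exact ENNReal.toReal_le_of_le_ofReal hη.le hdiff
  have hai : IntegrableOn a (closedBall (0 : ℂ) 2) := ha.integrableOn_compact (isCompact_closedBall _ _)
  have hfi : IntegrableOn (fun y => a y + 2 * η) (closedBall (0 : ℂ) 2) :=
    hai.add (integrableOn_const hcb)
  have hf0 : ∀ y ∈ U', 0 ≤ a y + 2 * η := fun y hy => by have := hp y (hU'b hy); linarith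
  have ht : Tendsto (fun n : ℕ => 2 / (n : ℝ)) atTop (𝓝 0) := tendsto_const_div_atTop_nhds_zero_nat 2
  have hmin : 0 < min δ δ' := lt_min hδ hδ'
  filter_upwards [ht.eventually (gt_mem_nhds hmin), eventually_ge_atTop 4] with K hK1 hK4
  have hK0 : 0 < K := by omega
  have hKr : (4 : ℝ) ≤ K := by exact_mod_cast hK4
  have hKpos : (0 : ℝ) < K := by linarith
  have hlpos : (0 : ℝ) < 1 / K := by positivity
  have h2K : 2 * (1 / (K : ℝ)) = 2 / K := by ring
  have h2K' : 2 * (1 / (K : ℝ)) ≤ 1 / 2 := by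
    rw [h2K, div_le_iff₀ hKpos]; linarith
  have hkey : ∀ t, (sq (cg K t) (1 / K) ∩ G).Nonempty → sq (cg K t) (1 / K) ⊆ U' := by
    rintro t ⟨y₀, hy₀, hy₀G⟩ y hy
    have hd1 : dist y y₀ ≤ 2 * (1 / (K : ℝ)) := dist_sq hy hy₀
    refine ⟨hth ?_, ?_⟩
    · rw [mem_thickening_iff]
      refine ⟨y₀, subset_closure hy₀G, lt_of_le_of_lt hd1 ?_⟩
      rw [h2K]
      exact hK1.trans_le (min_le_right _ _)
    · have h1 : ‖y₀‖ < 1 := by simpa using hG1 hy₀G
      rw [mem_ball, dist_zero_right]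
      have h2 : ‖y‖ ≤ ‖y₀‖ + dist y y₀ := by
        rw [dist_eq_norm]
        have := norm_add_le y₀ (y - y₀)
        simpa using this
      linarith
  have hcg : ∀ t, cg K t ∈ sq (cg K t) (1 / K) := fun t => hsq_sub_sq _ _ (cg_mem hK0 t)
  have hosc : ∀ t, (sq (cg K t) (1 / K) ∩ G).Nonempty → ∀ y ∈ sq (cg K t) (1 / K),
      |a y - a (cg K t)| < η := by
    intro t hne y hy
    have h1 := huc y (hU'b (hkey t hne hy)) (cg K t) (hU'b (hkey t hne (hcg t))) (by
      refine lt_of_le_of_lt (dist_sq hy (hcg t)) ?_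
      rw [h2K]
      exact hK1.trans_le (min_le_left _ _))
    rwa [Real.dist_eq] at h1
  refine ⟨fun t => if (sq (cg K t) (1 / K) ∩ G).Nonempty then a (cg K t) + η else 1, ?_, ?_, ?_⟩
  · intro t
    dsimp only
    split_ifs with hne
    · have := hp _ (hU'b (hkey t hne (hcg t)))
      linarith
    · exact one_pos
  · intro t hne
    refine ⟨(hkey t hne).trans inter_subset_right, fun y hy => ?_⟩
    dsimp only
    rw [if_pos hne]
    have := (abs_lt.1 (hosc t hne y hy)).2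
    linarith
  · set T := Finset.univ.filter (fun t => (sq (cg K t) (1 / K) ∩ G).Nonempty) with hT
    have hTm : ∀ t ∈ T, (sq (cg K t) (1 / K) ∩ G).Nonempty := fun t ht => (Finset.mem_filter.1 ht).2
    calc ∑ t ∈ T, (1 / (K : ℝ)) ^ 2 * (if (sq (cg K t) (1 / K) ∩ G).Nonempty then a (cg K t) + η else 1)
        ≤ ∑ t ∈ T, ∫ y in hsq (cg K t) (1 / K), (a y + 2 * η) := by
          refine Finset.sum_le_sum fun t ht => ?_
          have hne := hTm t ht
          rw [if_pos hne, ← const_hsq t]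
          have hsub : hsq (cg K t) (1 / K) ⊆ closedBall (0 : ℂ) 2 :=
            (hsq_sub_sq _ _).trans ((hkey t hne).trans hU'b)
          refine setIntegral_mono_on (integrableOn_const (measure_mono hsub |>.trans_lt (lt_top_iff_ne_top.2 hcb)).ne)
            (hfi.mono_set hsub) (measurableSet_hsq _ _) fun y hy => ?_
          have := (abs_lt.1 (hosc t hne y (hsq_sub_sq _ _ hy))).1
          linarith
      _ = ∫ y in ⋃ t ∈ T, hsq (cg K t) (1 / K), (a y + 2 * η) :=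
          sum_hsq hK0 hfi T fun t ht => (hsq_sub_sq _ _).trans ((hkey t (hTm t ht)).trans hU'b)
      _ ≤ ∫ y in U', (a y + 2 * η) := by
          refine setIntegral_mono_set (hfi.mono_set hU'b) ?_ ?_
          · exact (ae_restrict_iff' hU'o.measurableSet).2 (Eventually.of_forall hf0)
          · exact (iUnion₂_subset fun t ht => (hsq_sub_sq _ _).trans (hkey t (hTm t ht))).eventuallyLE
      _ = (∫ y in G, (a y + 2 * η)) + ∫ y in U' \ G, (a y + 2 * η) := by
          rw [setIntegral_sdiff hG.measurableSet (hfi.mono_set hU'b) hGU']; ring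
      _ ≤ ((∫ y in G, a y) + 2 * η * 4) + (A + 2 * η) * η := by
          refine add_le_add ?_ ?_
          · rw [integral_add (hai.mono_set (hGU'.trans hU'b)).integrable (integrable_const_iff.2 (Or.inr ?_)),
              setIntegral_const, smul_eq_mul]
            · have : volume.real G * (2 * η) ≤ 2 * η * 4 := by nlinarith
              linarith
            · exact (isFiniteMeasure_restrict.2 hv1)
          · have h1 : ∫ y in U' \ G, (a y + 2 * η) ≤ ∫ _y in U' \ G, (A + 2 * η) := by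
              refine setIntegral_mono_on (hfi.mono_set (sdiff_subset.trans hU'b)) (integrableOn_const
                (measure_mono (sdiff_subset.trans hU'b) |>.trans_lt (lt_top_iff_ne_top.2 hcb)).ne)
                (hU'o.measurableSet.diff hG.measurableSet) fun y hy => ?_
              have := hAb y (hU'b hy.1)
              linarith
            refine h1.trans ?_
            rw [setIntegral_const, smul_eq_mul, mul_comm]
            exact mul_le_mul_of_nonneg_left hdiff' (by linarith)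
      _ ≤ (∫ y in G, a y) + d := by nlinarith


open Classical in
private theorem riemann_lower {G : Set ℂ} {a : ℂ → ℝ} (hG : IsOpen G) (hG1 : G ⊆ ball 0 1)
    (ha : ContinuousOn a (closedBall 0 2))
    (hp : ∀ z ∈ closedBall (0 : ℂ) 2, 0 < a z) {d : ℝ} (hd : 0 < d) :
    ∀ᶠ K : ℕ in atTop, ∃ μ : Fin (2 * K) × Fin (2 * K) → ℝ, (∀ t, 0 < μ t) ∧
      (∀ t, sq (cg K t) (1 / K) ⊆ G → ∀ y ∈ sq (cg K t) (1 / K), μ t ≤ a y) ∧
      (∫ y in G, a y) - d ≤
        ∑ t ∈ Finset.univ.filter (fun t => sq (cg K t) (1 / K) ⊆ G), (1 / (K : ℝ)) ^ 2 * μ t := by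
  obtain ⟨A₀, hA₀⟩ := (isCompact_closedBall (0 : ℂ) 2).exists_bound_of_continuousOn ha
  set A := max A₀ 0 with hA
  have hA0 : 0 ≤ A := le_max_right _ _
  have hAb : ∀ y ∈ closedBall (0 : ℂ) 2, a y ≤ A := fun y hy =>
    ((le_abs_self _).trans (hA₀ y hy)).trans (le_max_left _ _)
  obtain ⟨x₀, hx₀, hxm⟩ := (isCompact_closedBall (0 : ℂ) 2).exists_isMinOn ⟨0, by simp⟩ ha
  have hc0 : 0 < a x₀ := hp x₀ hx₀
  obtain ⟨η₀, hη₀, hη₀1, hη₀2⟩ := exists_small_eta A d hA0 hd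
  set η := min η₀ (a x₀ / 2) with hηdef
  have hη : 0 < η := lt_min hη₀ (by linarith)
  have hηη : η ≤ η₀ := min_le_left _ _
  have hηc : η ≤ a x₀ / 2 := min_le_right _ _
  have hη2 : (10 + A) * η ≤ d := (mul_le_mul_of_nonneg_left hηη (by linarith)).trans hη₀2
  obtain ⟨δ, hδ, huc⟩ := Metric.uniformContinuousOn_iff.1
    ((isCompact_closedBall (0 : ℂ) 2).uniformContinuousOn_of_continuous ha) η hη
  obtain ⟨hv1, hv2⟩ := unit_ball_vol hG1
  obtain ⟨F, hFG, hFc, hFv⟩ := hG.measurableSet.exists_isCompact_sdiff_lt hv1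
    (ε := ENNReal.ofReal η) (by simpa using hη)
  obtain ⟨δ', hδ', hth⟩ := hFc.exists_thickening_subset_open hG hFG
  have hG2 : G ⊆ closedBall (0 : ℂ) 2 := (hG1.trans (ball_subset_ball (by norm_num))).trans ball_subset_closedBall
  have hdiff' : volume.real (G \ F) ≤ η := by
    rw [measureReal_def]
    exact ENNReal.toReal_le_of_le_ofReal hη.le hFv.le
  have hcb : volume (closedBall (0 : ℂ) 2) ≠ ⊤ := (isCompact_closedBall (0 : ℂ) 2).measure_lt_top.ne
  have hai : IntegrableOn a (closedBall (0 : ℂ) 2) := ha.integrableOn_compact (isCompact_closedBall _ _)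
  have hfi : IntegrableOn (fun y => a y - 2 * η) (closedBall (0 : ℂ) 2) :=
    hai.sub (integrableOn_const hcb)
  have ht : Tendsto (fun n : ℕ => 2 / (n : ℝ)) atTop (𝓝 0) := tendsto_const_div_atTop_nhds_zero_nat 2
  have hmin : 0 < min δ δ' := lt_min hδ hδ'
  filter_upwards [ht.eventually (gt_mem_nhds hmin), eventually_ge_atTop 4] with K hK1 hK4
  have hK0 : 0 < K := by omega
  have hKr : (4 : ℝ) ≤ K := by exact_mod_cast hK4
  have hKpos : (0 : ℝ) < K := by linarith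
  have hlpos : (0 : ℝ) < 1 / K := by positivity
  have h2K : 2 * (1 / (K : ℝ)) = 2 / K := by ring
  have hcg : ∀ t, cg K t ∈ sq (cg K t) (1 / K) := fun t => hsq_sub_sq _ _ (cg_mem hK0 t)
  have hosc : ∀ t, sq (cg K t) (1 / K) ⊆ G → ∀ y ∈ sq (cg K t) (1 / K), |a y - a (cg K t)| < η := by
    intro t hne y hy
    have h1 := huc y (hG2 (hne hy)) (cg K t) (hG2 (hne (hcg t))) (by
      refine lt_of_le_of_lt (dist_sq hy (hcg t)) ?_
      rw [h2K]
      exact hK1.trans_le (min_le_left _ _))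
    rwa [Real.dist_eq] at h1
  refine ⟨fun t => if sq (cg K t) (1 / K) ⊆ G then a (cg K t) - η else 1, ?_, ?_, ?_⟩
  · intro t
    dsimp only
    split_ifs with hne
    · have := hxm (hG2 (hne (hcg t)))
      simp only [mem_ofPred_eq] at this
      linarith
    · exact one_pos
  · intro t hne y hy
    dsimp only
    rw [if_pos hne]
    have := (abs_lt.1 (hosc t hne y hy)).1
    linarith
  · set T := Finset.univ.filter (fun t => sq (cg K t) (1 / K) ⊆ G) with hT
    have hTm : ∀ t ∈ T, sq (cg K t) (1 / K) ⊆ G := fun t ht => (Finset.mem_filter.1 ht).2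
    set V := ⋃ t ∈ T, hsq (cg K t) (1 / K) with hV
    have hVm : MeasurableSet V := Finset.measurableSet_biUnion _ fun t _ => measurableSet_hsq _ _
    have hVG : V ⊆ G := iUnion₂_subset fun t ht => (hsq_sub_sq _ _).trans (hTm t ht)
    have hFV : F ⊆ V := by
      intro y hy
      obtain ⟨t, hyt⟩ := cg_cover hK0 (hG1 (hFG hy))
      refine mem_iUnion₂.2 ⟨t, Finset.mem_filter.2 ⟨Finset.mem_univ _, ?_⟩, hyt⟩
      intro x hx
      apply hth
      rw [mem_thickening_iff]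
      refine ⟨y, hy, lt_of_le_of_lt (dist_sq hx (hsq_sub_sq _ _ hyt)) ?_⟩
      rw [h2K]
      exact hK1.trans_le (min_le_right _ _)
    have hVfin : volume V ≠ ⊤ := ne_top_of_le_ne_top hv1 (measure_mono hVG)
    have hVr : volume.real V ≤ 4 := (measureReal_mono hVG hv1).trans hv2
    have hFm : MeasurableSet F := hFc.isClosed.measurableSet
    calc (∫ y in G, a y) - d ≤ (∫ y in G, a y) - A * η - 2 * η * 4 := by nlinarith
      _ ≤ (∫ y in F, a y) - 2 * η * 4 := by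
          have h1 : (∫ y in G, a y) - ∫ y in F, a y = ∫ y in G \ F, a y :=
            (setIntegral_sdiff hFm (hai.mono_set hG2) hFG).symm
          have h2 : ∫ y in G \ F, a y ≤ ∫ _y in G \ F, A := by
            refine setIntegral_mono_on (hai.mono_set (sdiff_subset.trans hG2)) (integrableOn_const
              (measure_mono (sdiff_subset.trans hG2) |>.trans_lt (lt_top_iff_ne_top.2 hcb)).ne)
              (hG.measurableSet.diff hFm) fun y hy => hAb y (hG2 hy.1)
          rw [setIntegral_const, smul_eq_mul, mul_comm] at h2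
          have h3 := mul_le_mul_of_nonneg_left hdiff' hA0
          linarith
      _ ≤ (∫ y in V, a y) - 2 * η * 4 := by
          have : ∫ y in F, a y ≤ ∫ y in V, a y := by
            refine setIntegral_mono_set (hai.mono_set (hVG.trans hG2)) ?_ hFV.eventuallyLE
            exact (ae_restrict_iff' hVm).2 (Eventually.of_forall fun y hy => (hp y (hG2 (hVG hy))).le)
          linarith
      _ ≤ ∫ y in V, (a y - 2 * η) := by
          rw [integral_sub (hai.mono_set (hVG.trans hG2)).integrable (integrable_const_iff.2 (Or.inr ?_)),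
              setIntegral_const, smul_eq_mul]
          · have : volume.real V * (2 * η) ≤ 2 * η * 4 := by nlinarith
            linarith
          · exact (isFiniteMeasure_restrict.2 hVfin)
      _ = ∑ t ∈ T, ∫ y in hsq (cg K t) (1 / K), (a y - 2 * η) :=
          (sum_hsq hK0 hfi T fun t ht => (hsq_sub_sq _ _).trans ((hTm t ht).trans hG2)).symm
      _ ≤ ∑ t ∈ T, (1 / (K : ℝ)) ^ 2 * (if sq (cg K t) (1 / K) ⊆ G then a (cg K t) - η else 1) := by
          refine Finset.sum_le_sum fun t ht => ?_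
          have hne := hTm t ht
          rw [if_pos hne, ← const_hsq t]
          have hsub : hsq (cg K t) (1 / K) ⊆ closedBall (0 : ℂ) 2 := (hsq_sub_sq _ _).trans (hne.trans hG2)
          refine setIntegral_mono_on (hfi.mono_set hsub) (integrableOn_const
            (measure_mono hsub |>.trans_lt (lt_top_iff_ne_top.2 hcb)).ne)
            (measurableSet_hsq _ _) fun y hy => ?_
          have := (abs_lt.1 (hosc t hne y (hsq_sub_sq _ _ hy))).2
          linarith

/-! ### Subdivision -/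

private theorem sub_arith {Λ m l : ℝ} (hΛ : 0 < Λ) (hm : 0 < m) (hl : 0 < l) {n : ℕ} (hn : n = ⌈Λ * √m / l⌉₊) :
    1 ≤ n ∧ m * (Λ / n) ^ 2 ≤ l ^ 2 ∧ ((n : ℝ) * l) ^ 2 ≤ Λ ^ 2 * m + 2 * Λ * √m * l + l ^ 2 := by
  have hs : 0 < √m := Real.sqrt_pos.2 hm
  have hx : 0 < Λ * √m / l := by positivity
  have h1 : 1 ≤ n := by rw [hn]; exact Nat.ceil_pos.2 hx
  have h1r : (0 : ℝ) < n := by exact_mod_cast h1
  have h2 : Λ * √m / l ≤ n := by rw [hn]; exact Nat.le_ceil _
  have h3 : (n : ℝ) < Λ * √m / l + 1 := by rw [hn]; exact Nat.ceil_lt_add_one hx.le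
  have h4 : Λ * √m ≤ n * l := by rwa [div_le_iff₀ hl] at h2
  have h5 : (n : ℝ) * l ≤ Λ * √m + l := by
    have : (n : ℝ) * l ≤ (Λ * √m / l + 1) * l := mul_le_mul_of_nonneg_right h3.le hl.le
    have h6 : (Λ * √m / l + 1) * l = Λ * √m + l := by field_simp
    linarith
  have hsq : √m * √m = m := Real.mul_self_sqrt hm.le
  refine ⟨h1, ?_, ?_⟩
  · have h6 : m * (Λ / n) ^ 2 = (Λ * √m / n) ^ 2 := by
      rw [div_pow, div_pow, mul_pow, Real.sq_sqrt hm.le]; ring
    rw [h6]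
    have h7 : Λ * √m / n ≤ l := by rw [div_le_iff₀ h1r]; linarith
    exact pow_le_pow_left₀ (by positivity) h7 2
  · have h6 : ((n : ℝ) * l) ^ 2 ≤ (Λ * √m + l) ^ 2 := pow_le_pow_left₀ (by positivity) h5 2
    have h7 : (Λ * √m + l) ^ 2 = Λ ^ 2 * m + 2 * Λ * √m * l + l ^ 2 := by
      rw [add_sq, mul_pow, Real.sq_sqrt hm.le]; ring
    linarith

private theorem sub_arith' {Λ m l : ℝ} (hΛ : 0 < Λ) (hm : 0 < m) (hl : 0 < l) {n : ℕ} (hn : n = ⌊Λ * √m / l⌋₊) :
    n * (l / √m) ≤ Λ ∧ m * (l / √m) ^ 2 = l ^ 2 ∧ Λ ^ 2 * m - 2 * Λ * √m * l ≤ ((n : ℝ) * l) ^ 2 := by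
  have hs : 0 < √m := Real.sqrt_pos.2 hm
  have hx : 0 < Λ * √m / l := by positivity
  have h2 : (n : ℝ) ≤ Λ * √m / l := by rw [hn]; exact Nat.floor_le hx.le
  have h3 : Λ * √m / l < n + 1 := by rw [hn]; exact Nat.lt_floor_add_one _
  have h4 : n * l ≤ Λ * √m := by rwa [le_div_iff₀ hl] at h2
  have h5 : Λ * √m ≤ n * l + l := by
    rw [div_lt_iff₀ hl] at h3
    linarith
  refine ⟨?_, ?_, ?_⟩
  · rw [← mul_div_assoc, div_le_iff₀ hs]; exact h4
  · rw [div_pow, Real.sq_sqrt hm.le]; field_simp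
  · have h6 : Λ ^ 2 * m = (Λ * √m) ^ 2 := by rw [mul_pow, Real.sq_sqrt hm.le]
    rw [h6]
    have h7 : 0 ≤ (n : ℝ) * l := by positivity
    have h8 : 0 < Λ * √m := by positivity
    nlinarith


open Classical in
private theorem sum_sum_filter {m : ℕ} {β : Type*} [Fintype β] (P : Fin m → β → Prop) (f : Fin m → β → ℝ) :
    ∑ x ∈ Finset.univ.filter (fun x : Fin m × β => P x.1 x.2), f x.1 x.2 =
      ∑ i, ∑ t ∈ Finset.univ.filter (fun t => P i t), f i t := by
  rw [Finset.sum_filter, Fintype.sum_prod_type]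
  refine Finset.sum_congr rfl fun i _ => ?_
  rw [Finset.sum_filter]

private theorem cover_arith {N : ℕ} {S B l : ℝ} (hl0 : 0 < l) (hl1 : l ≤ 1) (hB0 : 0 ≤ B)
    (h : (N : ℝ) * l ^ 2 ≤ S + l * B) :
    ((Nat.sqrt N + 1 : ℕ) : ℝ) ^ 2 * l ^ 2 ≤ S + l * (B + 2 * √(S + B) + 1) := by
  have h1 : (Nat.sqrt N : ℝ) ≤ √(N : ℝ) := Real.nat_sqrt_le_real_sqrt
  have h2 : 0 ≤ √(N : ℝ) := Real.sqrt_nonneg _
  have h3 : (√(N : ℝ) * l) ^ 2 = N * l ^ 2 := by rw [mul_pow, Real.sq_sqrt (Nat.cast_nonneg _)]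
  have h4 : √(N : ℝ) * l ≤ √(S + B) := by
    refine Real.le_sqrt_of_sq_le ?_
    rw [h3]
    nlinarith
  have h5 : ((Nat.sqrt N + 1 : ℕ) : ℝ) * l ≤ √(N : ℝ) * l + l := by
    push_cast
    nlinarith
  have h6 : (((Nat.sqrt N + 1 : ℕ) : ℝ) * l) ^ 2 ≤ (√(N : ℝ) * l + l) ^ 2 :=
    pow_le_pow_left₀ (by positivity) h5 2
  rw [← mul_pow]
  have h7 : l ^ 2 ≤ l := by nlinarith
  have h8 : √(N : ℝ) * l * l ≤ √(S + B) * l := mul_le_mul_of_nonneg_right h4 hl0.le
  nlinarith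

variable {m : ℕ} {G : Fin m → Set ℂ} {a : Fin m → ℂ → ℝ}

theorem exists_cover (hG : ∀ i, IsOpen (G i)) (hG1 : ∀ i, G i ⊆ ball 0 1) (hG0 : ∀ i, volume (frontier (G i)) = 0)
    (ha : ∀ i, ContinuousOn (a i) (closedBall 0 2)) (hp : ∀ i, ∀ z ∈ closedBall (0 : ℂ) 2, 0 < a i z) {d : ℝ}
    (hd : 0 < d) : ∃ (l : ℝ) (M n : ℕ) (i : Fin n → Fin m) (z : Fin n → ℂ) (lam : Fin n → ℝ),
      0 < l ∧ 1 ≤ M ∧ n ≤ M ^ 2 ∧ (∀ k, 0 < lam k) ∧ (∀ k, sq (z k) (lam k) ⊆ ball 0 2) ∧
      (∀ k k', k ≠ k' → i k = i k' → Disjoint (osq (z k) (lam k)) (osq (z k') (lam k'))) ∧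
      (∀ j, ∀ y ∈ G j, ∃ k, i k = j ∧ y ∈ sq (z k) (lam k)) ∧
      (∀ k, ∀ y ∈ sq (z k) (lam k), a (i k) y * lam k ^ 2 ≤ l ^ 2) ∧
      M ^ 2 * l ^ 2 ≤ (∑ j, ∫ y in G j, a j y) + d := by
  classical
  have hd' : 0 < d / (2 * ((m : ℝ) + 1)) := by positivity
  obtain ⟨K, hK, hK1⟩ := ((eventually_all.2 fun i => riemann_upper (hG i) (hG1 i) (hG0 i) (ha i) (hp i) hd').and
    (eventually_ge_atTop 1)).exists
  choose μ hμ0 hμ1 hμ2 using hK
  have hK0 : 0 < K := by omega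
  set Λ : ℝ := 1 / K with hΛdef
  have hΛ : 0 < Λ := by positivity
  set T := Finset.univ.filter (fun x : Fin m × (Fin (2 * K) × Fin (2 * K)) => (sq (cg K x.2) Λ ∩ G x.1).Nonempty) with hT
  set S := ∑ x ∈ T, Λ ^ 2 * μ x.1 x.2 with hS
  have hSle : S ≤ (∑ j, ∫ y in G j, a j y) + d / 2 := by
    have h1 : S = ∑ i, ∑ t ∈ Finset.univ.filter (fun t => (sq (cg K t) Λ ∩ G i).Nonempty), Λ ^ 2 * μ i t :=
      sum_sum_filter (fun i t => (sq (cg K t) Λ ∩ G i).Nonempty) (fun i t => Λ ^ 2 * μ i t)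
    rw [h1]
    refine (Finset.sum_le_sum fun i _ => hμ2 i).trans ?_
    rw [Finset.sum_add_distrib, Finset.sum_const, Finset.card_univ, Fintype.card_fin, nsmul_eq_mul]
    have : (m : ℝ) * (d / (2 * ((m : ℝ) + 1))) ≤ d / 2 := by
      rw [mul_div_assoc', div_le_div_iff₀ (by positivity) (by norm_num)]
      nlinarith [(Nat.cast_nonneg m : (0 : ℝ) ≤ m)]
    linarith
  set B := ∑ x ∈ T, (2 * Λ * √(μ x.1 x.2) + 1) with hB
  have hB0 : 0 ≤ B := Finset.sum_nonneg fun x _ => by positivity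
  have hS0 : 0 ≤ S := Finset.sum_nonneg fun x _ => by have := hμ0 x.1 x.2; positivity
  have hR0 : 0 ≤ √(S + B) := Real.sqrt_nonneg _
  set l := min 1 (d / 2 / (B + 2 * √(S + B) + 1)) with hl
  have hl0 : 0 < l := by positivity
  have hl1 : l ≤ 1 := min_le_left _ _
  have hl2 : l * (B + 2 * √(S + B) + 1) ≤ d / 2 := by
    have h1 : l ≤ d / 2 / (B + 2 * √(S + B) + 1) := min_le_right _ _
    rwa [le_div_iff₀ (by positivity)] at h1
  let nn : Fin m × (Fin (2 * K) × Fin (2 * K)) → ℕ := fun x => ⌈Λ * √(μ x.1 x.2) / l⌉₊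
  have hnn : ∀ x, 1 ≤ nn x ∧ μ x.1 x.2 * (Λ / nn x) ^ 2 ≤ l ^ 2 ∧
      ((nn x : ℝ) * l) ^ 2 ≤ Λ ^ 2 * μ x.1 x.2 + 2 * Λ * √(μ x.1 x.2) * l + l ^ 2 :=
    fun x => sub_arith hΛ (hμ0 x.1 x.2) hl0 rfl
  let ι := (x : T) × (Fin (nn x) × Fin (nn x))
  let e : Fin (Fintype.card ι) ≃ ι := (Fintype.equivFin ι).symm
  have hcard : (Fintype.card ι : ℝ) = ∑ x ∈ T, (nn x : ℝ) ^ 2 := by
    have h1 : Fintype.card ι = ∑ x : T, nn x * nn x := by
      simp only [ι, Fintype.card_sigma, Fintype.card_prod, Fintype.card_fin]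
    rw [h1, ← Finset.sum_coe_sort T (fun x => (nn x : ℝ) ^ 2)]
    push_cast
    exact Finset.sum_congr rfl fun x _ => by ring
  have hnl : ∀ x, (nn x : ℝ) * (Λ / nn x) = Λ := fun x => by
    have : (0 : ℝ) < nn x := by exact_mod_cast (hnn x).1
    field_simp
  have hlam : ∀ x, 0 < Λ / nn x := fun x => by
    have : (0 : ℝ) < nn x := by exact_mod_cast (hnn x).1
    positivity
  have hsub : ∀ (x : T) (p q : Fin (nn x)), sq (gp (cg K x.1.2) (Λ / nn x) p q) (Λ / nn x) ⊆ sq (cg K x.1.2) Λ := by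
    intro x p q
    have := gp_sub (z := cg K x.1.2) (hlam x.1) p.2 q.2
    rwa [hnl] at this
  have hosub : ∀ (x : T) (p q : Fin (nn x)), osq (gp (cg K x.1.2) (Λ / nn x) p q) (Λ / nn x) ⊆ osq (cg K x.1.2) Λ := by
    intro x p q
    have := gp_osub (z := cg K x.1.2) (hlam x.1) p.2 q.2
    rwa [hnl] at this
  have hTm : ∀ x : T, (sq (cg K x.1.2) Λ ∩ G x.1.1).Nonempty := fun x => (Finset.mem_filter.1 x.2).2
  refine ⟨l, Nat.sqrt (Fintype.card ι) + 1, Fintype.card ι, fun k => (e k).1.1.1,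
    fun k => gp (cg K (e k).1.1.2) (Λ / nn (e k).1.1) (e k).2.1 (e k).2.2, fun k => Λ / nn (e k).1.1,
    hl0, by omega, ?_, fun k => hlam _, ?_, ?_, ?_, ?_, ?_⟩
  · have := Nat.lt_succ_sqrt (Fintype.card ι)
    rw [pow_two]
    exact this.le
  · intro k
    exact (hsub _ _ _).trans (hμ1 _ _ (hTm (e k).1)).1
  · intro k k' hkk hii
    have hne : e k ≠ e k' := fun h => hkk (e.injective h)
    dsimp only at hii ⊢
    generalize e k = u at hne hii ⊢
    generalize e k' = u' at hne hii ⊢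
    obtain ⟨x, p, q⟩ := u
    obtain ⟨x', p', q'⟩ := u'
    by_cases hx : x = x'
    · subst hx
      refine gp_odisj (hlam x.1) ?_
      intro h
      apply hne
      rw [Prod.mk.injEq] at h
      have h1 : p = p' := Fin.ext h.1
      have h2 : q = q' := Fin.ext h.2
      rw [h1, h2]
    · refine Set.disjoint_of_subset (hosub x p q) (hosub x' p' q') (cg_odisj hK0 ?_)
      intro h
      apply hx
      dsimp only at hii
      exact Subtype.ext (Prod.ext hii h)
  · intro j y hy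
    obtain ⟨t, ht⟩ := cg_cover hK0 (hG1 j hy)
    have hyt : y ∈ sq (cg K t) Λ := hsq_sub_sq _ _ ht
    have hT' : (j, t) ∈ T := Finset.mem_filter.2 ⟨Finset.mem_univ _, ⟨y, hyt, hy⟩⟩
    have hyt' : y ∈ sq (cg K t) (nn (j, t) * (Λ / nn (j, t))) := by rwa [hnl]
    obtain ⟨p, hp', q, hq', hpq⟩ := gp_cover (hlam (j, t)) (hnn (j, t)).1 hyt'
    let u : ι := ⟨⟨(j, t), hT'⟩, ⟨p, hp'⟩, ⟨q, hq'⟩⟩
    have hP : ∀ v : ι, v = u → v.1.1.1 = j ∧ y ∈ sq (gp (cg K v.1.1.2) (Λ / nn v.1.1) v.2.1 v.2.2) (Λ / nn v.1.1) := by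
      rintro v rfl
      exact ⟨rfl, hpq⟩
    exact ⟨e.symm u, hP _ (e.apply_symm_apply u)⟩
  · intro k y hy
    have h1 := (hμ1 _ _ (hTm (e k).1)).2 y (hsub _ _ _ hy)
    have h2 := (hnn (e k).1.1).2.1
    refine le_trans ?_ h2
    exact mul_le_mul_of_nonneg_right h1 (sq_nonneg _)
  · have hx2 : (Fintype.card ι : ℝ) * l ^ 2 = ∑ y ∈ T, ((nn y : ℝ) * l) ^ 2 := by
      rw [hcard, Finset.sum_mul]
      exact Finset.sum_congr rfl fun y _ => by ring
    have hx3 : (Fintype.card ι : ℝ) * l ^ 2 ≤ S + l * B := by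
      rw [hx2, hS, hB, Finset.mul_sum, ← Finset.sum_add_distrib]
      refine Finset.sum_le_sum fun y _ => ?_
      have h1 := (hnn y).2.2
      have h2 : l ^ 2 ≤ l := by nlinarith
      nlinarith
    exact (cover_arith hl0 hl1 hB0 hx3).trans (by linarith)

theorem exists_pack (hG : ∀ i, IsOpen (G i)) (hG1 : ∀ i, G i ⊆ ball 0 1)
    (ha : ∀ i, ContinuousOn (a i) (closedBall 0 2)) (hp : ∀ i, ∀ z ∈ closedBall (0 : ℂ) 2, 0 < a i z) {d : ℝ}
    (hd : 0 < d) : ∃ (l : ℝ) (N : ℕ) (i : Fin N → Fin m) (z : Fin N → ℂ) (lam : Fin N → ℝ),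
      0 < l ∧ (∀ k, 0 < lam k) ∧ (∀ k, sq (z k) (lam k) ⊆ G (i k)) ∧
      (∀ k k', k ≠ k' → i k = i k' → Disjoint (osq (z k) (lam k)) (osq (z k') (lam k'))) ∧
      (∀ k, ∀ y ∈ sq (z k) (lam k), l ^ 2 ≤ a (i k) y * lam k ^ 2) ∧
      (∑ j, ∫ y in G j, a j y) - d ≤ N * l ^ 2 := by
  classical
  have hd' : 0 < d / (2 * ((m : ℝ) + 1)) := by positivity
  obtain ⟨K, hK, hK1⟩ := ((eventually_all.2 fun i => riemann_lower (hG i) (hG1 i) (ha i) (hp i) hd').and
    (eventually_ge_atTop 1)).exists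
  choose μ hμ0 hμ1 hμ2 using hK
  have hK0 : 0 < K := by omega
  set Λ : ℝ := 1 / K with hΛdef
  have hΛ : 0 < Λ := by positivity
  set T := Finset.univ.filter (fun x : Fin m × (Fin (2 * K) × Fin (2 * K)) => sq (cg K x.2) Λ ⊆ G x.1) with hT
  set S := ∑ x ∈ T, Λ ^ 2 * μ x.1 x.2 with hS
  have hSle : (∑ j, ∫ y in G j, a j y) - d / 2 ≤ S := by
    have h1 : S = ∑ i, ∑ t ∈ Finset.univ.filter (fun t => sq (cg K t) Λ ⊆ G i), Λ ^ 2 * μ i t :=
      sum_sum_filter (fun i t => sq (cg K t) Λ ⊆ G i) (fun i t => Λ ^ 2 * μ i t)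
    rw [h1]
    refine le_trans ?_ (Finset.sum_le_sum fun i _ => hμ2 i)
    rw [Finset.sum_sub_distrib, Finset.sum_const, Finset.card_univ, Fintype.card_fin, nsmul_eq_mul]
    have : (m : ℝ) * (d / (2 * ((m : ℝ) + 1))) ≤ d / 2 := by
      rw [mul_div_assoc', div_le_div_iff₀ (by positivity) (by norm_num)]
      nlinarith [(Nat.cast_nonneg m : (0 : ℝ) ≤ m)]
    linarith
  set B := ∑ x ∈ T, (2 * Λ * √(μ x.1 x.2)) with hB
  have hB0 : 0 ≤ B := Finset.sum_nonneg fun x _ => by positivity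
  set l := d / 2 / (B + 1) with hl
  have hl0 : 0 < l := by positivity
  have hl2 : l * (B + 1) = d / 2 := by rw [hl]; field_simp
  let nn : Fin m × (Fin (2 * K) × Fin (2 * K)) → ℕ := fun x => ⌊Λ * √(μ x.1 x.2) / l⌋₊
  let lm : Fin m × (Fin (2 * K) × Fin (2 * K)) → ℝ := fun x => l / √(μ x.1 x.2)
  have hnn : ∀ x, nn x * lm x ≤ Λ ∧ μ x.1 x.2 * lm x ^ 2 = l ^ 2 ∧
      Λ ^ 2 * μ x.1 x.2 - 2 * Λ * √(μ x.1 x.2) * l ≤ ((nn x : ℝ) * l) ^ 2 :=
    fun x => sub_arith' hΛ (hμ0 x.1 x.2) hl0 rfl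
  let ι := (x : T) × (Fin (nn x) × Fin (nn x))
  let e : Fin (Fintype.card ι) ≃ ι := (Fintype.equivFin ι).symm
  have hcard : (Fintype.card ι : ℝ) = ∑ x ∈ T, (nn x : ℝ) ^ 2 := by
    have h1 : Fintype.card ι = ∑ x : T, nn x * nn x := by
      simp only [ι, Fintype.card_sigma, Fintype.card_prod, Fintype.card_fin]
    rw [h1, ← Finset.sum_coe_sort T (fun x => (nn x : ℝ) ^ 2)]
    push_cast
    exact Finset.sum_congr rfl fun x _ => by ring
  have hlam : ∀ x, 0 < lm x := fun x => div_pos hl0 (Real.sqrt_pos.2 (hμ0 _ _))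
  have hsub : ∀ (x : T) (p q : Fin (nn x)), sq (gp (cg K x.1.2) (lm x) p q) (lm x) ⊆ sq (cg K x.1.2) Λ :=
    fun x p q => (gp_sub (z := cg K x.1.2) (hlam x.1) p.2 q.2).trans (sq_mono _ (hnn x.1).1)
  have hosub : ∀ (x : T) (p q : Fin (nn x)), osq (gp (cg K x.1.2) (lm x) p q) (lm x) ⊆ osq (cg K x.1.2) Λ :=
    fun x p q => (gp_osub (z := cg K x.1.2) (hlam x.1) p.2 q.2).trans (osq_mono _ (hnn x.1).1)
  have hTm : ∀ x : T, sq (cg K x.1.2) Λ ⊆ G x.1.1 := fun x => (Finset.mem_filter.1 x.2).2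
  refine ⟨l, Fintype.card ι, fun k => (e k).1.1.1,
    fun k => gp (cg K (e k).1.1.2) (lm (e k).1.1) (e k).2.1 (e k).2.2, fun k => lm (e k).1.1,
    hl0, fun k => hlam _, ?_, ?_, ?_, ?_⟩
  · intro k
    exact (hsub _ _ _).trans (hTm (e k).1)
  · intro k k' hkk hii
    have hne : e k ≠ e k' := fun h => hkk (e.injective h)
    dsimp only at hii ⊢
    generalize e k = u at hne hii ⊢
    generalize e k' = u' at hne hii ⊢
    obtain ⟨x, p, q⟩ := u
    obtain ⟨x', p', q'⟩ := u'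
    by_cases hx : x = x'
    · subst hx
      refine gp_odisj (hlam x.1) ?_
      intro h
      apply hne
      rw [Prod.mk.injEq] at h
      have h1 : p = p' := Fin.ext h.1
      have h2 : q = q' := Fin.ext h.2
      rw [h1, h2]
    · refine Set.disjoint_of_subset (hosub x p q) (hosub x' p' q') (cg_odisj hK0 ?_)
      intro h
      apply hx
      dsimp only at hii
      exact Subtype.ext (Prod.ext hii h)
  · intro k y hy
    have h1 := hμ1 _ _ (hTm (e k).1) y (hsub _ _ _ hy)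
    have h2 := (hnn (e k).1.1).2.1
    rw [← h2]
    exact mul_le_mul_of_nonneg_right h1 (sq_nonneg _)
  · have hx2 : (Fintype.card ι : ℝ) * l ^ 2 = ∑ y ∈ T, ((nn y : ℝ) * l) ^ 2 := by
      rw [hcard, Finset.sum_mul]
      exact Finset.sum_congr rfl fun y _ => by ring
    have hx3 : S - l * B ≤ (Fintype.card ι : ℝ) * l ^ 2 := by
      rw [hx2, hS, hB, Finset.mul_sum, ← Finset.sum_sub_distrib]
      refine Finset.sum_le_sum fun y _ => ?_
      have h1 := (hnn y).2.2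
      linarith
    have : l * B ≤ l * (B + 1) := by nlinarith
    linarith

end Pool.Agent.Helper53.CL.K
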